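import Pool.Agent.J6H26.CP.Win

/-! # Windows of a skew operator relative to a compact perturbation of the identity -/

set_option autoImplicit false

namespace Pool.Agent.J6H26.CP

open Pool.Agent.J6H26.FR Filter Topology

variable {E : Type*} [NormedAddCommGroup E] [NormedSpace ℝ E]

lemma norm_op_mul (T : E ≃ₗᵢ[ℝ] E) (Y : E →L[ℝ] E) : ‖op T * Y‖ = ‖Y‖ := by
  have h1 : ∀ (S : E ≃ₗᵢ[ℝ] E) (Z : E →L[ℝ] E), ‖op S * Z‖ ≤ ‖Z‖ := fun S Z => by
    refine (norm_mul_le _ _).trans ?_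
    exact mul_le_of_le_one_left (norm_nonneg _) (op_norm_le S)
  apply le_antisymm (h1 T Y)
  have h2 := h1 T⁻¹ (op T * Y)
  rwa [← mul_assoc, op_inv_mul, one_mul] at h2

lemma norm_mul_op (T : E ≃ₗᵢ[ℝ] E) (Y : E →L[ℝ] E) : ‖Y * op T‖ = ‖Y‖ := by
  have h1 : ∀ (S : E ≃ₗᵢ[ℝ] E) (Z : E →L[ℝ] E), ‖Z * op S‖ ≤ ‖Z‖ := fun S Z => by
    refine (norm_mul_le _ _).trans ?_
    exact mul_le_of_le_one_right (norm_nonneg _) (op_norm_le S)
  apply le_antisymm (h1 T Y)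
  have h2 := h1 T⁻¹ (Y * op T)
  rwa [mul_assoc, op_mul_inv, mul_one] at h2

/-- left multiplication -/
noncomputable def lmf (T : E ≃ₗᵢ[ℝ] E) : (E →L[ℝ] E) ≃ₗᵢ[ℝ] (E →L[ℝ] E) where
  toFun := fun Y => op T * Y
  invFun := fun Y => op T⁻¹ * Y
  map_add' := fun x y => mul_add _ _ _
  map_smul' := fun c x => mul_smul_comm _ _ _
  left_inv := fun x => by
    show op T⁻¹ * (op T * x) = x
    rw [← mul_assoc, op_inv_mul, one_mul]
  right_inv := fun x => by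
    show op T * (op T⁻¹ * x) = x
    rw [← mul_assoc, op_mul_inv, one_mul]
  norm_map' := fun x => norm_op_mul T x

/-- right multiplication with the inverse -/
noncomputable def rmf (T : E ≃ₗᵢ[ℝ] E) : (E →L[ℝ] E) ≃ₗᵢ[ℝ] (E →L[ℝ] E) where
  toFun := fun Y => Y * op T⁻¹
  invFun := fun Y => Y * op T
  map_add' := fun x y => add_mul _ _ _
  map_smul' := fun c x => smul_mul_assoc _ _ _
  left_inv := fun x => by
    show x * op T⁻¹ * op T = x
    rw [mul_assoc, op_inv_mul, mul_one]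
  right_inv := fun x => by
    show x * op T * op T⁻¹ = x
    rw [mul_assoc, op_mul_inv, mul_one]
  norm_map' := fun x => norm_mul_op T⁻¹ x

lemma lmf_apply (T : E ≃ₗᵢ[ℝ] E) (Y : E →L[ℝ] E) : lmf T Y = op T * Y := rfl

lemma rmf_apply (T : E ≃ₗᵢ[ℝ] E) (Y : E →L[ℝ] E) : rmf T Y = Y * op T⁻¹ := rfl

noncomputable def lm : (E ≃ₗᵢ[ℝ] E) →* ((E →L[ℝ] E) ≃ₗᵢ[ℝ] (E →L[ℝ] E)) where
  toFun := lmf
  map_one' := by
    ext1 Y
    rw [lmf_apply, op_one, one_mul]; rfl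
  map_mul' := fun S T => by
    ext1 Y
    rw [lmf_apply, op_mul, mul_assoc]; rfl

noncomputable def rm : (E ≃ₗᵢ[ℝ] E) →* ((E →L[ℝ] E) ≃ₗᵢ[ℝ] (E →L[ℝ] E)) where
  toFun := rmf
  map_one' := by
    ext1 Y
    rw [rmf_apply, inv_one, op_one, mul_one]; rfl
  map_mul' := fun S T => by
    ext1 Y
    rw [rmf_apply, mul_inv_rev, op_mul, ← mul_assoc]; rfl

lemma lm_apply (T : E ≃ₗᵢ[ℝ] E) (Y : E →L[ℝ] E) : lm T Y = op T * Y := rfl

lemma rm_apply (T : E ≃ₗᵢ[ℝ] E) (Y : E →L[ℝ] E) : rm T Y = Y * op T⁻¹ := rfl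

lemma lm_rm (T : E ≃ₗᵢ[ℝ] E) : lm T * rm T = rm T * lm T := by
  ext1 Y
  show op T * (Y * op T⁻¹) = op T * Y * op T⁻¹
  rw [mul_assoc]

/-- conjugation -/
noncomputable def ad (T : E ≃ₗᵢ[ℝ] E) : (E →L[ℝ] E) ≃ₗᵢ[ℝ] (E →L[ℝ] E) := lm T * rm T

lemma ad_apply (T : E ≃ₗᵢ[ℝ] E) (Y : E →L[ℝ] E) : ad T Y = cj T Y := by
  rw [cj_eq]
  show op T * (Y * op T⁻¹) = _
  rw [mul_assoc]

lemma ad_inv (T : E ≃ₗᵢ[ℝ] E) : (ad T)⁻¹ = ad T⁻¹ := by
  unfold ad
  rw [mul_inv_rev, map_inv, map_inv, ← map_inv, ← map_inv, lm_rm]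

lemma ad_zpow (T : E ≃ₗᵢ[ℝ] E) (k : ℤ) : (ad T) ^ k = ad (T ^ k) := by
  unfold ad
  have h : Commute (lm T) (rm T) := lm_rm T
  rw [h.mul_zpow, ← map_zpow, ← map_zpow]

/-- skew operators are stable under conjugation -/
lemma ad_gg {T : E ≃ₗᵢ[ℝ] E} {Y : E →L[ℝ] E} (hY : Y ∈ gg E) : ad T Y ∈ gg E := by
  rw [ad_apply]
  exact Sk.conj hY T

variable [CompleteSpace E]

lemma Fop_apply {F : Type*} [NormedAddCommGroup F] [NormedSpace ℝ F] [CompleteSpace F]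
    (n : F ≃ₗᵢ[ℝ] F) {a : ℤ → ℝ} (ha : Summable fun k => |a k|) (x : F) :
    HasSum (fun k => a k • (n ^ k : F ≃ₗᵢ[ℝ] F) x) (Fop n a x) := by
  have h1 : HasSum (fun k => a k • op (n ^ k)) (Fop n a) := (summable_term n ha).hasSum
  have := h1.mapL (ContinuousLinearMap.apply ℝ F x)
  exact this

lemma Fop_lm (T : E ≃ₗᵢ[ℝ] E) {a : ℤ → ℝ} (ha : Summable fun k => |a k|) (Y : E →L[ℝ] E) :
    Fop (lm T) a Y = Fop T a * Y := by
  have h1 := Fop_apply (lm T) ha Y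
  have h2 : HasSum (fun k => a k • op (T ^ k)) (Fop T a) := (summable_term T ha).hasSum
  have h3 := h2.mul_right Y
  refine h1.unique ?_
  refine h3.congr_fun fun k => ?_
  rw [← map_zpow, lm_apply, smul_mul_assoc]

lemma Fop_rm (T : E ≃ₗᵢ[ℝ] E) {a : ℤ → ℝ} (ha : Summable fun k => |a k|)
    (hn : ∀ k, a (-k) = a k) (Y : E →L[ℝ] E) :
    Fop (rm T) a Y = Y * Fop T a := by
  have h1 := Fop_apply (rm T) ha Y
  have h2 : HasSum (fun k => a k • op (T ^ k)) (Fop T a) := (summable_term T ha).hasSum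
  have h3 := h2.mul_left Y
  have h4 := (Equiv.neg ℤ).hasSum_iff.2 h3
  refine h1.unique ?_
  refine h4.congr_fun fun k => ?_
  show a k • (rm T ^ k) Y = Y * (a (-k) • op (T ^ (-k)))
  rw [← map_zpow, rm_apply, mul_smul_comm, hn, zpow_neg]

lemma Fop_ad_mem (T : E ≃ₗᵢ[ℝ] E) {a : ℤ → ℝ} (ha : Summable fun k => |a k|) {Y : E →L[ℝ] E}
    (hY : Y ∈ gg E) : Fop (ad T) a Y ∈ gg E := by
  have h1 := Fop_apply (ad T) ha Y
  refine gg_closed.mem_of_tendsto h1 (Filter.Eventually.of_forall fun s => ?_)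
  refine Submodule.sum_mem _ fun k _ => Submodule.smul_mem _ _ ?_
  rw [ad_zpow]
  exact ad_gg hY

/-- the diagonal block of a window off zero vanishes -/
lemma block (T : E ≃ₗᵢ[ℝ] E) {δ η : ℝ} (h0 : 0 < η) (h : 8 * η ≤ δ) (h1 : δ ≤ 1)
    (Y : E →L[ℝ] E) : Fop T (pp η) * Fop (ad T) (aa δ) Y * Fop T (pp η) = 0 := by
  have hδ : 0 < δ := by linarith
  have hη1 : η ≤ 1 := by linarith
  have hp := pp_summable h0 hη1
  have ha := aa_summable hδ h1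
  have h2 := Fop_triple (lm T) (rm T) (lm_rm T) ha hp hp (triple h0 h h1)
  -- commutation
  have c1 : op (lm T) * op (ad T) = op (ad T) * op (lm T) := by
    rw [← op_mul, ← op_mul]
    unfold ad
    rw [mul_assoc, lm_rm]
  have c2 : op (rm T) * op (ad T) = op (ad T) * op (rm T) := by
    rw [← op_mul, ← op_mul]
    unfold ad
    rw [← mul_assoc, ← lm_rm]
  have d1 := (Fop_comm_of (lm T) hp (Fop (ad T) (aa δ))
    ((Fop_comm_of (ad T) ha (op (lm T)) c1).symm)).symm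
  have d2 := (Fop_comm_of (rm T) hp (Fop (ad T) (aa δ))
    ((Fop_comm_of (ad T) ha (op (rm T)) c2).symm)).symm
  have h3 : Fop (ad T) (aa δ) * (Fop (lm T) (pp η) * Fop (rm T) (pp η)) =
      Fop (lm T) (pp η) * Fop (rm T) (pp η) * Fop (ad T) (aa δ) := by
    rw [← mul_assoc, ← d1, mul_assoc, ← d2, mul_assoc]
  have h4 : Fop (lm T) (pp η) * Fop (rm T) (pp η) * Fop (ad T) (aa δ) = 0 := by
    rw [← h3]; exact h2
  have h5 := congrArg (fun z : (E →L[ℝ] E) →L[ℝ] (E →L[ℝ] E) => z Y) h4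
  have h6 : Fop (lm T) (pp η) (Fop (rm T) (pp η) (Fop (ad T) (aa δ) Y)) = 0 := h5
  rw [Fop_rm T hp (pp_neg η), Fop_lm T hp, ← mul_assoc] at h6
  exact h6

/-- windows off zero have finite rank -/
lemma win_ad_fin {T : E ≃ₗᵢ[ℝ] E} (hT : Cpt T) {δ : ℝ} (h0 : 0 < δ) (h1 : δ ≤ 1)
    (Y : E →L[ℝ] E) : FinK (Fop (ad T) (aa δ) Y) := by
  have hη : 0 < δ / 8 := by positivity
  have hη1 : δ / 8 ≤ 1 := by linarith
  have hb := block T hη (by linarith : 8 * (δ / 8) ≤ δ) h1 Y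
  have hW := win_fin hT hη hη1
  set Z := Fop (ad T) (aa δ) Y with hZ
  set W := Fop T (aa (δ / 8)) with hWdef
  have hWe : Fop T (pp (δ / 8)) = 1 - W := by
    rw [hWdef, Fop_aa T hη hη1]; abel
  rw [hWe] at hb
  have e : Z = W * Z + (Z * W + (-(W * Z)) * W) := by
    have : (1 - W) * Z * (1 - W) = Z - (W * Z + (Z * W + (-(W * Z)) * W)) := by
      simp only [sub_mul, mul_sub, one_mul, mul_one, neg_mul]
      abel
    rw [this] at hb
    exact sub_eq_zero.1 hb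
  rw [e]
  exact (hW.mul_right Z).add ((hW.mul_left Z).add (hW.mul_left _))

omit [CompleteSpace E] in
/-- a vector with trivial cosine -/
lemma fix_of_Co {F : Type*} [NormedAddCommGroup F] [NormedSpace ℝ F] (n : F ≃ₗᵢ[ℝ] F) (x : F)
    (h : Co n x = x) : n x = x := by
  have h1 : n x + n⁻¹ x = (2 : ℝ) • x := by
    have e : (2 : ℝ) • Co n x = n x + n⁻¹ x := by
      show (2 : ℝ) • ((1 / 2 : ℝ) • (n x + n⁻¹ x)) = _
      rw [smul_smul]; norm_num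
    rw [← e, h]
  have h2 : n (n x) = (2 : ℝ) • n x - x := by
    have := congrArg n h1
    rw [map_add, map_smul] at this
    have e : n (n⁻¹ x) = x := n.apply_symm_apply x
    rw [e] at this
    rw [← this]; abel
  have h3 : ∀ j : ℕ, (n ^ j : F ≃ₗᵢ[ℝ] F) x = x + (j : ℝ) • (n x - x) ∧
        (n ^ (j + 1) : F ≃ₗᵢ[ℝ] F) x = x + ((j + 1 : ℕ) : ℝ) • (n x - x) := by
    intro j
    induction j with
    | zero => refine ⟨by simp, by simp⟩
    | succ j ih =>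
      refine ⟨ih.2, ?_⟩
      have e1 : (n ^ (j + 1 + 1) : F ≃ₗᵢ[ℝ] F) x = (n ^ j : F ≃ₗᵢ[ℝ] F) (n (n x)) := by
        rw [pow_succ, pow_succ]; rfl
      have e2 : (n ^ (j + 1) : F ≃ₗᵢ[ℝ] F) x = (n ^ j : F ≃ₗᵢ[ℝ] F) (n x) := by
        rw [pow_succ]; rfl
      rw [e1, h2, map_sub, map_smul, ← e2, ih.1, ih.2]
      push_cast
      module
  by_contra hne
  have hpos : 0 < ‖n x - x‖ := norm_pos_iff.2 (sub_ne_zero.2 hne)
  obtain ⟨j, hj⟩ := exists_nat_gt (2 * ‖x‖ / ‖n x - x‖)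
  rw [div_lt_iff₀ hpos] at hj
  have h4 : ‖(j : ℝ) • (n x - x)‖ ≤ 2 * ‖x‖ := by
    have e : (j : ℝ) • (n x - x) = (n ^ j : F ≃ₗᵢ[ℝ] F) x - x := by rw [(h3 j).1]; abel
    rw [e]
    refine (norm_sub_le _ _).trans ?_
    rw [LinearIsometryEquiv.norm_map]
    linarith
  rw [norm_smul, Real.norm_of_nonneg (Nat.cast_nonneg j)] at h4
  linarith

/-- **Windows.** If a skew operator does not commute with an isometry which is a compact
perturbation of the identity, then there is a nonzero skew operator of finite rank. -/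
theorem exists_fin {T : E ≃ₗᵢ[ℝ] E} (hT : Cpt T) {Y : E →L[ℝ] E} (hY : Y ∈ gg E)
    (hne : Y * op T ≠ op T * Y) : ∃ Z ∈ gg E, FinK Z ∧ Z ≠ 0 := by
  by_contra hcon
  push Not at hcon
  have hz : ∀ δ : ℝ, 0 < δ → δ ≤ 1 → Fop (ad T) (aa δ) Y = 0 := fun δ h0 h1 =>
    hcon _ (Fop_ad_mem T (aa_summable h0 h1) hY) (win_ad_fin hT h0 h1 Y)
  have hfix : Co (ad T) Y = Y := by
    rw [← sub_eq_zero, ← norm_le_zero_iff]
    refine le_of_forall_pos_le_add fun ε hε => ?_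
    obtain ⟨δ, h0, h1, h2⟩ := Co_small (ad T) (ε := ε / (‖Y‖ + 1)) (by positivity)
    have h3 := hz δ h0 h1
    rw [Fop_aa (ad T) h0 h1] at h3
    have h4 : Fop (ad T) (pp δ) Y = Y := by
      have : Y - Fop (ad T) (pp δ) Y = 0 := h3
      exact (sub_eq_zero.1 this).symm
    have h5 : Co (ad T) Y - Y = ((Co (ad T) - 1) * Fop (ad T) (pp δ)) Y := by
      show _ = Co (ad T) (Fop (ad T) (pp δ) Y) - Fop (ad T) (pp δ) Y
      rw [h4]
    rw [h5]
    refine (((Co (ad T) - 1) * Fop (ad T) (pp δ)).le_opNorm Y).trans ?_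
    have h6 : ‖(Co (ad T) - 1) * Fop (ad T) (pp δ)‖ * ‖Y‖ ≤ ε / (‖Y‖ + 1) * ‖Y‖ := by gcongr
    refine h6.trans ?_
    rw [zero_add, div_mul_eq_mul_div, div_le_iff₀ (by positivity)]
    nlinarith [norm_nonneg Y]
  have h7 := fix_of_Co (ad T) Y hfix
  apply hne
  rw [ad_apply, cj_eq] at h7
  calc Y * op T = op T * Y * op T⁻¹ * op T := by rw [h7]
    _ = op T * Y := by rw [mul_assoc, op_inv_mul, mul_one]

end Pool.Agent.J6H26.CP
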