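import Pool.Agent.J6H26.CP.Null

/-! # Almost periodic vectors and the pigeonhole principle -/

set_option autoImplicit false

namespace Pool.Agent.J6H26.CP

open Pool.Agent.J6H26.FR Filter Topology

variable {E : Type*} [NormedAddCommGroup E] [NormedSpace ℝ E]

/-- vectors with relatively compact orbit -/
noncomputable def AP (Δ : Subgroup (E ≃ₗᵢ[ℝ] E)) : Submodule ℝ E where
  carrier := {x | ∃ C : Set E, IsCompact C ∧ ∀ g ∈ Δ, g x ∈ C}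
  add_mem' := by
    rintro x y ⟨C, hC, hx⟩ ⟨D, hD, hy⟩
    refine ⟨(fun p : E × E => p.1 + p.2) '' (C ×ˢ D), (hC.prod hD).image continuous_add, ?_⟩
    intro g hg
    exact ⟨(g x, g y), ⟨hx g hg, hy g hg⟩, (map_add g x y).symm⟩
  zero_mem' := ⟨{0}, isCompact_singleton, fun g _ => by rw [map_zero]; exact rfl⟩
  smul_mem' := by
    rintro c x ⟨C, hC, hx⟩
    refine ⟨(fun v : E => c • v) '' C, hC.image (continuous_const_smul c), ?_⟩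
    intro g hg
    exact ⟨g x, hx g hg, (map_smul g c x).symm⟩

variable {Δ : Subgroup (E ≃ₗᵢ[ℝ] E)}

lemma mem_AP {x : E} : x ∈ AP Δ ↔ ∃ C : Set E, IsCompact C ∧ ∀ g ∈ Δ, g x ∈ C := Iff.rfl

lemma AP_inv {g : E ≃ₗᵢ[ℝ] E} (hg : g ∈ Δ) {x : E} (hx : x ∈ AP Δ) : g x ∈ AP Δ := by
  obtain ⟨C, hC, h⟩ := hx
  exact ⟨C, hC, fun k hk => h (k * g) (Δ.mul_mem hk hg)⟩

/-- values of compact operators commuting with the group are almost periodic -/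
lemma AP_of_comm {A : E →L[ℝ] E} (hA : IsCompactOperator A)
    (hc : ∀ g ∈ Δ, ∀ x, g (A x) = A (g x)) (x : E) : A x ∈ AP Δ := by
  have hA' : IsCompactOperator (A : E →ₗ[ℝ] E) := hA
  obtain ⟨C, hC, hsub⟩ := hA'.image_closedBall_subset_compact ‖x‖
  refine ⟨C, hC, fun g hg => hsub ⟨g x, ?_, (hc g hg x).symm⟩⟩
  rw [mem_closedBall_zero_iff, g.norm_map]

variable [CompleteSpace E]

instance AP_closed : IsClosed ((AP Δ : Submodule ℝ E) : Set E) := by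
  rw [← closure_subset_iff_isClosed]
  intro x hx
  have htb : TotallyBounded {y : E | ∃ g ∈ Δ, g x = y} := by
    rw [Metric.totallyBounded_iff]
    intro ε hε
    obtain ⟨y, hy, hxy⟩ := Metric.mem_closure_iff.1 hx (ε / 2) (by positivity)
    obtain ⟨C, hC, hCy⟩ := mem_AP.1 hy
    obtain ⟨t, htf, hcov⟩ := Metric.totallyBounded_iff.1 hC.totallyBounded (ε / 2) (by positivity)
    refine ⟨t, htf, ?_⟩
    rintro _ ⟨g, hg, rfl⟩
    obtain ⟨z, hz, hgz⟩ := Set.mem_iUnion₂.1 (hcov (hCy g hg))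
    refine Set.mem_iUnion₂.2 ⟨z, hz, ?_⟩
    rw [Metric.mem_ball] at hgz ⊢
    have h1 := dist_triangle (g x) (g y) z
    rw [g.dist_map] at h1
    linarith
  refine ⟨closure {y : E | ∃ g ∈ Δ, g x = y}, ?_, fun g hg => subset_closure ⟨g, hg, rfl⟩⟩
  exact htb.closure.isCompact_of_isClosed isClosed_closure

/-- the quotient -/
abbrev QQ (Δ : Subgroup (E ≃ₗᵢ[ℝ] E)) : Type _ := E ⧸ (AP Δ)

/-- the quotient map -/
noncomputable def pi (Δ : Subgroup (E ≃ₗᵢ[ℝ] E)) : E →ₗ[ℝ] QQ Δ := (AP Δ).mkQ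

lemma pi_eq_zero {x : E} : pi Δ x = 0 ↔ x ∈ AP Δ := Submodule.Quotient.mk_eq_zero _

lemma pi_surj (X : QQ Δ) : ∃ x, pi Δ x = X := Submodule.mkQ_surjective _ X

lemma pi_norm_le (x : E) : ‖pi Δ x‖ ≤ ‖x‖ := Submodule.Quotient.norm_mk_le (S := AP Δ) x

lemma pi_cont : Continuous (pi Δ) :=
  (LinearMap.mkContinuous (pi Δ) 1 fun x => by rw [one_mul]; exact pi_norm_le x).continuous

lemma exists_rep (X : QQ Δ) {ε : ℝ} (hε : 0 < ε) : ∃ x, pi Δ x = X ∧ ‖x‖ < ‖X‖ + ε :=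
  Submodule.Quotient.norm_mk_lt (S := AP Δ) X hε

lemma exists_near {x : E} {ε : ℝ} (h : ‖pi Δ x‖ < ε) : ∃ z ∈ AP Δ, ‖x - z‖ < ε := by
  obtain ⟨m, hm, hmn⟩ := exists_rep (pi Δ x) (sub_pos.2 h)
  refine ⟨x - m, ?_, ?_⟩
  · rw [← pi_eq_zero, map_sub, hm, sub_self]
  · rw [sub_sub_cancel]; linarith

lemma pi_norm_iso {g : E ≃ₗᵢ[ℝ] E} (hg : g ∈ Δ) (x : E) : ‖pi Δ (g x)‖ ≤ ‖pi Δ x‖ := by
  refine le_of_forall_pos_lt_add fun ε hε => ?_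
  obtain ⟨m, hm, hmn⟩ := exists_rep (pi Δ x) hε
  have h1 : pi Δ (g x) = pi Δ (g m) := by
    rw [← sub_eq_zero, ← map_sub, ← map_sub, pi_eq_zero]
    apply AP_inv hg
    rw [← pi_eq_zero, map_sub, hm, sub_self]
  rw [h1]
  refine lt_of_le_of_lt (pi_norm_le _) ?_
  rw [g.norm_map]
  exact hmn

/-- relatively compact orbits in the quotient -/
def QC (Δ : Subgroup (E ≃ₗᵢ[ℝ] E)) : Prop :=
  ∀ x : E, ∃ C : Set (QQ Δ), IsCompact C ∧ ∀ g ∈ Δ, pi Δ (g x) ∈ C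

lemma uu_lim {X : Type*} [TopologicalSpace X] {C : Set X} (hC : IsCompact C) {f : ℕ → X}
    (hf : ∀ n, f n ∈ C) : ∃ a, Tendsto f uu (𝓝 a) := by
  obtain ⟨a, -, ha⟩ := hC.ultrafilter_le_nhds (uu.map f) (by
    rw [Filter.le_principal_iff]
    show f ⁻¹' C ∈ (uu : Filter ℕ)
    have : f ⁻¹' C = Set.univ := Set.eq_univ_of_forall hf
    rw [this]
    exact Filter.univ_mem)
  exact ⟨a, ha⟩

lemma uu_finite {T : Type*} {s : Finset T} {P : ℕ → T → Prop}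
    (h : ∀ᶠ n in (uu : Filter ℕ), ∃ t ∈ s, P n t) : ∃ t ∈ s, ∀ᶠ n in (uu : Filter ℕ), P n t := by
  have h1 : (⋃ t ∈ (s : Set T), {n | P n t}) ∈ uu := by
    refine Filter.mem_of_superset h fun n hn => ?_
    obtain ⟨t, ht, hp⟩ := hn
    exact Set.mem_iUnion₂.2 ⟨t, ht, hp⟩
  obtain ⟨t, ht, hp⟩ := (Ultrafilter.finite_biUnion_mem_iff s.finite_toSet).1 h1
  exact ⟨t, ht, hp⟩

/-- one step of the pigeonhole principle -/
lemma near_pair {a b : E ≃ₗᵢ[ℝ] E} (ha : a ∈ Δ) {x : E} {ε : ℝ} {q : QQ Δ}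
    (hqa : ‖pi Δ (a x) - q‖ < ε / 2) (hqb : ‖pi Δ (b x) - q‖ < ε / 2) :
    ∃ z ∈ (AP Δ : Set E), ‖(a⁻¹ * b) x - x - z‖ < ε := by
  have h1 : (a⁻¹ * b) x - x = a⁻¹ (b x - a x) := by
    rw [map_sub]
    congr 1
    exact (a.symm_apply_apply x).symm
  have h2 : ‖pi Δ ((a⁻¹ * b) x - x)‖ < ε := by
    rw [h1]
    refine lt_of_le_of_lt (pi_norm_iso (Δ.inv_mem ha) _) ?_
    have h3 : pi Δ (b x - a x) = (pi Δ (b x) - q) - (pi Δ (a x) - q) := by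
      rw [map_sub]; abel
    rw [h3]
    refine lt_of_le_of_lt (norm_sub_le _ _) ?_
    linarith
  exact exists_near h2

lemma near_pair' {a b : E ≃ₗᵢ[ℝ] E} {y l : E} {ε : ℝ}
    (ha : ‖a y - l‖ < ε / 2) (hb : ‖b y - l‖ < ε / 2) : ‖(a⁻¹ * b) y - y‖ < ε := by
  have h1 : (a⁻¹ * b) y - y = a⁻¹ ((b y - l) - (a y - l)) := by
    have : (b y - l) - (a y - l) = b y - a y := by abel
    rw [this, map_sub]
    congr 1
    exact (a.symm_apply_apply y).symm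
  rw [h1, (a⁻¹).norm_map]
  refine lt_of_le_of_lt (norm_sub_le _ _) ?_
  linarith

/-- **Pigeonhole.** -/
theorem pigeon (hQ : QC Δ) (γ : ℕ → E ≃ₗᵢ[ℝ] E) (hγ : ∀ i, γ i ∈ Δ) (X : Finset E)
    (𝒬 : Finset (E →L[ℝ] E)) (h𝒬 : ∀ M ∈ 𝒬, IsCompactOperator M) {ε : ℝ} (hε : 0 < ε) :
    ∃ i j, i < j ∧ ∀ x ∈ X, ∀ M ∈ 𝒬, ‖M (((γ i)⁻¹ * γ j) x - x)‖ < ε ∧
      ‖M (((γ j)⁻¹ * γ i) x - x)‖ < ε := by
  classical
  by_contra hcon
  push Not at hcon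
  let bb : ℕ → ℕ → Bool → E ≃ₗᵢ[ℝ] E := fun i j s => if s then (γ i)⁻¹ * γ j else (γ j)⁻¹ * γ i
  let T : Finset (E × (E →L[ℝ] E) × Bool) := X ×ˢ (𝒬 ×ˢ (Finset.univ : Finset Bool))
  let bad : ℕ → ℕ → (E × (E →L[ℝ] E) × Bool) → Prop := fun i j t =>
    ε ≤ ‖t.2.1 (bb i j t.2.2 t.1 - t.1)‖
  have h1 : ∀ i j, i < j → ∃ t ∈ T, bad i j t := by
    intro i j hij
    obtain ⟨x, hx, M, hM, h⟩ := hcon i j hij
    by_cases h2 : ‖M (((γ i)⁻¹ * γ j) x - x)‖ < ε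
    · exact ⟨(x, M, false), by simp [T, hx, hM], h h2⟩
    · exact ⟨(x, M, true), by simp [T, hx, hM], not_lt.1 h2⟩
  have h2 : ∀ i, ∃ t ∈ T, ∀ᶠ j in (uu : Filter ℕ), bad i j t := by
    intro i
    apply uu_finite
    filter_upwards [uu_le (eventually_gt_atTop i)] with j hj
    exact h1 i j hj
  choose t ht htb using h2
  obtain ⟨t₀, ht₀, h3⟩ : ∃ t₀ ∈ T, ∀ᶠ i in (uu : Filter ℕ), t i = t₀ :=
    uu_finite (P := fun i t₀ => t i = t₀) (Filter.Eventually.of_forall fun i => ⟨t i, ht i, rfl⟩)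
  obtain ⟨x, M, s⟩ := t₀
  have hx : x ∈ X := (Finset.mem_product.1 ht₀).1
  have hM : M ∈ 𝒬 := (Finset.mem_product.1 (Finset.mem_product.1 ht₀).2).1
  refine weak_null (h𝒬 M hM) x hε (AP Δ : Set E) ?_
  intro Y hY δ hδ
  have hl : ∀ y : E, ∃ l : E, y ∈ Y → Tendsto (fun i => γ i y) uu (𝓝 l) := by
    intro y
    by_cases hy : y ∈ Y
    · obtain ⟨C, hC, h⟩ := mem_AP.1 (hY y hy)
      obtain ⟨a, ha⟩ := uu_lim hC (f := fun i => γ i y) fun i => h _ (hγ i)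
      exact ⟨a, fun _ => ha⟩
    · exact ⟨0, fun h => absurd h hy⟩
  choose l hl using hl
  obtain ⟨C, hC, hCx⟩ := hQ x
  obtain ⟨q, hq⟩ := uu_lim hC (f := fun i => pi Δ (γ i x)) fun i => hCx _ (hγ i)
  have e1 : ∀ᶠ i in (uu : Filter ℕ), ∀ y ∈ Y, ‖γ i y - l y‖ < δ / 2 := by
    rw [Filter.eventually_all_finset]
    intro y hy
    filter_upwards [Metric.tendsto_nhds.1 (hl y hy) (δ / 2) (by positivity)] with i hi
    rwa [dist_eq_norm] at hi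
  have e2 : ∀ᶠ i in (uu : Filter ℕ), ‖pi Δ (γ i x) - q‖ < δ / 2 := by
    filter_upwards [Metric.tendsto_nhds.1 hq (δ / 2) (by positivity)] with i hi
    rwa [dist_eq_norm] at hi
  obtain ⟨i, hi1, hi2, hi3⟩ := (e1.and (e2.and h3)).exists
  have h4 := htb i
  rw [hi3] at h4
  obtain ⟨j, hj1, hj2, hj3⟩ := (e1.and (e2.and h4)).exists
  cases s with
  | true =>
    exact ⟨(γ i)⁻¹ * γ j, hj3, fun y hy => near_pair' (hi1 y hy) (hj1 y hy),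
      near_pair (hγ i) hi2 hj2⟩
  | false =>
    exact ⟨(γ j)⁻¹ * γ i, hj3, fun y hy => near_pair' (hj1 y hy) (hi1 y hy),
      near_pair (hγ j) hj2 hi2⟩

end Pool.Agent.J6H26.CP
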