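import Pool.Agent.J6H26.CP.Small

/-! # Compact perturbations of the identity on separable spaces -/

set_option autoImplicit false

namespace Pool.Agent.J6H26.CP

open Pool.Agent.J6H26.FR Filter Topology

variable {E : Type*} [NormedAddCommGroup E] [NormedSpace ℝ E]

/-- isometries close to the identity on a finite set are close to the identity on the image of a
compact operator -/
lemma net {K : E →L[ℝ] E} (hK : IsCompactOperator K) {α : ℝ} (hα : 0 < α) :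
    ∃ F : Finset E, ∀ k : E ≃ₗᵢ[ℝ] E, (∀ x ∈ F, ‖k x - x‖ < α) → ‖(op k - 1) * K‖ ≤ 3 * α := by
  have hK' : IsCompactOperator (K : E →ₗ[ℝ] E) := hK
  obtain ⟨C, hC, hsub⟩ := hK'.image_closedBall_subset_compact (1 : ℝ)
  obtain ⟨t, -, htf, hcov⟩ := hC.finite_cover_balls hα
  refine ⟨htf.toFinset, fun k hk => ?_⟩
  refine ContinuousLinearMap.opNorm_le_of_unit_norm (by positivity) fun x hx => ?_
  have hmem : K x ∈ C := hsub ⟨x, by rw [mem_closedBall_zero_iff, hx], rfl⟩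
  obtain ⟨y, hy, hxy⟩ := Set.mem_iUnion₂.1 (hcov hmem)
  rw [Metric.mem_ball, dist_eq_norm] at hxy
  have h1 := hk y (htf.mem_toFinset.2 hy)
  show ‖k (K x) - K x‖ ≤ 3 * α
  have e : k (K x) - K x = k (K x - y) + (k y - y) - (K x - y) := by
    rw [map_sub]; abel
  rw [e]
  refine (norm_sub_le _ _).trans ?_
  have h2 := norm_add_le (k (K x - y)) (k y - y)
  rw [k.norm_map] at h2
  linarith

lemma op_sub_le (S : E ≃ₗᵢ[ℝ] E) : ‖op S - 1‖ ≤ 2 := by
  refine (norm_sub_le _ _).trans ?_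
  have := op_norm_le S
  have := norm_one_le (E := E)
  linarith

/-- **Continuity.** The commutator of an isometry `k` near the identity in the strong topology with
a compact perturbation of the identity is near the identity in norm. -/
theorem cont_lemma {T : E ≃ₗᵢ[ℝ] E} (hT : Cpt T) {ε : ℝ} (hε : 0 < ε) :
    ∃ (F : Finset E) (δ : ℝ), 0 < δ ∧ ∀ k : E ≃ₗᵢ[ℝ] E, (∀ x ∈ F, ‖k x - x‖ < δ) →
      ‖op (k * T * k⁻¹ * T⁻¹) - 1‖ < ε := by
  classical
  obtain ⟨N, hN⟩ := exists_nat_gt (4 / ε)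
  have hN0 : (0 : ℝ) < N := lt_trans (by positivity) hN
  have hNε : 4 < (N : ℝ) * ε := by rwa [div_lt_iff₀ hε] at hN
  set α : ℝ := ε / (60 * N) with hα
  have hα0 : 0 < α := by positivity
  set K : E →L[ℝ] E := op T - 1 with hK
  obtain ⟨F₁, hF₁⟩ := net (K := K) hT.isC hα0
  obtain ⟨F₂, hF₂⟩ := net (K := op T⁻¹ * K) (isComp_mul_left hT.isC _) hα0
  refine ⟨F₁ ∪ F₂, α, hα0, fun k hk => ?_⟩
  have h1 := hF₁ k fun x hx => hk x (Finset.mem_union_left _ hx)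
  have h2 := hF₂ k fun x hx => hk x (Finset.mem_union_right _ hx)
  set S : E ≃ₗᵢ[ℝ] E := k * T * k⁻¹ * T⁻¹ with hS
  set A : E →L[ℝ] E := (op k - 1) * K * (op k⁻¹ * op T⁻¹) with hA
  set B : E →L[ℝ] E := K * ((op k⁻¹ - 1) * op T⁻¹) with hB
  have hTK : op T = 1 + K := by rw [hK]; abel
  have hAB : op S - 1 = A + B := by
    have e1 : op S = op k * op T * op k⁻¹ * op T⁻¹ := by rw [hS, op_mul, op_mul, op_mul]
    have e2 : (1 : E →L[ℝ] E) = (1 + K) * op T⁻¹ := by rw [← hTK, op_mul_inv]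
    have e3 : op k * (1 + K) * op k⁻¹ = 1 + op k * K * op k⁻¹ := by
      rw [mul_add, add_mul, mul_one, op_mul_inv]
    rw [e1, hTK, e3]
    nth_rw 2 [e2]
    rw [hA, hB]
    simp only [add_mul, sub_mul, mul_sub, one_mul, mul_assoc]
    abel
  have hA1 : ‖A‖ ≤ 3 * α := by
    rw [hA, ← op_mul, norm_mul_op]
    exact h1
  have hK2 : ‖K‖ ≤ 2 := op_sub_le T
  have hB1 : ‖B‖ ≤ 4 := by
    rw [hB]
    refine (norm_mul_le _ _).trans ?_
    rw [norm_mul_op]
    have := op_sub_le k⁻¹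
    calc ‖K‖ * ‖op k⁻¹ - 1‖ ≤ 2 * 2 := by gcongr
      _ = 4 := by norm_num
  have hBB : ‖B * B‖ ≤ 12 * α := by
    have e : B * B = K * (((op k⁻¹ - 1) * (op T⁻¹ * K)) * ((op k⁻¹ - 1) * op T⁻¹)) := by
      rw [hB]; simp only [mul_assoc]
    rw [e]
    refine (norm_mul_le _ _).trans ?_
    have h3 : ‖(op k⁻¹ - 1) * (op T⁻¹ * K)‖ ≤ 3 * α := by
      have e2 : op k⁻¹ - 1 = -(op k⁻¹ * (op k - 1)) := by
        rw [mul_sub, op_inv_mul, mul_one]; abel
      rw [e2, neg_mul, norm_neg, mul_assoc, norm_op_mul]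
      exact h2
    have h4 : ‖(op k⁻¹ - 1) * op T⁻¹‖ ≤ 2 := by
      rw [norm_mul_op]; exact op_sub_le _
    have h5 := norm_mul_le ((op k⁻¹ - 1) * (op T⁻¹ * K)) ((op k⁻¹ - 1) * op T⁻¹)
    have h6 : ‖(op k⁻¹ - 1) * (op T⁻¹ * K)‖ * ‖(op k⁻¹ - 1) * op T⁻¹‖ ≤ 3 * α * 2 := by gcongr
    calc ‖K‖ * ‖((op k⁻¹ - 1) * (op T⁻¹ * K)) * ((op k⁻¹ - 1) * op T⁻¹)‖ ≤ 2 * (3 * α * 2) := by
          gcongr
          exact h5.trans h6
      _ = 12 * α := by ring
  have hsq : ‖(op S - 1) * (op S - 1)‖ ≤ 30 * α := by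
    have e : (op S - 1) * (op S - 1) = A * (op S - 1) + B * A + B * B := by
      nth_rw 1 [hAB]
      rw [add_mul]
      nth_rw 2 [hAB]
      rw [mul_add]
      abel
    rw [e]
    refine (norm_add₃_le).trans ?_
    have h3 : ‖A * (op S - 1)‖ ≤ 3 * α * 2 := by
      refine (norm_mul_le _ _).trans ?_
      have := op_sub_le S
      gcongr
    have h4 : ‖B * A‖ ≤ 4 * (3 * α) := by
      refine (norm_mul_le _ _).trans ?_
      gcongr
    linarith
  have h3 := near_of_sq S N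
  have h4 : (N : ℝ) ^ 2 / 2 * ‖(op S - 1) * (op S - 1)‖ ≤ N * ε / 4 := by
    calc (N : ℝ) ^ 2 / 2 * ‖(op S - 1) * (op S - 1)‖ ≤ (N : ℝ) ^ 2 / 2 * (30 * α) := by gcongr
      _ = N * ε / 4 := by rw [hα]; field_simp; norm_num
  have h5 : (N : ℝ) * ‖op S - 1‖ < N * ε := by linarith
  exact lt_of_mul_lt_mul_left h5 hN0.le

variable [CompleteSpace E]

/-- a separable transitive space with isolated compact perturbations of the identity -/
theorem false_of_isolated' [TopologicalSpace.SeparableSpace E] (hE : ¬ FiniteDimensional ℝ E)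
    (htr : ∀ x y : E, ‖x‖ = 1 → ‖y‖ = 1 → ∃ g : E ≃ₗᵢ[ℝ] E, g x = y)
    {T : E ≃ₗᵢ[ℝ] E} (hT : Cpt T) (hT1 : T ≠ 1)
    (hiso : ∀ S : E ≃ₗᵢ[ℝ] E, Cpt S → ‖op S - 1‖ < 1 / 2 → S = 1) : False := by
  classical
  obtain ⟨W, h, hW, hh, hWh, hbi⟩ := exists_win hT hT1
  obtain ⟨F, δ, hδ, hF⟩ := cont_lemma hT (ε := 1 / 2) (by norm_num)
  set V : Submodule ℝ E := LinearMap.range (W : E →ₗ[ℝ] E) with hV
  have hVf : FiniteDimensional ℝ V := hW
  have hk : ∀ k : E ≃ₗᵢ[ℝ] E, (∀ x ∈ F, ‖k x - x‖ < δ) → k h ∈ V := by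
    intro k hk
    have hS : Cpt (k * T * k⁻¹ * T⁻¹) := (hT.conj k).mul hT.inv
    have h1 := hiso _ hS (hF k hk)
    have h2 : k * T = T * k := by
      have := congrArg (fun z => z * T * k) h1
      simpa [mul_assoc] using this
    have h3 : op k * op T = op T * op k := by rw [← op_mul, ← op_mul, h2]
    have h4 := hbi _ h3
    refine ⟨k h, ?_⟩
    have h5 := congrArg (fun A : E →L[ℝ] E => A h) h4
    have h6 : op k (W h) = W (op k h) := h5
    rw [hWh] at h6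
    exact h6.symm
  -- a countable dense set in the orbit of the tuple
  let Φ : (E ≃ₗᵢ[ℝ] E) → (F → E) := fun g x => g x
  obtain ⟨D, hDc, hDd⟩ := TopologicalSpace.exists_countable_dense (Set.range Φ)
  have hDc' : Countable D := hDc.to_subtype
  have hgd : ∀ d : D, ∃ g : E ≃ₗᵢ[ℝ] E, Φ g = (d : Set.range Φ) := fun d => (d : Set.range Φ).2
  choose γ hγ using hgd
  let f : D → Set E := fun d => ((V.map ((γ d).toLinearEquiv : E →ₗ[ℝ] E) : Submodule ℝ E) : Set E)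
  have hfin : ∀ d, FiniteDimensional ℝ (V.map ((γ d).toLinearEquiv : E →ₗ[ℝ] E) : Submodule ℝ E) :=
    fun d => inferInstance
  have hcl : ∀ d, IsClosed (f d) := fun d => by
    have := hfin d
    exact Submodule.closed_of_finiteDimensional _
  have hnear : ∀ g : E ≃ₗᵢ[ℝ] E, ∃ d : D, ∀ x ∈ F, ‖g x - γ d x‖ < δ := by
    intro g
    obtain ⟨d, hd, hdist⟩ := Metric.mem_closure_iff.1 (hDd ⟨Φ g, g, rfl⟩) δ hδ
    refine ⟨⟨d, hd⟩, fun x hx => ?_⟩
    have h1 : dist (Φ g) (d : F → E) < δ := hdist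
    rw [← hγ ⟨d, hd⟩, dist_pi_lt_iff hδ] at h1
    have h2 := h1 ⟨x, hx⟩
    rw [dist_eq_norm] at h2
    exact h2
  have hU : (⋃ d, f d) = Set.univ := by
    refine Set.eq_univ_of_forall fun y => ?_
    rw [Set.mem_iUnion]
    by_cases hy : y = 0
    · obtain ⟨d, -⟩ := hnear 1
      exact ⟨d, by rw [hy]; exact Submodule.zero_mem _⟩
    have hn : ‖y‖ ≠ 0 := norm_ne_zero_iff.2 hy
    obtain ⟨g, hg⟩ := htr h (‖y‖⁻¹ • y) hh (by rw [norm_smul, norm_inv, norm_norm,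
      inv_mul_cancel₀ hn])
    obtain ⟨d, hd⟩ := hnear g
    refine ⟨d, ?_⟩
    have h1 : ((γ d)⁻¹ * g) h ∈ V := by
      apply hk
      intro x hx
      have h2 := hd x hx
      have h3 : ((γ d)⁻¹ * g) x - x = (γ d)⁻¹ (g x - γ d x) := by
        rw [map_sub]
        congr 1
        exact ((γ d).symm_apply_apply x).symm
      rw [h3, (γ d)⁻¹.norm_map]
      exact h2
    have h4 : y = ‖y‖ • (γ d (((γ d)⁻¹ * g) h)) := by
      have : γ d (((γ d)⁻¹ * g) h) = g h := (γ d).apply_symm_apply (g h)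
      rw [this, hg, smul_smul, mul_inv_cancel₀ hn, one_smul]
    show y ∈ V.map ((γ d).toLinearEquiv : E →ₗ[ℝ] E)
    rw [h4]
    exact Submodule.smul_mem _ _ ⟨_, h1, rfl⟩
  obtain ⟨d, hd⟩ := nonempty_interior_of_iUnion_of_closed hcl hU
  have htop := Submodule.eq_top_of_nonempty_interior' _ hd
  apply hE
  have h1 := hfin d
  rw [htop] at h1
  exact Module.Finite.equiv (Submodule.topEquiv (R := ℝ) (M := E))

/-- **Theorem B.** A separable transitive space with a nontrivial isometry which is a compact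
perturbation of the identity is a Hilbert space. -/
theorem para_sep [TopologicalSpace.SeparableSpace E]
    (htr : ∀ x y : E, ‖x‖ = 1 → ‖y‖ = 1 → ∃ g : E ≃ₗᵢ[ℝ] E, g x = y)
    {T : E ≃ₗᵢ[ℝ] E} (hT : Cpt T) (hT1 : T ≠ 1) (x y : E) :
    ‖x + y‖ ^ 2 + ‖x - y‖ ^ 2 = 2 * (‖x‖ ^ 2 + ‖y‖ ^ 2) := by
  have hG : AT (⊤ : Subgroup (E ≃ₗᵢ[ℝ] E)) := by
    intro x y hx hy ε hε
    obtain ⟨g, hg⟩ := htr x y hx hy
    exact ⟨g, trivial, by rw [hg, sub_self, norm_zero]; exact hε⟩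
  by_cases hE : FiniteDimensional ℝ E
  · exact para_fin hG x y
  by_cases hS : ∃ S : E ≃ₗᵢ[ℝ] E, Cpt S ∧ S ≠ 1 ∧ ‖op S - 1‖ < 1 / 2
  · obtain ⟨S, hS, hS1, hSn⟩ := hS
    exact para_small hG hS hS1 hSn x y
  · exfalso
    refine false_of_isolated' hE htr hT hT1 fun S hSc hSn => ?_
    by_contra hne
    exact hS ⟨S, hSc, hne, hSn⟩

end Pool.Agent.J6H26.CP
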