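import Pool.Agent.J6H26.CP.Ap

/-! # Commutators of isolated compact perturbations of the identity -/

set_option autoImplicit false

namespace Pool.Agent.J6H26.CP

open Pool.Agent.J6H26.FR Filter Topology

variable {E : Type*} [NormedAddCommGroup E] [NormedSpace ℝ E] [CompleteSpace E]

/-- compact perturbations of the identity are isolated -/
def Gap (E : Type*) [NormedAddCommGroup E] [NormedSpace ℝ E] (δ : ℝ) : Prop :=
  ∀ S : E ≃ₗᵢ[ℝ] E, Cpt S → ‖op S - 1‖ < δ → S = 1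

variable {Δ : Subgroup (E ≃ₗᵢ[ℝ] E)} {δ : ℝ}

lemma pair_comm (hδ : 0 < δ) (hgap : Gap E δ) (hQ : QC Δ) (γ : ℕ → E ≃ₗᵢ[ℝ] E)
    (hγ : ∀ i, γ i ∈ Δ) {S R : E ≃ₗᵢ[ℝ] E} (hS : Cpt S) (hR : Cpt R) :
    ∃ i j, i < j ∧ (γ i)⁻¹ * γ j * S = S * ((γ i)⁻¹ * γ j) ∧
      (γ i)⁻¹ * γ j * R = R * ((γ i)⁻¹ * γ j) := by
  classical
  obtain ⟨F₁, δ₁, hδ₁, hF₁⟩ := weak_comm hS hδ
  obtain ⟨F₂, δ₂, hδ₂, hF₂⟩ := weak_comm hR hδ
  let 𝒬 : Finset (E →L[ℝ] E) := {op S - 1, op S⁻¹ - 1, op R - 1, op R⁻¹ - 1}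
  have h𝒬 : ∀ M ∈ 𝒬, IsCompactOperator M := by
    intro M hM
    simp only [𝒬, Finset.mem_insert, Finset.mem_singleton] at hM
    rcases hM with rfl | rfl | rfl | rfl
    · exact hS.isC
    · exact hS.inv.isC
    · exact hR.isC
    · exact hR.inv.isC
  obtain ⟨i, j, hij, h⟩ := pigeon hQ γ hγ (F₁ ∪ F₂) 𝒬 h𝒬 (ε := min δ₁ δ₂) (lt_min hδ₁ hδ₂)
  refine ⟨i, j, hij, ?_⟩
  set b : E ≃ₗᵢ[ℝ] E := (γ i)⁻¹ * γ j with hb
  have hbi : (γ j)⁻¹ * γ i = b⁻¹ := by rw [hb]; group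
  rw [hbi] at h
  have key : ∀ T : E ≃ₗᵢ[ℝ] E, Cpt T → ‖op (b * T * b⁻¹ * T⁻¹) - 1‖ < δ → b * T = T * b := by
    intro T hT hlt
    have h1 := hgap _ ((hT.conj b).mul hT.inv) hlt
    have := congrArg (fun z => z * T * b) h1
    simpa [mul_assoc] using this
  constructor
  · apply key S hS
    apply hF₁
    intro x hx
    have hx' : x ∈ F₁ ∪ F₂ := Finset.mem_union_left _ hx
    refine ⟨?_, ?_, ?_⟩
    · exact (h x hx' (op S - 1) (by simp [𝒬])).1.trans_le (min_le_left _ _)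
    · exact (h x hx' (op S - 1) (by simp [𝒬])).2.trans_le (min_le_left _ _)
    · exact (h x hx' (op S⁻¹ - 1) (by simp [𝒬])).1.trans_le (min_le_left _ _)
  · apply key R hR
    apply hF₂
    intro x hx
    have hx' : x ∈ F₁ ∪ F₂ := Finset.mem_union_right _ hx
    refine ⟨?_, ?_, ?_⟩
    · exact (h x hx' (op R - 1) (by simp [𝒬])).1.trans_le (min_le_right _ _)
    · exact (h x hx' (op R - 1) (by simp [𝒬])).2.trans_le (min_le_right _ _)
    · exact (h x hx' (op R⁻¹ - 1) (by simp [𝒬])).1.trans_le (min_le_right _ _)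

lemma QC_zpowers {S : E ≃ₗᵢ[ℝ] E} (hS : Cpt S) : QC (Subgroup.zpowers S) := by
  intro x
  refine ⟨{pi _ x}, isCompact_singleton, ?_⟩
  intro g hg
  have hgc : Cpt g := by
    obtain ⟨n, rfl⟩ := Subgroup.mem_zpowers_iff.1 hg
    exact hS.zpow n
  have hmem : (op g - 1) x ∈ AP (Subgroup.zpowers S) := by
    refine AP_of_comm hgc.isC (fun k hk y => ?_) x
    show k (g y - y) = g (k y) - k y
    rw [map_sub]
    congr 1
    have hc : k * g = g * k := by
      obtain ⟨n, rfl⟩ := Subgroup.mem_zpowers_iff.1 hg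
      obtain ⟨m, rfl⟩ := Subgroup.mem_zpowers_iff.1 hk
      rw [← zpow_add, ← zpow_add, add_comm]
    exact congrArg (fun z : E ≃ₗᵢ[ℝ] E => z y) hc
  rw [Set.mem_singleton_iff, ← sub_eq_zero, ← map_sub, pi_eq_zero]
  exact hmem

/-- a power commutes -/
theorem pow_comm (hδ : 0 < δ) (hgap : Gap E δ) {S R : E ≃ₗᵢ[ℝ] E} (hS : Cpt S) (hR : Cpt R) :
    ∃ k : ℕ, 0 < k ∧ S ^ k * R = R * S ^ k := by
  obtain ⟨i, j, hij, -, h⟩ := pair_comm hδ hgap (QC_zpowers hS) (fun i => S ^ i)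
    (fun i => Subgroup.npow_mem_zpowers S i) hS hR
  have e : (S ^ i)⁻¹ * S ^ j = S ^ (j - i) := by
    rw [pow_sub S hij.le]
    have : S ^ j * (S ^ i)⁻¹ = (S ^ i)⁻¹ * S ^ j := by
      rw [← zpow_natCast, ← zpow_natCast, ← zpow_neg, ← zpow_add, ← zpow_add, add_comm]
    exact this.symm
  simp only [e] at h
  exact ⟨j - i, by omega, h⟩

/-- the sum of the differences -/
noncomputable def cs (S : E ≃ₗᵢ[ℝ] E) (k : ℕ) : E →L[ℝ] E := ∑ i ∈ Finset.range k, (op (S ^ i) - 1)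

omit [CompleteSpace E] in
lemma cs_compact {S : E ≃ₗᵢ[ℝ] E} (hS : Cpt S) (k : ℕ) : IsCompactOperator (cs S k) := by
  have h : cs S k ∈ compactOperator (RingHom.id ℝ) E E := by
    refine Submodule.sum_mem _ fun i _ => ?_
    have := (hS.zpow i).isC
    rw [zpow_natCast] at this
    exact this
  exact h

omit [CompleteSpace E] in
lemma op_pow (S : E ≃ₗᵢ[ℝ] E) (k : ℕ) : op (S ^ k) = op S ^ k := by
  induction k with
  | zero => rw [pow_zero, pow_zero, op_one]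
  | succ k ih => rw [pow_succ, pow_succ, op_mul, ih]

omit [CompleteSpace E] in
lemma cs_mul (S : E ≃ₗᵢ[ℝ] E) (k : ℕ) :
    cs S k * (op S - 1) + (k : ℝ) • (op S - 1) = op (S ^ k) - 1 := by
  have h1 : (∑ i ∈ Finset.range k, op S ^ i) * (op S - 1) = op S ^ k - 1 := geom_sum_mul _ _
  have h2 : cs S k = (∑ i ∈ Finset.range k, op S ^ i) - (k : ℝ) • (1 : E →L[ℝ] E) := by
    unfold cs
    rw [Finset.sum_sub_distrib]
    congr 1
    · exact Finset.sum_congr rfl fun i _ => op_pow S i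
    · rw [Finset.sum_const, Finset.card_range, Nat.cast_smul_eq_nsmul]
  rw [h2, sub_mul, h1, smul_mul_assoc, one_mul, sub_add_cancel, op_pow]

/-- the induced operator on the quotient -/
theorem exists_qop (K : E →L[ℝ] E) (hK : ∀ x ∈ AP Δ, K x ∈ AP Δ) :
    ∃ U : QQ Δ →L[ℝ] QQ Δ, ∀ x, U (pi Δ x) = pi Δ (K x) := by
  let g : QQ Δ →ₗ[ℝ] QQ Δ := (AP Δ).mapQ (AP Δ) (K : E →ₗ[ℝ] E) hK
  have hg : ∀ x, g (pi Δ x) = pi Δ (K x) := fun x => rfl
  refine ⟨g.mkContinuous ‖K‖ fun X => ?_, fun x => hg x⟩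
  refine le_of_forall_pos_lt_add fun ε hε => ?_
  obtain ⟨m, hm, hmn⟩ := exists_rep X (ε := ε / (‖K‖ + 1)) (by positivity)
  rw [← hm, hg, hm]
  refine lt_of_le_of_lt (pi_norm_le _) ?_
  refine lt_of_le_of_lt (K.le_opNorm m) ?_
  have h1 : ‖K‖ * ‖m‖ ≤ ‖K‖ * (‖X‖ + ε / (‖K‖ + 1)) := by gcongr
  refine lt_of_le_of_lt h1 ?_
  rw [mul_add]
  have h2 : ‖K‖ * (ε / (‖K‖ + 1)) < ε := by
    rw [← mul_div_assoc, div_lt_iff₀ (by positivity)]
    nlinarith [norm_nonneg K]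
  linarith

lemma qop_compact {K : E →L[ℝ] E} (hK : IsCompactOperator K) {U : QQ Δ →L[ℝ] QQ Δ}
    (hU : ∀ x, U (pi Δ x) = pi Δ (K x)) : IsCompactOperator U := by
  have hK' : IsCompactOperator (K : E →ₗ[ℝ] E) := hK
  obtain ⟨C, hC, hsub⟩ := hK'.image_closedBall_subset_compact (2 : ℝ)
  have h1 : IsCompactOperator (U : QQ Δ →ₗ[ℝ] QQ Δ) := by
    rw [isCompactOperator_iff_image_closedBall_subset_compact _ (one_pos)]
    refine ⟨pi Δ '' C, hC.image pi_cont, ?_⟩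
    rintro _ ⟨X, hX, rfl⟩
    rw [mem_closedBall_zero_iff] at hX
    obtain ⟨x, hx, hxn⟩ := exists_rep X one_pos
    refine ⟨K x, hsub ⟨x, ?_, rfl⟩, ?_⟩
    · rw [mem_closedBall_zero_iff]; linarith
    · show pi Δ (K x) = U X
      rw [← hx, hU]
  exact h1

/-- the range of `S - 1` in the quotient is finite-dimensional if `S ^ k` is trivial there -/
lemma fin_quot {S : E ≃ₗᵢ[ℝ] E} (hS : Cpt S) (hSΔ : S ∈ Δ) {k : ℕ} (hk : 0 < k)
    (h : ∀ x, (op (S ^ k) - 1) x ∈ AP Δ) :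
    FiniteDimensional ℝ (LinearMap.range ((pi Δ).comp ((op S - 1 : E →L[ℝ] E) : E →ₗ[ℝ] E))) := by
  have hk0 : (k : ℝ) ≠ 0 := by exact_mod_cast hk.ne'
  have hinv : ∀ x ∈ AP Δ, (-(k : ℝ)⁻¹ • cs S k) x ∈ AP Δ := by
    intro x hx
    show -(k : ℝ)⁻¹ • (cs S k x) ∈ AP Δ
    apply Submodule.smul_mem
    unfold cs
    rw [ContinuousLinearMap.sum_apply]
    refine Submodule.sum_mem _ fun i _ => ?_
    exact Submodule.sub_mem _ (AP_inv (Δ.pow_mem hSΔ i) hx) hx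
  obtain ⟨U, hU⟩ := exists_qop _ hinv
  have hc : IsCompactOperator U := by
    refine qop_compact (K := -(k : ℝ)⁻¹ • cs S k) ?_ hU
    have := (cs_compact hS k).smul (-(k : ℝ)⁻¹)
    exact this
  refine finite_fix hc ?_
  rintro _ ⟨x, rfl⟩
  show U (pi Δ ((op S - 1) x)) = pi Δ ((op S - 1) x)
  rw [hU, ← sub_eq_zero, ← map_sub, pi_eq_zero]
  have h1 := congrArg (fun A : E →L[ℝ] E => A x) (cs_mul S k)
  have h2 : cs S k ((op S - 1) x) + (k : ℝ) • ((op S - 1) x) = (op (S ^ k) - 1) x := h1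
  have h3 : (-(k : ℝ)⁻¹ • cs S k) ((op S - 1) x) - (op S - 1) x =
      -(k : ℝ)⁻¹ • ((op (S ^ k) - 1) x) := by
    rw [← h2, smul_add, smul_smul]
    have : -(k : ℝ)⁻¹ * k = -1 := by rw [neg_mul, inv_mul_cancel₀ hk0]
    rw [this, neg_one_smul]
    show -(k : ℝ)⁻¹ • (cs S k ((op S - 1) x)) - (op S - 1) x = _
    abel
  rw [h3]
  exact Submodule.smul_mem _ _ (h x)

/-- torsion gives finite rank -/
lemma finR_of_torsion {c : E ≃ₗᵢ[ℝ] E} (hc : Cpt c) {n : ℕ} (hn : 0 < n) (h : c ^ n = 1) :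
    FinR c.toContinuousLinearEquiv := by
  have hn0 : (n : ℝ) ≠ 0 := by exact_mod_cast hn.ne'
  have hcc : IsCompactOperator (-(n : ℝ)⁻¹ • cs c n : E →L[ℝ] E) := by
    have := (cs_compact hc n).smul (-(n : ℝ)⁻¹)
    exact this
  have hfin : FiniteDimensional ℝ (LinearMap.range ((op c - 1 : E →L[ℝ] E) : E →ₗ[ℝ] E)) := by
    refine finite_fix hcc ?_
    rintro _ ⟨x, rfl⟩
    have h1 := congrArg (fun A : E →L[ℝ] E => A x) (cs_mul c n)
    have h2 : cs c n ((op c - 1) x) + (n : ℝ) • ((op c - 1) x) = (op (c ^ n) - 1) x := h1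
    rw [h, op_one, sub_self] at h2
    have h3 : cs c n ((op c - 1) x) = -((n : ℝ) • ((op c - 1) x)) := eq_neg_of_add_eq_zero_left h2
    show -(n : ℝ)⁻¹ • (cs c n ((op c - 1) x)) = (op c - 1) x
    rw [h3, smul_neg, neg_smul, neg_neg, smul_smul, inv_mul_cancel₀ hn0, one_smul]
  exact hfin

omit [CompleteSpace E] in
lemma comm_closure {A S R : E ≃ₗᵢ[ℝ] E} (h1 : A * S = S * A) (h2 : A * R = R * A) :
    ∀ g ∈ Subgroup.closure {S, R}, g * A = A * g := by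
  intro g hg
  have hle : Subgroup.closure {S, R} ≤ Subgroup.centralizer {A} := by
    rw [Subgroup.closure_le]
    rintro z hz
    simp only [Set.mem_insert_iff, Set.mem_singleton_iff] at hz
    rw [SetLike.mem_coe, Subgroup.mem_centralizer_singleton_iff]
    rcases hz with rfl | rfl
    · first | exact h1 | exact h1.symm
    · first | exact h2 | exact h2.symm
  have := Subgroup.mem_centralizer_singleton_iff.1 (hle hg)
  first | exact this | exact this.symm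

/-- the pigeonhole principle applies to the group generated by two elements -/
lemma QC_pair {S R : E ≃ₗᵢ[ℝ] E} (hS : Cpt S) (hR : Cpt R) {k l : ℕ} (hk : 0 < k) (hl : 0 < l)
    (hkR : S ^ k * R = R * S ^ k) (hlS : R ^ l * S = S * R ^ l) :
    QC (Subgroup.closure {S, R}) := by
  set Δ : Subgroup (E ≃ₗᵢ[ℝ] E) := Subgroup.closure {S, R} with hΔ
  have hSΔ : S ∈ Δ := Subgroup.subset_closure (by simp)
  have hRΔ : R ∈ Δ := Subgroup.subset_closure (by simp)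
  have hcen : ∀ A : E ≃ₗᵢ[ℝ] E, A * S = S * A → A * R = R * A → ∀ g ∈ Δ, g * A = A * g :=
    fun A h1 h2 => comm_closure h1 h2
  have hAP : ∀ A : E ≃ₗᵢ[ℝ] E, Cpt A → (∀ g ∈ Δ, g * A = A * g) → ∀ x, (op A - 1) x ∈ AP Δ := by
    intro A hA hc x
    refine AP_of_comm hA.isC (fun g hg y => ?_) x
    show g (A y - y) = A (g y) - g y
    rw [map_sub]
    congr 1
    exact congrArg (fun z : E ≃ₗᵢ[ℝ] E => z y) (hc g hg)
  have h1 := hAP (S ^ k) (by rw [← zpow_natCast]; exact hS.zpow k)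
    (hcen _ (by rw [← pow_succ, ← pow_succ']) hkR)
  have h2 := hAP (R ^ l) (by rw [← zpow_natCast]; exact hR.zpow l)
    (hcen _ hlS (by rw [← pow_succ, ← pow_succ']))
  have f1 := fin_quot hS hSΔ hk h1
  have f2 := fin_quot hR hRΔ hl h2
  set V : Submodule ℝ (QQ Δ) :=
    LinearMap.range ((pi Δ).comp ((op S - 1 : E →L[ℝ] E) : E →ₗ[ℝ] E)) ⊔
    LinearMap.range ((pi Δ).comp ((op R - 1 : E →L[ℝ] E) : E →ₗ[ℝ] E)) with hV
  have hVf : FiniteDimensional ℝ V := inferInstance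
  let Λ : Subgroup (E ≃ₗᵢ[ℝ] E) :=
    { carrier := {g | ∀ x, pi Δ (g x - x) ∈ V}
      mul_mem' := by
        intro a b ha hb x
        have e : pi Δ ((a * b) x - x) = pi Δ (a (b x) - b x) + pi Δ (b x - x) := by
          rw [← map_add]
          congr 1
          show a (b x) - x = _
          abel
        rw [e]
        exact V.add_mem (ha _) (hb x)
      one_mem' := by
        intro x
        have : pi Δ ((1 : E ≃ₗᵢ[ℝ] E) x - x) = 0 := by
          show pi Δ (x - x) = 0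
          rw [sub_self, map_zero]
        rw [this]; exact V.zero_mem
      inv_mem' := by
        intro a ha x
        have e : pi Δ (a⁻¹ x - x) = -pi Δ (a (a⁻¹ x) - a⁻¹ x) := by
          rw [← map_neg]
          congr 1
          have : a (a⁻¹ x) = x := a.apply_symm_apply x
          rw [this]; abel
        rw [e]
        exact V.neg_mem (ha _) }
  have hle : Δ ≤ Λ := by
    rw [hΔ, Subgroup.closure_le]
    rintro z hz
    simp only [Set.mem_insert_iff, Set.mem_singleton_iff] at hz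
    rcases hz with rfl | rfl
    · intro x
      exact Submodule.mem_sup_left ⟨x, rfl⟩
    · intro x
      exact Submodule.mem_sup_right ⟨x, rfl⟩
  intro x
  refine ⟨(fun v : V => pi Δ x + (v : QQ Δ)) '' Metric.closedBall (0 : V) (2 * ‖x‖),
    (isCompact_closedBall _ _).image
      (show Continuous fun v : V => pi Δ x + (v : QQ Δ) from by fun_prop), ?_⟩
  intro g hg
  refine ⟨⟨pi Δ (g x - x), hle hg x⟩, ?_, ?_⟩
  · rw [mem_closedBall_zero_iff]
    show ‖pi Δ (g x - x)‖ ≤ 2 * ‖x‖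
    refine (pi_norm_le _).trans ((norm_sub_le _ _).trans ?_)
    rw [g.norm_map]; linarith
  · show pi Δ x + pi Δ (g x - x) = pi Δ (g x)
    rw [← map_add]
    congr 1
    abel

/-- **Commutators of isolated compact perturbations of the identity are torsion.** -/
theorem comm_torsion (hδ : 0 < δ) (hgap : Gap E δ) {S R : E ≃ₗᵢ[ℝ] E} (hS : Cpt S) (hR : Cpt R) :
    ∃ n : ℕ, 0 < n ∧ (S * R * S⁻¹ * R⁻¹) ^ n = 1 := by
  obtain ⟨k, hk, hkR⟩ := pow_comm hδ hgap hS hR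
  obtain ⟨l, hl, hlS⟩ := pow_comm hδ hgap hR hS
  have hQ := QC_pair hS hR hk hl hkR hlS
  set Δ : Subgroup (E ≃ₗᵢ[ℝ] E) := Subgroup.closure {S, R} with hΔ
  have hSΔ : S ∈ Δ := Subgroup.subset_closure (by simp)
  have hRΔ : R ∈ Δ := Subgroup.subset_closure (by simp)
  have hfi : (Subgroup.center Δ).FiniteIndex := by
    by_contra hcon
    have hinf : Infinite (Δ ⧸ Subgroup.center Δ) := by
      by_contra hfin
      rw [not_infinite_iff_finite] at hfin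
      exact hcon (Subgroup.finiteIndex_of_finite_quotient)
    let e : ℕ ↪ Δ ⧸ Subgroup.center Δ := Infinite.natEmbedding _
    let γ : ℕ → Δ := fun i => (e i).out
    obtain ⟨i, j, hij, h1, h2⟩ := pair_comm hδ hgap hQ (fun i => (γ i : E ≃ₗᵢ[ℝ] E))
      (fun i => (γ i).2) hS hR
    have hmem : (γ i)⁻¹ * γ j ∈ Subgroup.center Δ := by
      rw [Subgroup.mem_center_iff]
      intro g
      exact Subtype.ext (comm_closure h1 h2 g g.2)
    have h4 : e i = e j := by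
      have h5 : ((γ i : Δ) : Δ ⧸ Subgroup.center Δ) = ((γ j : Δ) : Δ ⧸ Subgroup.center Δ) :=
        QuotientGroup.eq.2 hmem
      have h6 : ((γ i : Δ) : Δ ⧸ Subgroup.center Δ) = e i := Quotient.out_eq' _
      have h7 : ((γ j : Δ) : Δ ⧸ Subgroup.center Δ) = e j := Quotient.out_eq' _
      rw [← h6, ← h7, h5]
    exact hij.ne (e.injective h4)
  refine ⟨(Subgroup.center Δ).index, Nat.pos_of_ne_zero hfi.index_ne_zero, ?_⟩
  let S' : Δ := ⟨S, hSΔ⟩
  let R' : Δ := ⟨R, hRΔ⟩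
  have h1 : MonoidHom.transferCenterPow Δ (S' * R' * S'⁻¹ * R'⁻¹) = 1 := by
    have hc : ∀ a b : Subgroup.center Δ, a * b = b * a := fun a b =>
      Subtype.ext (Subgroup.mem_center_iff.1 b.2 a)
    rw [map_mul, map_mul, map_mul, map_inv, map_inv, hc (MonoidHom.transferCenterPow Δ S'),
      mul_assoc (MonoidHom.transferCenterPow Δ R'), mul_inv_cancel, mul_one, mul_inv_cancel]
  have h2 := MonoidHom.transferCenterPow_apply (S' * R' * S'⁻¹ * R'⁻¹)
  rw [h1] at h2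
  have h3 := congrArg (fun z : Δ => (z : E ≃ₗᵢ[ℝ] E)) h2
  simp only [Subgroup.coe_one, Subgroup.coe_pow] at h3
  exact h3.symm

/-- the conclusion when the compact perturbations of the identity are isolated -/
theorem para_isolated (hE : ¬ FiniteDimensional ℝ E) {G : Subgroup (E ≃ₗᵢ[ℝ] E)} (hG : AT G)
    (hδ : 0 < δ) (hgap : Gap E δ) {T : E ≃ₗᵢ[ℝ] E} (hT : Cpt T) (hT1 : T ≠ 1) (x y : E) :
    ‖x + y‖ ^ 2 + ‖x - y‖ ^ 2 = 2 * (‖x‖ ^ 2 + ‖y‖ ^ 2) := by
  by_cases htor : ∃ c : E ≃ₗᵢ[ℝ] E, Cpt c ∧ c ≠ 1 ∧ ∃ n : ℕ, 0 < n ∧ c ^ n = 1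
  · obtain ⟨c, hc, hc1, n, hn, hcn⟩ := htor
    refine main_isom hG (finR_of_torsion hc hn hcn) ?_ x y
    by_contra hcon
    push Not at hcon
    exact hc1 (by ext z; exact hcon z)
  · exfalso
    have hcomm : ∀ S R : E ≃ₗᵢ[ℝ] E, Cpt S → Cpt R → S * R = R * S := by
      intro S R hS hR
      obtain ⟨n, hn, h⟩ := comm_torsion hδ hgap hS hR
      have h1 : S * R * S⁻¹ * R⁻¹ = 1 := by
        by_contra hne
        exact htor ⟨_, (((hS.mul hR).mul hS.inv).mul hR.inv), hne, n, hn, h⟩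
      have := congrArg (fun z => z * R * S) h1
      simpa [mul_assoc] using this
    have h7 : ∀ g : E ≃ₗᵢ[ℝ] E, op T * cj g (op T) = cj g (op T) * op T := by
      intro g
      rw [← op_conj, ← op_mul, ← op_mul, hcomm T _ hT (hT.conj g)]
    obtain ⟨W, h, hW, hh, hWh, hbi⟩ := exists_win hT hT1
    have hne : h ≠ 0 := by rintro rfl; simp at hh
    have hW0 : W ≠ 0 := by
      rintro rfl
      exact hne (by rw [← hWh]; rfl)
    obtain ⟨x, hx, hWx⟩ : ∃ x, x ≠ 0 ∧ W x = 0 := by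
      obtain ⟨x, hx, hk⟩ := common_ker hE (n := 1) (fun _ => W) (fun _ => hW)
      exact ⟨x, hx, hk 0⟩
    refine ker_lemma hE (AT.top hG) hW hh hWh (Y := W) ?_ hW0 hx hWx
    intro k _
    have h8 : op T * cj k W = cj k W * op T := cj_comm_iff' k (hbi _ (cj_comm_iff k (h7 k)))
    exact (hbi _ h8.symm).symm

/-- **Theorem C.** An almost transitive space with a nontrivial isometry which is a compact
perturbation of the identity is a Hilbert space. -/
theorem para_cpt {G : Subgroup (E ≃ₗᵢ[ℝ] E)} (hG : AT G) {T : E ≃ₗᵢ[ℝ] E} (hT : Cpt T)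
    (hT1 : T ≠ 1) (x y : E) :
    ‖x + y‖ ^ 2 + ‖x - y‖ ^ 2 = 2 * (‖x‖ ^ 2 + ‖y‖ ^ 2) := by
  by_cases hE : FiniteDimensional ℝ E
  · exact para_fin hG x y
  by_cases hS : ∀ ε : ℝ, 0 < ε → ∃ S : E ≃ₗᵢ[ℝ] E, Cpt S ∧ S ≠ 1 ∧ ‖op S - 1‖ < ε
  · exact para_of_seq hE hG hS x y
  · push Not at hS
    obtain ⟨δ, hδ, hiso⟩ := hS
    refine para_isolated hE hG hδ (fun S hS hlt => ?_) hT hT1 x y
    by_contra hne
    exact absurd (hiso S hS hne) (not_le.2 hlt)

end Pool.Agent.J6H26.CP
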