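import Pool.Agent.J6H26.CP.Four
import Pool.Agent.J6H26.FR.Alg

/-! # Functional calculus of an isometry -/

set_option autoImplicit false

namespace Pool.Agent.J6H26.CP

open Pool.Agent.J6H26.FR

variable {E : Type*} [NormedAddCommGroup E] [NormedSpace ℝ E]

/-- the bounded operator given by an isometry -/
noncomputable def op (T : E ≃ₗᵢ[ℝ] E) : E →L[ℝ] E := (T.toContinuousLinearEquiv : E →L[ℝ] E)

@[simp] lemma op_apply (T : E ≃ₗᵢ[ℝ] E) (x : E) : op T x = T x := rfl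

lemma op_mul (S T : E ≃ₗᵢ[ℝ] E) : op (S * T) = op S * op T := by
  ext x; rfl

lemma op_one : op (1 : E ≃ₗᵢ[ℝ] E) = 1 := by
  ext x; rfl

lemma op_norm_le (T : E ≃ₗᵢ[ℝ] E) : ‖op T‖ ≤ 1 :=
  ContinuousLinearMap.opNorm_le_bound _ zero_le_one (fun x => by
    rw [op_apply, T.norm_map, one_mul])

lemma op_inv_mul (T : E ≃ₗᵢ[ℝ] E) : op T⁻¹ * op T = 1 := by
  rw [← op_mul, inv_mul_cancel, op_one]

lemma op_mul_inv (T : E ≃ₗᵢ[ℝ] E) : op T * op T⁻¹ = 1 := by
  rw [← op_mul, mul_inv_cancel, op_one]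

lemma cj_eq (T : E ≃ₗᵢ[ℝ] E) (a : E →L[ℝ] E) : cj T a = op T * a * op T⁻¹ := by
  ext x; rfl

/-- functional calculus -/
noncomputable def Fop (n : E ≃ₗᵢ[ℝ] E) (a : ℤ → ℝ) : E →L[ℝ] E := ∑' k : ℤ, a k • op (n ^ k)

lemma term_norm (n : E ≃ₗᵢ[ℝ] E) (a : ℤ → ℝ) (k : ℤ) : ‖a k • op (n ^ k)‖ ≤ |a k| := by
  rw [norm_smul, Real.norm_eq_abs]
  exact mul_le_of_le_one_right (abs_nonneg _) (op_norm_le _)

lemma summable_term_norm (n : E ≃ₗᵢ[ℝ] E) {a : ℤ → ℝ} (ha : Summable fun k => |a k|) :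
    Summable (fun k => ‖a k • op (n ^ k)‖) :=
  Summable.of_nonneg_of_le (fun _ => norm_nonneg _) (term_norm n a) ha

variable [CompleteSpace E]

lemma summable_term (n : E ≃ₗᵢ[ℝ] E) {a : ℤ → ℝ} (ha : Summable fun k => |a k|) :
    Summable (fun k => a k • op (n ^ k)) :=
  (summable_term_norm n ha).of_norm

lemma Fop_norm_le (n : E ≃ₗᵢ[ℝ] E) {a : ℤ → ℝ} (ha : Summable fun k => |a k|) :
    ‖Fop n a‖ ≤ ∑' k, |a k| := by
  refine (norm_tsum_le_tsum_norm (summable_term_norm n ha)).trans ?_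
  exact Summable.tsum_le_tsum (term_norm n a) (summable_term_norm n ha) ha

lemma summable_conv {a b : ℤ → ℝ} (ha : Summable fun k => |a k|)
    (hb : Summable fun k => |b k|) (m : ℤ) : Summable (fun k : ℤ => a k * b (m - k)) := by
  have hbd : ∀ j : ℤ, |b j| ≤ ∑' k : ℤ, |b k| := fun j => hb.le_tsum j (fun _ _ => abs_nonneg _)
  refine Summable.of_norm_bounded (ha.mul_right (∑' k : ℤ, |b k|)) (fun k => ?_)
  rw [norm_mul, Real.norm_eq_abs, Real.norm_eq_abs]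
  exact mul_le_mul_of_nonneg_left (hbd _) (abs_nonneg _)

lemma Fop_mul (n : E ≃ₗᵢ[ℝ] E) {a b : ℤ → ℝ} (ha : Summable fun k => |a k|)
    (hb : Summable fun k => |b k|) :
    Fop n a * Fop n b = Fop n (fun m => ∑' k : ℤ, a k * b (m - k)) := by
  have h1 := tsum_mul_tsum_of_summable_norm (summable_term_norm n ha) (summable_term_norm n hb)
  unfold Fop
  rw [h1]
  have hs := summable_mul_of_summable_norm (summable_term_norm n ha) (summable_term_norm n hb)
  let e : ℤ × ℤ ≃ ℤ × ℤ :=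
    { toFun := fun p => (p.2, p.1 - p.2)
      invFun := fun q => (q.1 + q.2, q.1)
      left_inv := fun p => by ext <;> simp
      right_inv := fun q => by ext <;> simp }
  rw [← e.tsum_eq]
  have hs' := e.summable_iff.2 hs
  have h2 : ∀ p : ℤ × ℤ, (a (e p).1 • op (n ^ (e p).1)) * (b (e p).2 • op (n ^ (e p).2))
      = (a p.2 * b (p.1 - p.2)) • op (n ^ p.1) := by
    intro p
    show (a p.2 • op (n ^ p.2)) * (b (p.1 - p.2) • op (n ^ (p.1 - p.2))) = _
    rw [smul_mul_smul_comm, ← op_mul, ← zpow_add, add_sub_cancel]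
  have hs'' : Summable (fun p : ℤ × ℤ => (a p.2 * b (p.1 - p.2)) • op (n ^ p.1)) := by
    refine hs'.congr (fun p => ?_)
    exact h2 p
  rw [tsum_congr h2, hs''.tsum_prod]
  refine tsum_congr (fun m => ?_)
  show ∑' (c : ℤ), (a c * b (m - c)) • op (n ^ m) = (∑' k : ℤ, a k * b (m - k)) • op (n ^ m)
  rw [(summable_conv ha hb m).tsum_smul_const]

omit [CompleteSpace E] in
/-- three series in a Banach algebra -/
lemma triple_ring {R : Type*} [NormedRing R] [NormedAlgebra ℝ R] [CompleteSpace R]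
    (A L S : ℤ → R) (hA : ∀ k, ‖A k‖ ≤ 1) (hL : ∀ k, ‖L k‖ ≤ 1) (hS : ∀ k, ‖S k‖ ≤ 1)
    (hrel : ∀ k m n : ℤ, A k * (L m * S n) = L (m + k) * S (n + k)) {a b c : ℤ → ℝ}
    (ha : Summable fun k => |a k|) (hb : Summable fun k => |b k|) (hc : Summable fun k => |c k|)
    (h : ∀ m n : ℤ, ∑' k : ℤ, a k * (b (m - k) * c (n - k)) = 0) :
    (∑' k : ℤ, a k • A k) * ((∑' k : ℤ, b k • L k) * ∑' k : ℤ, c k • S k) = 0 := by
  have hnorm : ∀ (d : ℤ → ℝ) (D : ℤ → R), (∀ k, ‖D k‖ ≤ 1) → (Summable fun k => |d k|) →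
      Summable fun k => ‖d k • D k‖ := by
    intro d D hD hd
    refine Summable.of_nonneg_of_le (fun _ => norm_nonneg _) (fun k => ?_) hd
    rw [norm_smul, Real.norm_eq_abs]
    exact mul_le_of_le_one_right (abs_nonneg _) (hD k)
  have ha' := hnorm a A hA ha
  have hb' := hnorm b L hL hb
  have hc' := hnorm c S hS hc
  have hbcn : Summable (fun p : ℤ × ℤ => ‖(b p.1 • L p.1) * (c p.2 • S p.2)‖) := hb'.mul_norm hc'
  rw [tsum_mul_tsum_of_summable_norm hb' hc', tsum_mul_tsum_of_summable_norm ha' hbcn]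
  have hs := summable_mul_of_summable_norm ha' hbcn
  let e : (ℤ × ℤ) × ℤ ≃ ℤ × (ℤ × ℤ) :=
    { toFun := fun p => (p.2, (p.1.1 - p.2, p.1.2 - p.2))
      invFun := fun q => ((q.1 + q.2.1, q.1 + q.2.2), q.1)
      left_inv := fun p => by ext <;> simp
      right_inv := fun q => by ext <;> simp }
  rw [← e.tsum_eq]
  have hs' := e.summable_iff.2 hs
  have h2 : ∀ p : (ℤ × ℤ) × ℤ, (a (e p).1 • A (e p).1) *
      ((b (e p).2.1 • L (e p).2.1) * (c (e p).2.2 • S (e p).2.2))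
      = (a p.2 * (b (p.1.1 - p.2) * c (p.1.2 - p.2))) • (L p.1.1 * S p.1.2) := by
    intro p
    show (a p.2 • A p.2) * ((b (p.1.1 - p.2) • L (p.1.1 - p.2)) *
      (c (p.1.2 - p.2) • S (p.1.2 - p.2))) = _
    rw [smul_mul_smul_comm, smul_mul_smul_comm, hrel, sub_add_cancel, sub_add_cancel]
  have hs'' : Summable (fun p : (ℤ × ℤ) × ℤ =>
      (a p.2 * (b (p.1.1 - p.2) * c (p.1.2 - p.2))) • (L p.1.1 * S p.1.2)) := by
    refine hs'.congr (fun p => ?_)
    exact h2 p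
  rw [tsum_congr h2, hs''.tsum_prod]
  refine (tsum_congr (fun q => ?_)).trans tsum_zero
  have hab : Summable (fun k : ℤ => a k * (b (q.1 - k) * c (q.2 - k))) := by
    have hbd : ∀ j : ℤ, |b j| ≤ ∑' k : ℤ, |b k| := fun j => hb.le_tsum j (fun _ _ => abs_nonneg _)
    have hcd : ∀ j : ℤ, |c j| ≤ ∑' k : ℤ, |c k| := fun j => hc.le_tsum j (fun _ _ => abs_nonneg _)
    refine Summable.of_norm_bounded (ha.mul_right ((∑' k : ℤ, |b k|) * ∑' k : ℤ, |c k|))
      (fun k => ?_)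
    rw [norm_mul, norm_mul, Real.norm_eq_abs, Real.norm_eq_abs, Real.norm_eq_abs]
    have h3 := hbd (q.1 - k)
    have h4 := hcd (q.2 - k)
    gcongr
  show ∑' (k : ℤ), (a k * (b (q.1 - k) * c (q.2 - k))) • (L q.1 * S q.2) = 0
  rw [hab.tsum_smul_const, h q.1 q.2, zero_smul]

/-- three series in two commuting isometries -/
lemma Fop_triple (L R : E ≃ₗᵢ[ℝ] E) (hLR : L * R = R * L) {a b c : ℤ → ℝ}
    (ha : Summable fun k => |a k|) (hb : Summable fun k => |b k|) (hc : Summable fun k => |c k|)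
    (h : ∀ m n : ℤ, ∑' k : ℤ, a k * (b (m - k) * c (n - k)) = 0) :
    Fop (L * R) a * (Fop L b * Fop R c) = 0 := by
  refine triple_ring (fun k => op ((L * R) ^ k)) (fun k => op (L ^ k)) (fun k => op (R ^ k))
    (fun k => op_norm_le _) (fun k => op_norm_le _) (fun k => op_norm_le _) ?_ ha hb hc h
  intro k m n
  have hcom : Commute L R := hLR
  rw [hcom.mul_zpow, ← op_mul, ← op_mul, ← op_mul]
  congr 1
  have h1 : R ^ k * L ^ m = L ^ m * R ^ k := ((hcom.zpow_zpow m k).eq).symm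
  calc L ^ k * R ^ k * (L ^ m * R ^ n) = L ^ k * (R ^ k * L ^ m) * R ^ n := by
        simp only [mul_assoc]
    _ = L ^ k * L ^ m * (R ^ k * R ^ n) := by rw [h1]; simp only [mul_assoc]
    _ = L ^ (m + k) * R ^ (n + k) := by
        rw [← zpow_add, ← zpow_add, add_comm k m, add_comm k n]

lemma Fop_delta (n : E ≃ₗᵢ[ℝ] E) : Fop n (fun k => if k = 0 then 1 else 0) = 1 := by
  unfold Fop
  rw [tsum_eq_single 0 (fun k hk => by simp [hk])]
  simp [op_one]

lemma delta_summable : Summable (fun k : ℤ => |(if k = 0 then (1 : ℝ) else 0)|) :=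
  summable_of_ne_finset_zero (s := {0}) (fun k hk => by
    rw [if_neg (by simpa using hk), abs_zero])

lemma Fop_lin (n : E ≃ₗᵢ[ℝ] E) {a b : ℤ → ℝ} (ha : Summable fun k => |a k|)
    (hb : Summable fun k => |b k|) (s t : ℝ) :
    s • Fop n a + t • Fop n b = Fop n (fun k => s * a k + t * b k) := by
  unfold Fop
  rw [← (summable_term n ha).tsum_const_smul, ← (summable_term n hb).tsum_const_smul,
    ← ((summable_term n ha).const_smul s).tsum_add ((summable_term n hb).const_smul t)]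
  refine tsum_congr (fun k => ?_)
  rw [smul_smul, smul_smul, ← add_smul]

/-- `1 - psi δ` -/
lemma Fop_aa (n : E ≃ₗᵢ[ℝ] E) {δ : ℝ} (h0 : 0 < δ) (h1 : δ ≤ 1) :
    Fop n (aa δ) = 1 - Fop n (pp δ) := by
  have := Fop_lin n delta_summable (pp_summable h0 h1) 1 (-1)
  rw [Fop_delta, one_smul, neg_one_smul, ← sub_eq_add_neg] at this
  rw [this]
  congr 1
  funext k
  unfold aa
  ring

/-- the cosine of an isometry -/
noncomputable def Co (n : E ≃ₗᵢ[ℝ] E) : E →L[ℝ] E := (1 / 2 : ℝ) • (op n + op n⁻¹)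

omit [CompleteSpace E] in
lemma summable_shift {a : ℤ → ℝ} (ha : Summable fun k => |a k|) (j : ℤ) :
    Summable fun k => |a (k + j)| := (Equiv.addRight j).summable_iff.2 ha

lemma op_mul_Fop (n : E ≃ₗᵢ[ℝ] E) {a : ℤ → ℝ} (ha : Summable fun k => |a k|) (j : ℤ) :
    op (n ^ j) * Fop n a = Fop n (fun k => a (k - j)) := by
  unfold Fop
  rw [← (summable_term n ha).tsum_mul_left, ← (Equiv.subRight j).tsum_eq]
  refine tsum_congr (fun k => ?_)
  show op (n ^ j) * (a (k - j) • op (n ^ (k - j))) = a (k - j) • op (n ^ k)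
  rw [mul_smul_comm, ← op_mul, ← zpow_add, add_sub_cancel]

lemma Co_mul_Fop (n : E ≃ₗᵢ[ℝ] E) {a : ℤ → ℝ} (ha : Summable fun k => |a k|) (c : ℝ) :
    (Co n - c • 1) * Fop n a = Fop n (fun k => (a (k - 1) + a (k + 1)) / 2 - c * a k) := by
  have h1 := op_mul_Fop n ha 1
  have h2 := op_mul_Fop n ha (-1)
  rw [zpow_one] at h1
  rw [zpow_neg_one] at h2
  have e1 : (Co n - c • 1) * Fop n a
      = (1 / 2 : ℝ) • (op n * Fop n a) + (1 / 2 : ℝ) • (op n⁻¹ * Fop n a) - c • Fop n a := by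
    unfold Co
    rw [sub_mul, smul_mul_assoc, smul_mul_assoc, add_mul, one_mul, smul_add]
  have s1 : Summable fun k : ℤ => |a (k - 1)| := summable_shift ha (-1)
  have s2 : Summable fun k : ℤ => |a (k - -1)| := by
    simpa using summable_shift ha 1
  rw [e1, h1, h2, Fop_lin n s1 s2, sub_eq_add_neg, ← neg_smul]
  have s3 : Summable fun k : ℤ => |1 / 2 * a (k - 1) + 1 / 2 * a (k - -1)| := by
    refine Summable.of_nonneg_of_le (fun _ => abs_nonneg _) (fun k => ?_)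
      ((s1.mul_left (1/2)).add (s2.mul_left (1/2)))
    refine (abs_add_le _ _).trans ?_
    rw [abs_mul, abs_mul, abs_of_pos (by norm_num : (0:ℝ) < 1/2)]
  have := Fop_lin n s3 ha 1 (-c)
  rw [one_smul] at this
  rw [this]
  congr 1
  funext k
  rw [sub_neg_eq_add]
  ring

/-- `(cos - 1) psi δ` is small -/
lemma Co_small (n : E ≃ₗᵢ[ℝ] E) {ε : ℝ} (hε : 0 < ε) : ∃ δ : ℝ, 0 < δ ∧ δ ≤ 1 ∧
    ‖(Co n - 1) * Fop n (pp δ)‖ ≤ ε := by
  obtain ⟨δ, h0, h1, h⟩ := pp_small hε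
  refine ⟨δ, h0, h1, ?_⟩
  have hp := pp_summable h0 h1
  have e := Co_mul_Fop n hp 1
  rw [one_smul] at e
  rw [e]
  refine (Fop_norm_le n ?_).trans h
  have s1 : Summable fun k : ℤ => |pp δ (k - 1)| := summable_shift hp (-1)
  have s2 : Summable fun k : ℤ => |pp δ (k + 1)| := summable_shift hp 1
  refine Summable.of_nonneg_of_le (fun _ => abs_nonneg _) (fun k => ?_) ((s1.add s2).add hp)
  refine (abs_sub _ _).trans ?_
  rw [abs_div, abs_of_pos (by norm_num : (0:ℝ) < 2), one_mul]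
  have := abs_add_le (pp δ (k - 1)) (pp δ (k + 1))
  have h3 := abs_nonneg (pp δ (k - 1) + pp δ (k + 1))
  linarith

lemma Fop_comm_of (n : E ≃ₗᵢ[ℝ] E) {a : ℤ → ℝ} (ha : Summable fun k => |a k|)
    (B : E →L[ℝ] E) (hB : B * op n = op n * B) : B * Fop n a = Fop n a * B := by
  have h1 : B * op n⁻¹ = op n⁻¹ * B := by
    have e : op n⁻¹ * (B * op n) * op n⁻¹ = op n⁻¹ * (op n * B) * op n⁻¹ := by rw [hB]
    rw [mul_assoc, mul_assoc B, op_mul_inv, mul_one, ← mul_assoc (op n⁻¹) (op n), op_inv_mul,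
      one_mul] at e
    exact e.symm
  have hpow : ∀ (m : E ≃ₗᵢ[ℝ] E), B * op m = op m * B → ∀ j : ℕ, B * op (m ^ j) = op (m ^ j) * B := by
    intro m hm j
    induction j with
    | zero => rw [pow_zero, op_one, mul_one, one_mul]
    | succ j ih => rw [pow_succ, op_mul, ← mul_assoc, ih, mul_assoc, hm, mul_assoc]
  have hall : ∀ k : ℤ, B * op (n ^ k) = op (n ^ k) * B := by
    intro k
    cases k with
    | ofNat j => rw [Int.ofNat_eq_natCast, zpow_natCast]; exact hpow n hB j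
    | negSucc j =>
      rw [zpow_negSucc, ← inv_pow]
      exact hpow n⁻¹ h1 (j + 1)
  unfold Fop
  rw [← (summable_term n ha).tsum_mul_left, ← (summable_term n ha).tsum_mul_right]
  refine tsum_congr (fun k => ?_)
  rw [mul_smul_comm, hall, smul_mul_assoc]

/-- `psi η'` and `1 - psi η` have disjoint supports -/
lemma Fop_disj (n : E ≃ₗᵢ[ℝ] E) {η η' : ℝ} (h0 : 0 < η') (h : 2 * η' ≤ η) (h1 : η ≤ 1) :
    Fop n (pp η') * Fop n (aa η) = 0 := by
  have hη : 0 < η := by linarith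
  rw [Fop_aa n hη h1, mul_sub, mul_one, Fop_mul n (pp_summable h0 (by linarith))
    (pp_summable hη h1)]
  have : (fun m => ∑' k : ℤ, pp η' k * pp η (m - k)) = pp η' := by
    funext m
    exact pp_conv h0 h h1 m
  rw [this, sub_self]

/-- a trivial isometry -/
lemma eq_one_of_Co (n : E ≃ₗᵢ[ℝ] E) (h : Co n = 1) : n = 1 := by
  -- `n² - 2 n + 1 = 0`
  have h1 : op n + op n⁻¹ = (2 : ℝ) • (1 : E →L[ℝ] E) := by
    rw [← h, Co, smul_smul]; norm_num
  have h2 : ∀ x, n (n x) - (2 : ℝ) • n x + x = 0 := by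
    intro x
    have := congrArg (fun z : E →L[ℝ] E => z (n x)) h1
    have e : n⁻¹ (n x) = x := n.symm_apply_apply x
    simp only [_root_.add_apply, op_apply, _root_.smul_apply, one_apply_eq_self, e] at this
    rw [← this]; abel
  have h3 : ∀ x, ∀ j : ℕ, (n ^ j : E ≃ₗᵢ[ℝ] E) x = x + (j : ℝ) • (n x - x) := by
    intro x j
    have : (n ^ j : E ≃ₗᵢ[ℝ] E) x = x + (j : ℝ) • (n x - x) ∧
        (n ^ (j + 1) : E ≃ₗᵢ[ℝ] E) x = x + ((j + 1 : ℕ) : ℝ) • (n x - x) := by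
      induction j with
      | zero => refine ⟨by simp, by simp⟩
      | succ j ih =>
        refine ⟨ih.2, ?_⟩
        have e1 : (n ^ (j + 1 + 1) : E ≃ₗᵢ[ℝ] E) x = n (n ((n ^ j : E ≃ₗᵢ[ℝ] E) x)) := by
          rw [pow_succ', pow_succ']; rfl
        have e2 : (n ^ (j + 1) : E ≃ₗᵢ[ℝ] E) x = n ((n ^ j : E ≃ₗᵢ[ℝ] E) x) := by
          rw [pow_succ']; rfl
        have e3 := h2 ((n ^ j : E ≃ₗᵢ[ℝ] E) x)
        rw [e1]
        have e4 : n (n ((n ^ j : E ≃ₗᵢ[ℝ] E) x)) = (2 : ℝ) • n ((n ^ j : E ≃ₗᵢ[ℝ] E) x) -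
            (n ^ j : E ≃ₗᵢ[ℝ] E) x := by
          rw [← sub_eq_zero, ← e3]; abel
        rw [e4, ← e2, ih.1, ih.2]
        push_cast
        module
    exact this.1
  ext x
  by_contra hne
  have hpos : 0 < ‖n x - x‖ := norm_pos_iff.2 (sub_ne_zero.2 hne)
  obtain ⟨j, hj⟩ := exists_nat_gt (2 * ‖x‖ / ‖n x - x‖)
  rw [div_lt_iff₀ hpos] at hj
  have h4 : ‖(j : ℝ) • (n x - x)‖ ≤ 2 * ‖x‖ := by
    have e : (j : ℝ) • (n x - x) = (n ^ j : E ≃ₗᵢ[ℝ] E) x - x := by rw [h3]; abel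
    rw [e]
    refine (norm_sub_le _ _).trans ?_
    rw [LinearIsometryEquiv.norm_map]
    linarith
  rw [norm_smul, Real.norm_of_nonneg (Nat.cast_nonneg j)] at h4
  linarith

/-- a nontrivial isometry has a window off zero -/
lemma exists_window (n : E ≃ₗᵢ[ℝ] E) (h : n ≠ 1) : ∃ δ : ℝ, 0 < δ ∧ δ ≤ 1 ∧ Fop n (aa δ) ≠ 0 := by
  by_contra hcon
  push Not at hcon
  apply h
  apply eq_one_of_Co
  rw [← sub_eq_zero, ← norm_le_zero_iff]
  refine le_of_forall_pos_le_add fun ε hε => ?_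
  obtain ⟨δ, h0, h1, h2⟩ := Co_small n hε
  have h3 := hcon δ h0 h1
  rw [Fop_aa n h0 h1, sub_eq_zero] at h3
  rw [← h3, mul_one] at h2
  linarith

end Pool.Agent.J6H26.CP
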