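import Pool.Agent.H590R3.AbSeries
import Pool.Agent.H397R3.AB.Prod
import Pool.Agent.H663R4.AB.Dec2
import Pool.Agent.H343R3.Ab.Dec1
import Pool.Agent.H984R3.AbPartiOf

/-! # Coefficient sequences of thin bumps near the angle zero -/

set_option autoImplicit false

namespace Pool.Agent.J6H26.CP

open MeasureTheory Pool.H590R3.Ab

/-- a smooth bump, one on `[-1/2, 1/2]` and zero off `[-1, 1]` -/
noncomputable def bu (u : ℝ) : ℝ := Real.smoothTransition (2 + 2 * u) * Real.smoothTransition (2 - 2 * u)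

theorem bu_contDiff : ContDiff ℝ 2 bu := by
  unfold bu
  have h : ContDiff ℝ 2 Real.smoothTransition := Real.smoothTransition.contDiff
  have h1 : ContDiff ℝ 2 (fun u : ℝ => 2 + 2 * u) := by fun_prop
  have h2 : ContDiff ℝ 2 (fun u : ℝ => 2 - 2 * u) := by fun_prop
  exact (h.comp h1).mul (h.comp h2)

theorem bu_zero (u : ℝ) (h : 1 ≤ |u|) : bu u = 0 := by
  unfold bu
  rcases le_abs'.1 h with h | h
  · rw [Real.smoothTransition.zero_of_nonpos (by linarith), zero_mul]
  · rw [Real.smoothTransition.zero_of_nonpos (x := 2 - 2 * u) (by linarith), mul_zero]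

theorem bu_one (u : ℝ) (h : |u| ≤ 1 / 2) : bu u = 1 := by
  unfold bu
  have h1 := (abs_le.1 h).1
  have h2 := (abs_le.1 h).2
  rw [Real.smoothTransition.one_of_one_le (by linarith),
    Real.smoothTransition.one_of_one_le (by linarith), mul_one]

/-- the bump around the angle zero -/
noncomputable def psi (η θ : ℝ) : ℝ := bu ((Real.cos θ - 1) / η)

theorem psi_cont (η : ℝ) : Continuous (psi η) :=
  bu_contDiff.continuous.comp ((Real.continuous_cos.sub continuous_const).div_const _)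

theorem psi_even (η θ : ℝ) : psi η (-θ) = psi η θ := by
  unfold psi; rw [Real.cos_neg]

theorem psi_per (η θ : ℝ) : psi η (θ + 2 * Real.pi) = psi η θ := by
  unfold psi; rw [Real.cos_add_two_pi]

theorem psi_zero {η θ : ℝ} (hη : 0 < η) (h : η ≤ 1 - Real.cos θ) : psi η θ = 0 := by
  apply bu_zero
  rw [abs_div, abs_of_pos hη, le_div_iff₀ hη, one_mul, abs_sub_comm]
  exact h.trans (le_abs_self _)

theorem psi_one {η θ : ℝ} (hη : 0 < η) (h : 1 - Real.cos θ ≤ η / 2) : psi η θ = 1 := by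
  apply bu_one
  rw [abs_div, abs_of_pos hη, div_le_iff₀ hη, abs_sub_comm, abs_of_nonneg]
  · linarith
  · have := Real.cos_le_one θ
    linarith

/-- its coefficients -/
noncomputable def pp (η : ℝ) (k : ℤ) : ℝ := ca (psi η) k

theorem pp_summable {η : ℝ} (h0 : 0 < η) (h1 : η ≤ 1) : Summable (fun k : ℤ => |pp η k|) :=
  (Pool.Agent.H663R4.AB.dec2 Pool.Agent.H343R3.Ab.dec1 bu bu_contDiff bu_zero).1 η h0 h1 1

theorem pp_neg (η : ℝ) (k : ℤ) : pp η (-k) = pp η k := ca_neg _ _

theorem pp_series {η : ℝ} (h0 : 0 < η) (h1 : η ≤ 1) (θ : ℝ) :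
    HasSum (fun k : ℤ => pp η k * Real.cos (k * θ)) (psi η θ) :=
  series (psi η) (psi_cont η) (psi_even η) (psi_per η) (pp_summable h0 h1) θ

theorem pp_sum {η : ℝ} (h0 : 0 < η) (h1 : η ≤ 1) : HasSum (fun k : ℤ => pp η k) 1 := by
  have h := pp_series h0 h1 0
  have e : psi η 0 = 1 := psi_one h0 (by rw [Real.cos_zero]; linarith)
  rw [e] at h
  simpa using h

theorem pp_conv {η η' : ℝ} (h0 : 0 < η') (h : 2 * η' ≤ η) (h1 : η ≤ 1) (m : ℤ) :
    ∑' k : ℤ, pp η' k * pp η (m - k) = pp η' m := by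
  have hη : 0 < η := by linarith
  have := prod series (psi η') (psi η) (psi_cont _) (psi_cont _) (psi_even _) (psi_per _)
    (psi_even _) (psi_per _) (pp_summable h0 (by linarith)) (pp_summable hη h1) m
  unfold pp
  rw [this]
  congr 1
  funext θ
  by_cases hθ : η' ≤ 1 - Real.cos θ
  · rw [psi_zero h0 hθ, zero_mul]
  · rw [psi_one hη (by linarith), mul_one]

theorem pp_small {ε : ℝ} (hε : 0 < ε) : ∃ δ : ℝ, 0 < δ ∧ δ ≤ 1 ∧
    ∑' k : ℤ, |(pp δ (k - 1) + pp δ (k + 1)) / 2 - 1 * pp δ k| ≤ ε := by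
  set G₁ : ℝ → ℝ := fun u => u * bu u with hG₁
  have hG : ContDiff ℝ 2 G₁ := contDiff_id.mul bu_contDiff
  have hG0 : ∀ u, 1 ≤ |u| → G₁ u = 0 := fun u hu => by
    rw [hG₁]; simp only []; rw [bu_zero u hu, mul_zero]
  obtain ⟨-, h⟩ := Pool.Agent.H663R4.AB.dec2 Pool.Agent.H343R3.Ab.dec1 G₁ hG hG0
  obtain ⟨δ0, hδ0, hδ⟩ := h ε hε
  refine ⟨min (δ0 / 2) 1, by positivity, min_le_right _ _, ?_⟩
  set δ := min (δ0 / 2) 1 with hδdef
  have hδpos : 0 < δ := by positivity
  have h1 := hδ δ hδpos (by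
    have := min_le_left (δ0 / 2) 1
    linarith) (min_le_right _ _) 1
  refine le_trans (le_of_eq (tsum_congr fun k => ?_)) h1
  congr 1
  rw [one_mul]
  unfold pp
  rw [← Pool.Agent.H984R3.AbPartiOf.ca_cos_mul (psi_cont δ),
    ← Pool.Agent.H984R3.AbPartiOf.ca_sub (F := fun θ => Real.cos θ * psi δ θ)
      (Real.continuous_cos.mul (psi_cont δ)) (psi_cont δ)]
  congr 1
  funext θ
  rw [hG₁]
  simp only []
  unfold psi
  field_simp

/-- term by term integration -/
theorem termwise {d : ℤ → ℝ} (hd : Summable fun k => |d k|) {u : ℤ → ℝ → ℝ}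
    (hu : ∀ k, Continuous (u k)) (hu1 : ∀ k x, |u k x| ≤ 1) {ψ : ℝ → ℝ} (hψ : Continuous ψ)
    (hz : ∀ x, ψ x * ∑' k : ℤ, d k * u k x = 0) :
    ∑' k : ℤ, d k * ∫ x in (0:ℝ)..Real.pi, ψ x * u k x = 0 := by
  have hs : ∀ x, Summable fun k => d k * u k x := fun x => by
    refine Summable.of_norm_bounded hd fun k => ?_
    rw [Real.norm_eq_abs, abs_mul]
    exact mul_le_of_le_one_right (abs_nonneg _) (hu1 k x)
  have h1 : HasSum (fun k : ℤ => ∫ x in (0:ℝ)..Real.pi, ψ x * (d k * u k x))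
      (∫ x in (0:ℝ)..Real.pi, (0 : ℝ)) := by
    apply intervalIntegral.hasSum_integral_of_dominated_convergence (fun k x => |d k| * |ψ x|)
    · intro k
      apply Continuous.aestronglyMeasurable
      have := hu k
      fun_prop
    · intro k
      refine Filter.Eventually.of_forall fun x _ => ?_
      rw [Real.norm_eq_abs, abs_mul, abs_mul]
      calc |ψ x| * (|d k| * |u k x|) ≤ |ψ x| * (|d k| * 1) := by
            have := hu1 k x
            gcongr
        _ = |d k| * |ψ x| := by ring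
    · exact Filter.Eventually.of_forall fun x _ => hd.mul_right _
    · have : (fun x => ∑' k : ℤ, |d k| * |ψ x|) = fun x => (∑' k : ℤ, |d k|) * |ψ x| := by
        funext x
        rw [tsum_mul_right]
      rw [this]
      apply Continuous.intervalIntegrable
      fun_prop
    · refine Filter.Eventually.of_forall fun x _ => ?_
      have := (hs x).hasSum.mul_left (ψ x)
      rwa [hz x] at this
  rw [intervalIntegral.integral_zero] at h1
  refine Eq.trans (tsum_congr fun k => ?_) h1.tsum_eq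
  have e : d k * ∫ x in (0:ℝ)..Real.pi, ψ x * u k x =
      ∫ x in (0:ℝ)..Real.pi, d k * (ψ x * u k x) :=
    (intervalIntegral.integral_const_mul _ _).symm
  rw [e]
  refine intervalIntegral.integral_congr fun x _ => ?_
  ring

/-- the coefficients of `1 - psi δ` -/
noncomputable def aa (δ : ℝ) (k : ℤ) : ℝ := (if k = 0 then 1 else 0) - pp δ k

theorem aa_summable {δ : ℝ} (h0 : 0 < δ) (h1 : δ ≤ 1) : Summable (fun k : ℤ => |aa δ k|) := by
  have h2 : Summable (fun k : ℤ => |(if k = 0 then (1 : ℝ) else 0)|) :=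
    summable_of_ne_finset_zero (s := {0}) (fun k hk => by
      rw [if_neg (by simpa using hk), abs_zero])
  refine Summable.of_nonneg_of_le (fun _ => abs_nonneg _) (fun k => ?_) (h2.add (pp_summable h0 h1))
  exact abs_sub _ _

theorem aa_neg (δ : ℝ) (k : ℤ) : aa δ (-k) = aa δ k := by
  unfold aa
  rw [pp_neg]
  simp

theorem aa_series {δ : ℝ} (h0 : 0 < δ) (h1 : δ ≤ 1) (θ : ℝ) :
    HasSum (fun k : ℤ => aa δ k * Real.cos (k * θ)) (1 - psi δ θ) := by
  have h2 : HasSum (fun k : ℤ => (if k = 0 then (1 : ℝ) else 0) * Real.cos (k * θ)) 1 := by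
    refine (hasSum_ite_eq (0 : ℤ) (1 : ℝ)).congr_fun fun k => ?_
    by_cases hk : k = 0
    · subst hk; simp
    · simp [hk]
  refine (h2.sub (pp_series h0 h1 θ)).congr_fun fun k => ?_
  unfold aa
  ring

theorem aa_sum {δ : ℝ} (h0 : 0 < δ) (h1 : δ ≤ 1) : HasSum (fun k : ℤ => aa δ k) 0 := by
  have h := aa_series h0 h1 0
  have e : psi δ 0 = 1 := psi_one h0 (by rw [Real.cos_zero]; linarith)
  rw [e, sub_self] at h
  simpa using h

theorem aa_sin {δ : ℝ} (h0 : 0 < δ) (h1 : δ ≤ 1) (θ : ℝ) :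
    HasSum (fun k : ℤ => aa δ k * Real.sin (k * θ)) 0 := by
  have hs : Summable (fun k : ℤ => aa δ k * Real.sin (k * θ)) := by
    refine Summable.of_norm_bounded (aa_summable h0 h1) fun k => ?_
    rw [Real.norm_eq_abs, abs_mul]
    exact mul_le_of_le_one_right (abs_nonneg _) (Real.abs_sin_le_one _)
  have e : ∑' k : ℤ, aa δ k * Real.sin (k * θ) = - ∑' k : ℤ, aa δ k * Real.sin (k * θ) := by
    rw [← tsum_neg]
    rw [← (Equiv.neg ℤ).tsum_eq (fun k : ℤ => aa δ k * Real.sin (k * θ))]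
    refine tsum_congr fun k => ?_
    show aa δ (-k) * Real.sin (((-k : ℤ) : ℝ) * θ) = _
    rw [aa_neg]
    push_cast
    rw [neg_mul, Real.sin_neg]
    ring
  have e2 : ∑' k : ℤ, aa δ k * Real.sin (k * θ) = 0 := by linarith
  rw [← e2]
  exact hs.hasSum

theorem cos_half (x : ℝ) : Real.cos x = 1 - 2 * Real.sin (x / 2) ^ 2 := by
  have h1 := Real.cos_two_mul (x / 2)
  rw [show 2 * (x / 2) = x by ring] at h1
  have h2 := Real.sin_sq_add_cos_sq (x / 2)
  linarith

theorem cos_le (x y : ℝ) : 1 - Real.cos (x + y) ≤ 2 * (1 - Real.cos x) + 2 * (1 - Real.cos y) := by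
  have hs : Real.sin ((x + y) / 2) = Real.sin (x / 2) * Real.cos (y / 2) +
      Real.cos (x / 2) * Real.sin (y / 2) := by
    rw [add_div, Real.sin_add]
  rw [cos_half x, cos_half y, cos_half (x + y), hs]
  have h1 := Real.sin_sq_add_cos_sq (x / 2)
  have h2 := Real.sin_sq_add_cos_sq (y / 2)
  set s := Real.sin (x / 2)
  set c := Real.cos (x / 2)
  set s' := Real.sin (y / 2)
  set c' := Real.cos (y / 2)
  have h3 : s ^ 2 * c' ^ 2 = s ^ 2 - s ^ 2 * s' ^ 2 := by
    have : c' ^ 2 = 1 - s' ^ 2 := by linarith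
    rw [this]; ring
  have h4 : c ^ 2 * s' ^ 2 = s' ^ 2 - s ^ 2 * s' ^ 2 := by
    have : c ^ 2 = 1 - s ^ 2 := by linarith
    rw [this]; ring
  nlinarith [sq_nonneg (s * c' - c * s'), mul_nonneg (sq_nonneg s) (sq_nonneg s')]

/-- the function `(1 - psi δ (x + y)) psi η x psi η y` is zero: coefficients -/
theorem triple {δ η : ℝ} (h0 : 0 < η) (h : 8 * η ≤ δ) (h1 : δ ≤ 1) (m n : ℤ) :
    ∑' k : ℤ, aa δ k * (pp η (m - k) * pp η (n - k)) = 0 := by
  have hδ : 0 < δ := by linarith
  have hη1 : η ≤ 1 := by linarith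
  have hA := aa_summable hδ h1
  have hvan : ∀ x y : ℝ, psi η x ≠ 0 → psi η y ≠ 0 → psi δ (x + y) = 1 := by
    intro x y hx hy
    apply psi_one hδ
    have h2 : 1 - Real.cos x < η := by
      by_contra hcon
      push Not at hcon
      exact hx (psi_zero h0 hcon)
    have h3 : 1 - Real.cos y < η := by
      by_contra hcon
      push Not at hcon
      exact hy (psi_zero h0 hcon)
    have := cos_le x y
    linarith
  -- the double sum
  have hS : ∀ x y : ℝ, psi η x ≠ 0 → psi η y ≠ 0 →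
      HasSum (fun k : ℤ => aa δ k * (Real.cos (((m - k : ℤ) : ℝ) * x) *
        Real.cos (((n - k : ℤ) : ℝ) * y))) 0 := by
    intro x y hx hy
    have hy' : psi η (-y) ≠ 0 := by rwa [psi_even]
    have e1 := hvan x y hx hy
    have e2 := hvan x (-y) hx hy'
    have c1 := aa_series hδ h1 (x + y)
    have c2 := aa_series hδ h1 (x + -y)
    rw [e1, sub_self] at c1
    rw [e2, sub_self] at c2
    have s1 := aa_sin hδ h1 (x + y)
    have s2 := aa_sin hδ h1 (x + -y)
    have key := (((c1.mul_left (Real.cos (m * x + n * y) / 2)).add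
      (s1.mul_left (Real.sin (m * x + n * y) / 2))).add
      (c2.mul_left (Real.cos (m * x - n * y) / 2))).add
      (s2.mul_left (Real.sin (m * x - n * y) / 2))
    simp only [mul_zero, add_zero] at key
    refine key.congr_fun fun k => ?_
    have f1 : ((m - k : ℤ) : ℝ) * x = m * x - k * x := by push_cast; ring
    have f2 : ((n - k : ℤ) : ℝ) * y = n * y - k * y := by push_cast; ring
    have f3 : (k : ℝ) * (x + y) = k * x + k * y := by ring
    have f4 : (k : ℝ) * (x + -y) = k * x - k * y := by ring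
    rw [f1, f2, f3, f4]
    simp only [Real.cos_sub, Real.cos_add, Real.sin_sub, Real.sin_add]
    ring
  -- inner integral
  have hI : ∀ y : ℝ, psi η y ≠ 0 →
      ∑' k : ℤ, (aa δ k * Real.cos (((n - k : ℤ) : ℝ) * y)) *
        (∫ x in (0:ℝ)..Real.pi, psi η x * Real.cos (((m - k : ℤ) : ℝ) * x)) = 0 := by
    intro y hy
    refine termwise (d := fun k => aa δ k * Real.cos (((n - k : ℤ) : ℝ) * y))
      (u := fun k x => Real.cos (((m - k : ℤ) : ℝ) * x)) ?_ ?_ ?_ (psi_cont η) ?_
    · refine Summable.of_nonneg_of_le (fun _ => abs_nonneg _) (fun k => ?_) hA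
      rw [abs_mul]
      exact mul_le_of_le_one_right (abs_nonneg _) (Real.abs_cos_le_one _)
    · intro k; fun_prop
    · intro k x; exact Real.abs_cos_le_one _
    · intro x
      by_cases hx : psi η x = 0
      · rw [hx, zero_mul]
      have := (hS x y hx hy).tsum_eq
      have e : ∑' k : ℤ, aa δ k * Real.cos (((n - k : ℤ) : ℝ) * y) *
          Real.cos (((m - k : ℤ) : ℝ) * x) = 0 := by
        rw [← this]
        refine tsum_congr fun k => ?_
        ring
      rw [e, mul_zero]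
  -- outer integral
  have hO : ∑' k : ℤ, (aa δ k * pp η (m - k)) *
      (∫ y in (0:ℝ)..Real.pi, psi η y * Real.cos (((n - k : ℤ) : ℝ) * y)) = 0 := by
    refine termwise (d := fun k => aa δ k * pp η (m - k))
      (u := fun k y => Real.cos (((n - k : ℤ) : ℝ) * y)) ?_ ?_ ?_ (psi_cont η) ?_
    · have hbd : ∀ j : ℤ, |pp η j| ≤ ∑' k : ℤ, |pp η k| := fun j =>
        (pp_summable h0 hη1).le_tsum j (fun k _ => abs_nonneg _)
      refine Summable.of_nonneg_of_le (fun _ => abs_nonneg _) (fun k => ?_)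
        (hA.mul_right (∑' k : ℤ, |pp η k|))
      rw [abs_mul]
      exact mul_le_mul_of_nonneg_left (hbd _) (abs_nonneg _)
    · intro k; fun_prop
    · intro k x; exact Real.abs_cos_le_one _
    · intro y
      by_cases hy : psi η y = 0
      · rw [hy, zero_mul]
      have h2 := hI y hy
      have e : ∑' k : ℤ, aa δ k * pp η (m - k) * Real.cos (((n - k : ℤ) : ℝ) * y) = 0 := by
        have e2 : ∀ k : ℤ, aa δ k * pp η (m - k) * Real.cos (((n - k : ℤ) : ℝ) * y) =
            (1 / Real.pi) * ((aa δ k * Real.cos (((n - k : ℤ) : ℝ) * y)) *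
              (∫ x in (0:ℝ)..Real.pi, psi η x * Real.cos (((m - k : ℤ) : ℝ) * x))) := by
          intro k
          unfold pp ca
          ring
        rw [tsum_congr e2, tsum_mul_left, h2, mul_zero]
      rw [e, mul_zero]
  have e2 : ∀ k : ℤ, aa δ k * (pp η (m - k) * pp η (n - k)) =
      (1 / Real.pi) * ((aa δ k * pp η (m - k)) *
        (∫ y in (0:ℝ)..Real.pi, psi η y * Real.cos (((n - k : ℤ) : ℝ) * y))) := by
    intro k
    have : pp η (n - k) = (1 / Real.pi) *
      ∫ y in (0:ℝ)..Real.pi, psi η y * Real.cos (((n - k : ℤ) : ℝ) * y) := rfl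
    rw [this]
    ring
  rw [tsum_congr e2, tsum_mul_left, hO, mul_zero]

end Pool.Agent.J6H26.CP
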