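import Pool.Agent.J6H26.CP.Adw

/-! # Operators which commute with the conjugates of a finite rank operator -/

set_option autoImplicit false

namespace Pool.Agent.J6H26.CP

open Pool.Agent.J6H26.FR Filter Topology Module

variable {F : Type*} [NormedAddCommGroup F] [NormedSpace ℝ F]

lemma li_open {n : ℕ} {v : Fin n → F} (h : LinearIndependent ℝ v) :
    ∃ ε : ℝ, 0 < ε ∧ ∀ v' : Fin n → F, (∀ i, ‖v' i - v i‖ < ε) → LinearIndependent ℝ v' := by
  have h1 : IsOpen {f : Fin n → F | LinearIndependent ℝ f} := isOpen_setOfPred_linearIndependent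
  obtain ⟨ε, hε, hb⟩ := Metric.isOpen_iff.1 h1 v h
  refine ⟨ε, hε, fun v' hv' => hb ?_⟩
  rw [Metric.mem_ball, dist_pi_lt_iff hε]
  intro i
  rw [dist_eq_norm]
  exact hv' i

lemma li_count {n : ℕ} {v : Fin n → F} (h : LinearIndependent ℝ v) {V : Submodule ℝ F}
    (hV : FiniteDimensional ℝ V) (hv : ∀ i, v i ∈ V) : n ≤ finrank ℝ V := by
  have h1 : LinearIndependent ℝ (fun i => (⟨v i, hv i⟩ : V)) := by
    apply LinearIndependent.of_comp V.subtype
    exact h
  simpa using h1.fintype_card_le_finrank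

/-- a common kernel vector of finitely many finite rank operators -/
lemma common_ker (hF : ¬ FiniteDimensional ℝ F) {n : ℕ} (A : Fin n → F →L[ℝ] F)
    (hA : ∀ i, FinK (A i)) : ∃ x : F, x ≠ 0 ∧ ∀ i, A i x = 0 := by
  by_contra hcon
  push Not at hcon
  apply hF
  have hfin : ∀ i, FiniteDimensional ℝ (LinearMap.range (A i : F →ₗ[ℝ] F)) := hA
  let Φ : F →ₗ[ℝ] (∀ i, LinearMap.range (A i : F →ₗ[ℝ] F)) :=
    LinearMap.pi fun i => (A i : F →ₗ[ℝ] F).rangeRestrict
  refine FiniteDimensional.of_injective Φ ?_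
  rw [injective_iff_map_eq_zero]
  intro x hx
  by_contra hx0
  obtain ⟨i, hi⟩ := hcon x hx0
  apply hi
  exact congrArg Subtype.val (congrFun hx i)

/-- linearly independent families in an infinite-dimensional space -/
lemma exists_li (hF : ¬ FiniteDimensional ℝ F) (n : ℕ) {c : ℝ} (hc : 0 < c) :
    ∃ u : Fin n → F, LinearIndependent ℝ u ∧ ∀ i, ‖u i‖ = c := by
  let b := Basis.ofVectorSpace ℝ F
  have hinf : Infinite (Basis.ofVectorSpaceIndex ℝ F) := by
    by_contra hcon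
    rw [not_infinite_iff_finite] at hcon
    exact hF (Module.Finite.of_basis b)
  let e : Fin n ↪ Basis.ofVectorSpaceIndex ℝ F :=
    (Fin.valEmbedding).trans (Infinite.natEmbedding _)
  have h1 : LinearIndependent ℝ (fun i => b (e i)) := b.linearIndependent.comp e e.injective
  have h0 : ∀ i, ‖b (e i)‖ ≠ 0 := fun i => norm_ne_zero_iff.2 (h1.ne_zero i)
  have hu : ∀ i, c * ‖b (e i)‖⁻¹ ≠ 0 := fun i => mul_ne_zero hc.ne' (inv_ne_zero (h0 i))
  refine ⟨_, h1.units_smul (fun i => Units.mk0 _ (hu i)), fun i => ?_⟩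
  show ‖(c * ‖b (e i)‖⁻¹) • b (e i)‖ = c
  rw [norm_smul, Real.norm_of_nonneg (by positivity), mul_assoc, inv_mul_cancel₀ (h0 i), mul_one]

/-- the operators which commute with the conjugates of `W` -/
def Cm (G : Subgroup (F ≃ₗᵢ[ℝ] F)) (W A : F →L[ℝ] F) : Prop := ∀ k ∈ G, A * cj k W = cj k W * A

variable {G : Subgroup (F ≃ₗᵢ[ℝ] F)} {W : F →L[ℝ] F}

lemma cj_cj (g k : F ≃ₗᵢ[ℝ] F) (A : F →L[ℝ] F) : cj g (cj k A) = cj (g * k) A := by
  ext x; rfl

lemma cj_one' (A : F →L[ℝ] F) : cj 1 A = A := by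
  ext x; rfl

lemma Cm.conj {A : F →L[ℝ] F} (hA : Cm G W A) {g : F ≃ₗᵢ[ℝ] F} (hg : g ∈ G) :
    Cm G W (cj g A) := by
  intro k hk
  have h1 := hA (g⁻¹ * k) (G.mul_mem (G.inv_mem hg) hk)
  have h2 := congrArg (cj g) h1
  rw [cj_mul, cj_mul, cj_cj, mul_inv_cancel_left] at h2
  exact h2

/-- `m` operators in the commutant with independent values at one vector -/
def PP (G : Subgroup (F ≃ₗᵢ[ℝ] F)) (W : F →L[ℝ] F) (m : ℕ) (w : F) : Prop :=
  ∃ A : Fin m → F →L[ℝ] F, (∀ i, Cm G W (A i)) ∧ LinearIndependent ℝ (fun i => A i w)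

lemma PP.unit {m : ℕ} {w : F} (h : PP G W m w) (hw : w ≠ 0) : PP G W m (‖w‖⁻¹ • w) := by
  obtain ⟨A, hA, hl⟩ := h
  have hn : ‖w‖⁻¹ ≠ 0 := inv_ne_zero (norm_ne_zero_iff.2 hw)
  refine ⟨A, hA, ?_⟩
  have h1 := hl.units_smul (fun _ => Units.mk0 _ hn)
  convert h1 using 1
  funext i
  rw [map_smul]; rfl

lemma PP.ununit {m : ℕ} {w : F} (h : PP G W m (‖w‖⁻¹ • w)) (hw : w ≠ 0) : PP G W m w := by
  obtain ⟨A, hA, hl⟩ := h
  have hn : ‖w‖ ≠ 0 := norm_ne_zero_iff.2 hw
  refine ⟨A, hA, ?_⟩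
  have h1 := hl.units_smul (fun _ => Units.mk0 _ hn)
  convert h1 using 1
  funext i
  show A i w = ‖w‖ • A i (‖w‖⁻¹ • w)
  rw [map_smul, smul_smul, mul_inv_cancel₀ hn, one_smul]

lemma PP.bound (hG : AT G) (hW : FinK W) {h : F} (hh : ‖h‖ = 1) (hWh : W h = h) {m : ℕ} {w : F}
    (hw : w ≠ 0) (hP : PP G W m w) : m ≤ finrank ℝ (LinearMap.range (W : F →ₗ[ℝ] F)) := by
  obtain ⟨A, hA, hl⟩ := hP.unit hw
  set u := ‖w‖⁻¹ • w with hu
  have hu1 : ‖u‖ = 1 := by
    rw [hu, norm_smul, norm_inv, norm_norm, inv_mul_cancel₀ (norm_ne_zero_iff.2 hw)]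
  obtain ⟨ε, hε, hop⟩ := li_open hl
  set M := ∑ i, ‖A i‖ + 1 with hM
  have hM0 : 0 < M := by positivity
  have hMi : ∀ i, ‖A i‖ ≤ M := fun i => by
    have := Finset.single_le_sum (f := fun i => ‖A i‖) (fun i _ => norm_nonneg _)
      (Finset.mem_univ i)
    linarith
  obtain ⟨k, hk, hku⟩ := hG h u hh hu1 (ε / (M * (‖W‖ + 1))) (by positivity)
  have hfix : cj k W (k h) = k h := by rw [cj_apply', hWh]
  have hWu : ‖cj k W u - u‖ ≤ (‖W‖ + 1) * ‖k h - u‖ := by
    have e : cj k W u - u = cj k W (u - k h) - (u - k h) := by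
      rw [map_sub, hfix]; abel
    rw [e]
    refine (norm_sub_le _ _).trans ?_
    have := norm_cj_apply_le k W (u - k h)
    rw [norm_sub_rev u (k h)] at this ⊢
    linarith
  have hl' : LinearIndependent ℝ (fun i => cj k W (A i u)) := by
    apply hop
    intro i
    have e : cj k W (A i u) = A i (cj k W u) := by
      have := congrArg (fun z : F →L[ℝ] F => z u) (hA i k hk)
      exact this.symm
    rw [e, ← map_sub]
    refine lt_of_le_of_lt ((A i).le_opNorm _) ?_
    calc ‖A i‖ * ‖cj k W u - u‖ ≤ M * ((‖W‖ + 1) * ‖k h - u‖) := by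
          have := hMi i
          gcongr
      _ < ε := by
          rw [lt_div_iff₀ (by positivity)] at hku
          linarith
  have h1 := li_count hl' (hW.conj k) (fun i => ⟨A i u, rfl⟩)
  refine h1.trans (le_of_eq ?_)
  exact HP.rk_cj k W

lemma PP.everywhere (hG : AT G) {m : ℕ} {w : F} (hw : w ≠ 0) (hP : PP G W m w) {x : F}
    (hx : x ≠ 0) : PP G W m x := by
  obtain ⟨A, hA, hl⟩ := hP.unit hw
  set u := ‖w‖⁻¹ • w with hu
  have hu1 : ‖u‖ = 1 := by
    rw [hu, norm_smul, norm_inv, norm_norm, inv_mul_cancel₀ (norm_ne_zero_iff.2 hw)]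
  set y := ‖x‖⁻¹ • x with hy
  have hy1 : ‖y‖ = 1 := by
    rw [hy, norm_smul, norm_inv, norm_norm, inv_mul_cancel₀ (norm_ne_zero_iff.2 hx)]
  obtain ⟨ε, hε, hop⟩ := li_open hl
  set M := ∑ i, ‖A i‖ + 1 with hM
  have hM0 : 0 < M := by positivity
  have hMi : ∀ i, ‖A i‖ ≤ M := fun i => by
    have := Finset.single_le_sum (f := fun i => ‖A i‖) (fun i _ => norm_nonneg _)
      (Finset.mem_univ i)
    linarith
  obtain ⟨g, hg, hgy⟩ := hG y u hy1 hu1 (ε / M) (by positivity)
  have hl' : LinearIndependent ℝ (fun i => A i (g y)) := by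
    apply hop
    intro i
    rw [← map_sub]
    refine lt_of_le_of_lt ((A i).le_opNorm _) ?_
    calc ‖A i‖ * ‖g y - u‖ ≤ M * ‖g y - u‖ := by
          have := hMi i
          gcongr
      _ < ε := by
          rw [lt_div_iff₀ hM0] at hgy
          linarith
  apply PP.ununit _ hx
  refine ⟨fun i => cj g⁻¹ (A i), fun i => (hA i).conj (G.inv_mem hg), ?_⟩
  have e : (fun i => A i (g y)) = (g.toLinearEquiv : F →ₗ[ℝ] F) ∘ fun i => cj g⁻¹ (A i) y := by
    funext i
    show A i (g y) = g (g.symm (A i (g y)))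
    rw [g.apply_symm_apply]
  rw [e] at hl'
  exact LinearIndependent.of_comp _ hl'

/-- an operator in the commutant with a kernel -/
lemma PP.range {d : ℕ} (hmax : ∀ w, w ≠ 0 → ¬ PP G W (d + 1) w) {x : F} {B : Fin d → F →L[ℝ] F}
    (hB : ∀ i, Cm G W (B i)) (hl : LinearIndependent ℝ (fun i => B i x)) {A : F →L[ℝ] F}
    (hA : Cm G W A) (hAx : A x = 0) (v : F) : A v ∈ Submodule.span ℝ (Set.range fun i => B i x) := by
  by_contra hcon
  have h1 : LinearIndependent ℝ (Fin.cons (A v) (fun i => B i x) : Fin (d + 1) → F) :=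
    linearIndependent_finCons.2 ⟨hl, hcon⟩
  obtain ⟨ε, hε, hop⟩ := li_open h1
  set M := ∑ i, ‖B i‖ + 1 with hM
  have hM0 : 0 < M := by positivity
  have hMi : ∀ i, ‖B i‖ ≤ M := fun i => by
    have := Finset.single_le_sum (f := fun i => ‖B i‖) (fun i _ => norm_nonneg _)
      (Finset.mem_univ i)
    linarith
  set t : ℝ := ε / (2 * M * (‖v‖ + 1)) with ht
  have ht0 : 0 < t := by positivity
  have h2 : LinearIndependent ℝ (Fin.cons (A v) (fun i => B i (x + t • v)) : Fin (d + 1) → F) := by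
    apply hop
    intro i
    refine Fin.cases ?_ (fun j => ?_) i
    · simp [hε]
    · simp only [Fin.cons_succ]
      rw [← map_sub, add_sub_cancel_left]
      refine lt_of_le_of_lt ((B j).le_opNorm _) ?_
      rw [norm_smul, Real.norm_of_nonneg ht0.le]
      calc ‖B j‖ * (t * ‖v‖) ≤ M * (t * (‖v‖ + 1)) := by
            have := hMi j
            gcongr
            linarith
        _ = ε / 2 := by rw [ht]; field_simp
        _ < ε := by linarith
  obtain ⟨h3, h4⟩ := linearIndependent_finCons.1 h2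
  have h5 : LinearIndependent ℝ (fun i : Fin (d + 1) =>
      (Fin.cons A B : Fin (d + 1) → F →L[ℝ] F) i (x + t • v)) := by
    have e : (fun i : Fin (d + 1) => (Fin.cons A B : Fin (d + 1) → F →L[ℝ] F) i (x + t • v)) =
        (Fin.cons (t • A v) (fun i => B i (x + t • v)) : Fin (d + 1) → F) := by
      funext i
      refine Fin.cases ?_ (fun j => ?_) i
      · simp [hAx]
      · simp
    rw [e]
    refine linearIndependent_finCons.2 ⟨h3, fun hmem => h4 ?_⟩
    have := Submodule.smul_mem _ t⁻¹ hmem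
    rwa [smul_smul, inv_mul_cancel₀ ht0.ne', one_smul] at this
  have hne : x + t • v ≠ 0 := by
    intro h0
    have := h5.ne_zero 0
    apply this
    simp only [Fin.cons_zero]
    rw [h0, map_zero]
  refine hmax _ hne ⟨_, fun i => ?_, h5⟩
  refine Fin.cases ?_ (fun j => ?_) i
  · exact hA
  · exact hB j

/-- **The commutant.** An operator which commutes with all conjugates of a finite rank operator with
a nonzero fixed vector is zero or injective. -/
theorem ker_lemma (hF : ¬ FiniteDimensional ℝ F) (hG : AT G) (hW : FinK W) {h : F} (hh : ‖h‖ = 1)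
    (hWh : W h = h) {Y : F →L[ℝ] F} (hY : Cm G W Y) (hY0 : Y ≠ 0) {x : F} (hx : x ≠ 0)
    (hYx : Y x = 0) : False := by
  classical
  have hne : h ≠ 0 := by rintro rfl; simp at hh
  -- the maximal number
  obtain ⟨d, ⟨w, hw, hd⟩, hmax⟩ : ∃ d, (∃ w, w ≠ 0 ∧ PP G W d w) ∧
      ∀ w, w ≠ 0 → ¬ PP G W (d + 1) w := by
    by_contra hcon
    push Not at hcon
    have hall : ∀ d, ∃ w, w ≠ 0 ∧ PP G W d w := by
      intro d
      induction d with
      | zero => exact ⟨h, hne, fun i => i.elim0, fun i => i.elim0, linearIndependent_empty_type⟩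
      | succ d ih =>
        obtain ⟨w, hw, hP⟩ := ih
        obtain ⟨w', hw', hP'⟩ := hcon d ⟨w, hw, hP⟩
        exact ⟨w', hw', hP'⟩
    obtain ⟨w, hw, hP⟩ := hall (finrank ℝ (LinearMap.range (W : F →ₗ[ℝ] F)) + 1)
    have := hP.bound hG hW hh hWh hw
    omega
  -- `Y` has finite rank
  have hfin : FinK Y := by
    obtain ⟨B, hB, hl⟩ := hd.everywhere hG hw hx
    exact FinK.of_le (V := Submodule.span ℝ (Set.range fun i => B i x))
      (FiniteDimensional.span_of_finite ℝ (Set.finite_range _))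
      fun v => PP.range hmax hB hl hY hYx v
  obtain ⟨z, hz⟩ : ∃ z, Y z ≠ 0 := by
    by_contra hcon
    push Not at hcon
    exact hY0 (by ext z; exact hcon z)
  have hz0 : 0 < ‖Y z‖ := norm_pos_iff.2 hz
  obtain ⟨u, hu, hun⟩ := exists_li hF (d + 1) hz0
  obtain ⟨ε, hε, hop⟩ := li_open hu
  have hex : ∀ i, ∃ g ∈ G, ‖g (Y z) - u i‖ < ε := by
    intro i
    obtain ⟨g, hg, hgu⟩ := hG (‖Y z‖⁻¹ • Y z) (‖Y z‖⁻¹ • u i)
      (by rw [norm_smul, norm_inv, norm_norm, inv_mul_cancel₀ hz0.ne'])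
      (by rw [norm_smul, norm_inv, norm_norm, hun, inv_mul_cancel₀ hz0.ne'])
      (ε / ‖Y z‖) (by positivity)
    refine ⟨g, hg, ?_⟩
    rw [map_smul, ← smul_sub, norm_smul, norm_inv, norm_norm, lt_div_iff₀ hz0] at hgu
    calc ‖g (Y z) - u i‖ = ‖Y z‖⁻¹ * ‖g (Y z) - u i‖ * ‖Y z‖ := by field_simp
      _ < ε := hgu
  choose g hg hgu using hex
  have hli : LinearIndependent ℝ (fun i => g i (Y z)) := hop _ hgu
  obtain ⟨x', hx', hker⟩ := common_ker hF (fun i => cj (g i) Y) (fun i => hfin.conj (g i))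
  obtain ⟨B, hB, hl⟩ := hd.everywhere hG hw hx'
  have hmem : ∀ i, g i (Y z) ∈ Submodule.span ℝ (Set.range fun j => B j x') := by
    intro i
    have := PP.range hmax hB hl (hY.conj (hg i)) (hker i) (g i z)
    rwa [cj_apply'] at this
  have h1 := li_count hli (FiniteDimensional.span_of_finite ℝ (Set.finite_range _)) hmem
  have h2 := finrank_range_le_card (R := ℝ) (fun j => B j x')
  rw [Fintype.card_fin] at h2
  unfold Set.finrank at h2
  omega

end Pool.Agent.J6H26.CP
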