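import Pool.Agent.J6H26.CP.Weak

/-! # Isometries tending weakly to the identity -/

set_option autoImplicit false

namespace Pool.Agent.J6H26.CP

open Pool.Agent.J6H26.FR Filter Topology

variable {E : Type*} [NormedAddCommGroup E] [NormedSpace ℝ E]

/-- products of isometries -/
noncomputable def prods (x : E) (b : ℕ → E ≃ₗᵢ[ℝ] E) : ℕ → E
  | 0 => x
  | m + 1 => b m (prods x b m)

lemma prods_norm (x : E) (b : ℕ → E ≃ₗᵢ[ℝ] E) (m : ℕ) : ‖prods x b m‖ = ‖x‖ := by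
  induction m with
  | zero => rfl
  | succ m ih =>
    show ‖b m (prods x b m)‖ = ‖x‖
    rw [(b m).norm_map, ih]

lemma prods_est (x : E) (b : ℕ → E ≃ₗᵢ[ℝ] E) (z : ℕ → E)
    (h1 : ∀ n, ‖b n x - x - z n‖ ≤ (1 / 4 : ℝ) ^ n)
    (h2 : ∀ m n, m < n → ‖b n (z m) - z m‖ ≤ (1 / 4 : ℝ) ^ n) (m : ℕ) :
    ‖prods x b m - x - ∑ l ∈ Finset.range m, z l‖ ≤ 2 - 2 * (1 / 2 : ℝ) ^ m := by
  induction m with
  | zero => simp [prods]
  | succ m ih =>
    rw [Finset.sum_range_succ]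
    set Z := ∑ l ∈ Finset.range m, z l with hZ
    have e : prods x b (m + 1) - x - (Z + z m) = b m (prods x b m - x - Z) + (b m x - x - z m) +
        (b m Z - Z) := by
      show b m (prods x b m) - x - (Z + z m) = _
      rw [map_sub, map_sub]; abel
    rw [e]
    have h3 : ‖b m Z - Z‖ ≤ m * (1 / 4 : ℝ) ^ m := by
      have : b m Z - Z = ∑ l ∈ Finset.range m, (b m (z l) - z l) := by
        rw [hZ, map_sum, ← Finset.sum_sub_distrib]
      rw [this]
      refine (norm_sum_le_of_le _ fun l hl => h2 l m (Finset.mem_range.1 hl)).trans ?_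
      rw [Finset.sum_const, Finset.card_range, nsmul_eq_mul]
    have h4 : ‖b m (prods x b m - x - Z)‖ ≤ 2 - 2 * (1 / 2 : ℝ) ^ m := by
      rw [(b m).norm_map]; exact ih
    have h5 : ((m : ℝ) + 1) * (1 / 4 : ℝ) ^ m ≤ (1 / 2 : ℝ) ^ m := by
      have h6 : ((m : ℝ) + 1) ≤ 2 ^ m := by
        have := Nat.lt_two_pow_self (n := m)
        have h7 : m + 1 ≤ 2 ^ m := this
        exact_mod_cast h7
      have h8 : (1 / 2 : ℝ) ^ m = 2 ^ m * (1 / 4 : ℝ) ^ m := by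
        rw [← mul_pow]; norm_num
      rw [h8]
      gcongr
    have h9 : (1 / 2 : ℝ) ^ (m + 1) = (1 / 2 : ℝ) ^ m / 2 := by rw [pow_succ]; ring
    rw [h9]
    refine (norm_add₃_le).trans ?_
    have := h1 m
    linarith

/-- **Weak convergence.** Let `M` be a compact operator and `x` a vector. There are no isometries
`b` which are close to the identity on arbitrary finite subsets of `L`, with `b x - x` close to `L`
and `M (b x - x)` bounded away from zero. -/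
theorem weak_null {M : E →L[ℝ] E} (hM : IsCompactOperator M) (x : E) {c : ℝ} (hc : 0 < c)
    (L : Set E) (H : ∀ Y : Finset E, (∀ y ∈ Y, y ∈ L) → ∀ ε : ℝ, 0 < ε → ∃ b : E ≃ₗᵢ[ℝ] E,
      c ≤ ‖M (b x - x)‖ ∧ (∀ y ∈ Y, ‖b y - y‖ < ε) ∧ ∃ z ∈ L, ‖b x - x - z‖ < ε) : False := by
  classical
  obtain ⟨f, hf1, hf2⟩ := exists_seq_of_forall_finset_exists
    (α := (E ≃ₗᵢ[ℝ] E) × E × ℕ)
    (fun a => c ≤ ‖M (a.1 x - x)‖ ∧ a.2.1 ∈ L ∧ ‖a.1 x - x - a.2.1‖ ≤ (1 / 4 : ℝ) ^ a.2.2)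
    (fun a a' => a.2.2 < a'.2.2 ∧ ‖a'.1 a.2.1 - a.2.1‖ ≤ (1 / 4 : ℝ) ^ a'.2.2) (by
      intro s hs
      set N := s.sup (fun a => a.2.2) + 1 with hN
      obtain ⟨b, hb1, hb2, z, hz, hbz⟩ := H (s.image fun a => a.2.1) (by
        intro y hy
        obtain ⟨a, ha, rfl⟩ := Finset.mem_image.1 hy
        exact (hs a ha).2.1) ((1 / 4 : ℝ) ^ N) (by positivity)
      refine ⟨(b, z, N), ⟨hb1, hz, hbz.le⟩, fun a ha => ⟨?_, ?_⟩⟩
      · exact Nat.lt_succ_of_le (Finset.le_sup (f := fun a : (E ≃ₗᵢ[ℝ] E) × E × ℕ => a.2.2) ha)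
      · exact (hb2 _ (Finset.mem_image_of_mem _ ha)).le)
  have hmono : StrictMono fun n => (f n).2.2 := fun m n hmn => (hf2 m n hmn).1
  have hN : ∀ n, n ≤ (f n).2.2 := fun n => hmono.id_le n
  have hpow : ∀ n, (1 / 4 : ℝ) ^ (f n).2.2 ≤ (1 / 4 : ℝ) ^ n := fun n =>
    pow_le_pow_of_le_one (by norm_num) (by norm_num) (hN n)
  -- a convergent subsequence
  have hM' : IsCompactOperator (M : E →ₗ[ℝ] E) := hM
  obtain ⟨C, hC, hsub⟩ := hM'.image_closedBall_subset_compact (2 * ‖x‖)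
  have hmem : ∀ n, M ((f n).1 x - x) ∈ C := fun n => hsub ⟨(f n).1 x - x, by
    rw [mem_closedBall_zero_iff]
    refine (norm_sub_le _ _).trans ?_
    rw [(f n).1.norm_map]; linarith, rfl⟩
  obtain ⟨v, -, φ, hφ, hlim⟩ := hC.tendsto_subseq hmem
  have hφn : ∀ n, n ≤ φ n := fun n => hφ.id_le n
  have hpow' : ∀ n, (1 / 4 : ℝ) ^ (φ n) ≤ (1 / 4 : ℝ) ^ n := fun n =>
    pow_le_pow_of_le_one (by norm_num) (by norm_num) (hφn n)
  have hv : c ≤ ‖v‖ := ge_of_tendsto' hlim.norm fun n => (hf1 (φ n)).1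
  let b : ℕ → E ≃ₗᵢ[ℝ] E := fun n => (f (φ n)).1
  let z : ℕ → E := fun n => (f (φ n)).2.1
  have h1 : ∀ n, ‖b n x - x - z n‖ ≤ (1 / 4 : ℝ) ^ n := fun n =>
    (hf1 (φ n)).2.2.trans ((hpow _).trans (hpow' n))
  have h2 : ∀ m n, m < n → ‖b n (z m) - z m‖ ≤ (1 / 4 : ℝ) ^ n := fun m n hmn =>
    (hf2 _ _ (hφ hmn)).2.trans ((hpow _).trans (hpow' n))
  have hMz : Tendsto (fun n => M (z n)) atTop (𝓝 v) := by
    have h3 : Tendsto (fun n => M (b n x - x - z n)) atTop (𝓝 0) := by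
      refine squeeze_zero_norm (a := fun n => ‖M‖ * (1 / 4 : ℝ) ^ n) (fun n => ?_) ?_
      · refine (M.le_opNorm _).trans ?_
        gcongr
        exact h1 n
      · have := (tendsto_pow_atTop_nhds_zero_of_lt_one (r := (1 / 4 : ℝ)) (by norm_num)
          (by norm_num)).const_mul ‖M‖
        rw [mul_zero] at this
        exact this
    have h4 := hlim.sub h3
    rw [sub_zero] at h4
    refine h4.congr fun n => ?_
    show M ((f (φ n)).1 x - x) - M (b n x - x - z n) = M (z n)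
    rw [← map_sub]
    congr 1
    show (b n x - x) - (b n x - x - z n) = z n
    abel
  have hbound : ∀ m, ‖∑ l ∈ Finset.range m, z l‖ ≤ 2 * ‖x‖ + 2 := by
    intro m
    have h3 := prods_est x b z h1 h2 m
    have h4 := prods_norm x b m
    have e : ∑ l ∈ Finset.range m, z l = prods x b m - x -
        (prods x b m - x - ∑ l ∈ Finset.range m, z l) := by abel
    rw [e]
    refine (norm_sub_le _ _).trans ?_
    have h5 := norm_sub_le (prods x b m) x
    have h6 : (0 : ℝ) ≤ (1 / 2 : ℝ) ^ m := by positivity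
    linarith
  have hces := hMz.cesaro_smul
  have hzero : Tendsto (fun n : ℕ => (n⁻¹ : ℝ) • ∑ i ∈ Finset.range n, M (z i)) atTop (𝓝 0) := by
    refine squeeze_zero_norm (a := fun n : ℕ => (n⁻¹ : ℝ) * (‖M‖ * (2 * ‖x‖ + 2))) (fun n => ?_) ?_
    · rw [norm_smul, norm_inv, Real.norm_eq_abs, abs_of_nonneg (Nat.cast_nonneg n), ← map_sum]
      have := (M.le_opNorm (∑ l ∈ Finset.range n, z l)).trans
        (mul_le_mul_of_nonneg_left (hbound n) (norm_nonneg M))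
      gcongr
    · have := (tendsto_inv_atTop_nhds_zero_nat (𝕜 := ℝ)).mul_const (‖M‖ * (2 * ‖x‖ + 2))
      rw [zero_mul] at this
      exact this
  have h0 := tendsto_nhds_unique hces hzero
  rw [h0, norm_zero] at hv
  linarith

end Pool.Agent.J6H26.CP
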