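import Pool.Agent.J6H26.CP.Comm

/-! # Riesz perturbations of the identity -/

set_option autoImplicit false

namespace Pool.Agent.J6H26.CP

open Pool.Agent.J6H26.FR Filter Topology

variable {E : Type*} [NormedAddCommGroup E] [NormedSpace ℝ E]

/-- a closed subspace `V` with `T V = V` on which `T - 1` is bounded below is finite-dimensional -/
def Ri (T : E ≃ₗᵢ[ℝ] E) : Prop :=
  ∀ V : Submodule ℝ E, IsClosed (V : Set E) → (∀ v ∈ V, T v ∈ V) → (∀ v ∈ V, T⁻¹ v ∈ V) →
    (∃ c : ℝ, 0 < c ∧ ∀ v ∈ V, c * ‖v‖ ≤ ‖T v - v‖) → FiniteDimensional ℝ V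

lemma pow_near (T : E ≃ₗᵢ[ℝ] E) (v : E) (k : ℤ) : ‖(T ^ k) v - v‖ ≤ |(k : ℝ)| * ‖T v - v‖ := by
  have hn : ∀ (R : E ≃ₗᵢ[ℝ] E) (j : ℕ), ‖(R ^ j) v - v‖ ≤ (j : ℝ) * ‖R v - v‖ := by
    intro R j
    induction j with
    | zero =>
      rw [pow_zero]
      show ‖v - v‖ ≤ _
      rw [sub_self, norm_zero]
      positivity
    | succ j ih =>
      have e : (R ^ (j + 1)) v - v = (R ^ j) (R v - v) + ((R ^ j) v - v) := by
        rw [pow_succ, map_sub]
        show (R ^ j) (R v) - v = _
        abel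
      rw [e]
      refine (norm_add_le _ _).trans ?_
      rw [(R ^ j).norm_map]
      push_cast
      linarith
  cases k with
  | ofNat j =>
    rw [Int.ofNat_eq_natCast, zpow_natCast]
    have := hn T j
    simpa using this
  | negSucc j =>
    rw [zpow_negSucc]
    have h1 := hn T (j + 1)
    have e : (T ^ (j + 1))⁻¹ v - v = -((T ^ (j + 1))⁻¹ ((T ^ (j + 1)) v - v)) := by
      rw [map_sub]
      have : (T ^ (j + 1))⁻¹ ((T ^ (j + 1)) v) = v := (T ^ (j + 1)).symm_apply_apply v
      rw [this]; abel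
    rw [e, norm_neg, ((T ^ (j + 1))⁻¹).norm_map]
    have h2 : |((Int.negSucc j : ℤ) : ℝ)| = ((j + 1 : ℕ) : ℝ) := by
      rw [Int.cast_negSucc, abs_neg, abs_of_nonneg (by positivity)]
    rw [h2]
    exact h1

variable [CompleteSpace E]

/-- the windows vanish asymptotically on almost fixed vectors -/
lemma Fop_tendsto (T : E ≃ₗᵢ[ℝ] E) {a : ℤ → ℝ} (ha : Summable fun k => |a k|) (h0 : HasSum a 0)
    {u : ℕ → E} (hu : ∀ n, ‖u n‖ = 1) (hl : Tendsto (fun n => ‖T (u n) - u n‖) atTop (𝓝 0)) :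
    Tendsto (fun n => Fop T a (u n)) atTop (𝓝 0) := by
  have h1 : ∀ n, Fop T a (u n) = ∑' k : ℤ, a k • ((T ^ k) (u n) - u n) := by
    intro n
    have h2 : HasSum (fun k => a k • op (T ^ k)) (Fop T a) := (summable_term T ha).hasSum
    have h3 : HasSum (fun k => (a k • op (T ^ k)) (u n)) (Fop T a (u n)) :=
      h2.mapL (ContinuousLinearMap.apply ℝ E (u n))
    have h4 : HasSum (fun k => a k • u n) ((0 : ℝ) • u n) := h0.smul_const _
    have h5 := h3.sub h4
    rw [zero_smul, sub_zero] at h5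
    rw [← h5.tsum_eq]
    refine tsum_congr fun k => ?_
    show a k • (T ^ k) (u n) - a k • u n = _
    rw [smul_sub]
  have h2 : Tendsto (fun n => ∑' k : ℤ, a k • ((T ^ k) (u n) - u n)) atTop
      (𝓝 (∑' _k : ℤ, (0 : E))) := by
    refine tendsto_tsum_of_dominated_convergence (bound := fun k => |a k| * 2)
      (ha.mul_right 2) (fun k => ?_) (Filter.Eventually.of_forall fun n k => ?_)
    · have h3 : Tendsto (fun n => |a k| * (|(k : ℝ)| * ‖T (u n) - u n‖)) atTop (𝓝 0) := by
        have := (hl.const_mul |(k : ℝ)|).const_mul |a k|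
        rw [mul_zero, mul_zero] at this
        exact this
      refine squeeze_zero_norm (fun n => ?_) h3
      rw [norm_smul, Real.norm_eq_abs]
      have := pow_near T (u n) k
      gcongr
    · rw [norm_smul, Real.norm_eq_abs]
      have : ‖(T ^ k) (u n) - u n‖ ≤ 2 := by
        refine (norm_sub_le _ _).trans ?_
        rw [(T ^ k).norm_map, hu]; norm_num
      gcongr
  rw [tsum_zero] at h2
  exact h2.congr fun n => (h1 n).symm

/-- the windows of a Riesz perturbation of the identity have finite rank -/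
theorem riesz_win {T : E ≃ₗᵢ[ℝ] E} (hT : Ri T) {η : ℝ} (h0 : 0 < η) (h1 : η ≤ 1) :
    FinK (Fop T (aa η)) := by
  have s1 := aa_summable (δ := η / 2) (by linarith) (by linarith)
  set A : E →L[ℝ] E := Fop T (aa (η / 2)) with hA
  let V : Submodule ℝ E := LinearMap.ker ((A - 1 : E →L[ℝ] E) : E →ₗ[ℝ] E)
  have hV : ∀ v, v ∈ V ↔ A v = v := by
    intro v
    rw [LinearMap.mem_ker]
    show A v - v = 0 ↔ _
    exact sub_eq_zero
  have hcomm : ∀ R : E ≃ₗᵢ[ℝ] E, R * T = T * R → ∀ v ∈ V, R v ∈ V := by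
    intro R hR v hv
    rw [hV] at hv ⊢
    have h2 : op R * op T = op T * op R := by rw [← op_mul, ← op_mul, hR]
    have h3 := Fop_comm_of T s1 (op R) h2
    have h4 := congrArg (fun B : E →L[ℝ] E => B v) h3
    have h5 : R (A v) = A (R v) := h4
    rw [← h5, hv]
  have hVf : FiniteDimensional ℝ V := by
    refine hT V (ContinuousLinearMap.isClosed_ker (A - 1)) (hcomm T rfl)
      (hcomm T⁻¹ (by rw [inv_mul_cancel, mul_inv_cancel])) ?_
    by_contra hcon
    push Not at hcon
    have hpos : ∀ n : ℕ, (0 : ℝ) < 1 / ((n : ℝ) + 1) := fun n => by positivity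
    choose v hv hvn using fun n : ℕ => hcon (1 / ((n : ℝ) + 1)) (hpos n)
    have hne : ∀ n, 0 < ‖v n‖ := by
      intro n
      rw [norm_pos_iff]
      intro h
      have := hvn n
      rw [h, map_zero, sub_zero, norm_zero, mul_zero] at this
      exact lt_irrefl _ this
    let u : ℕ → E := fun n => ‖v n‖⁻¹ • v n
    have hu : ∀ n, ‖u n‖ = 1 := fun n => by
      show ‖‖v n‖⁻¹ • v n‖ = 1
      rw [norm_smul, norm_inv, norm_norm, inv_mul_cancel₀ (hne n).ne']
    have hu2 : ∀ n, ‖T (u n) - u n‖ ≤ 1 / ((n : ℝ) + 1) := by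
      intro n
      show ‖T (‖v n‖⁻¹ • v n) - ‖v n‖⁻¹ • v n‖ ≤ _
      rw [map_smul, ← smul_sub, norm_smul, norm_inv, norm_norm, inv_mul_le_iff₀ (hne n)]
      rw [mul_comm]
      exact (hvn n).le
    have hl : Tendsto (fun n => ‖T (u n) - u n‖) atTop (𝓝 0) :=
      squeeze_zero (fun _ => norm_nonneg _) hu2 tendsto_one_div_add_atTop_nhds_zero_nat
    have h2 := Fop_tendsto T s1 (aa_sum (by linarith) (by linarith)) hu hl
    have h3 : ∀ n, ‖A (u n)‖ = 1 := by
      intro n
      have : u n ∈ V := V.smul_mem _ (hv n)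
      rw [(hV _).1 this, hu]
    have h4 := h2.norm
    rw [norm_zero] at h4
    have h5 := tendsto_nhds_unique (h4.congr h3) tendsto_const_nhds
    exact zero_ne_one h5
  refine FinK.of_le hVf fun x => ?_
  rw [hV]
  have h2 := Fop_disj T (η := η) (η' := η / 2) (by linarith) (by linarith) h1
  have h3 : Fop T (aa (η / 2)) * Fop T (aa η) = Fop T (aa η) := by
    rw [Fop_aa T (δ := η / 2) (by linarith) (by linarith), sub_mul, one_mul, h2, sub_zero]
  exact congrArg (fun z : E →L[ℝ] E => z x) h3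

omit [CompleteSpace E] in
lemma compact_of_finK {A : E →L[ℝ] E} (hA : FinK A) : IsCompactOperator A := by
  have hA' : FiniteDimensional ℝ (LinearMap.range (A : E →ₗ[ℝ] E)) := hA
  let B : E →L[ℝ] (LinearMap.range (A : E →ₗ[ℝ] E)) := A.codRestrict _ fun x => ⟨x, rfl⟩
  have hP : ProperSpace (LinearMap.range (A : E →ₗ[ℝ] E)) := FiniteDimensional.proper_real _
  have hB : IsCompactOperator B := isCompactOperator_of_locallyCompactSpace_dom B
  exact hB.clm_comp (Submodule.subtypeL _)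

/-- a closedness lemma -/
lemma compact_of_approx {A : E →L[ℝ] E} (h : ∀ ε : ℝ, 0 < ε → ∃ B : E →L[ℝ] E,
    IsCompactOperator B ∧ ‖A - B‖ ≤ ε) : IsCompactOperator A := by
  have hcl : IsClosed {A : E →L[ℝ] E | IsCompactOperator A} := isClosed_setOfPred_isCompactOperator
  have : A ∈ closure {A : E →L[ℝ] E | IsCompactOperator A} := by
    rw [Metric.mem_closure_iff]
    intro ε hε
    obtain ⟨B, hB, hAB⟩ := h (ε / 2) (by positivity)
    refine ⟨B, hB, ?_⟩
    rw [dist_eq_norm]
    linarith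
  rw [hcl.closure_eq] at this
  exact this

/-- if the windows have finite rank then `T - 1` is compact -/
theorem cpt_of_win {T : E ≃ₗᵢ[ℝ] E} (h : ∀ η : ℝ, 0 < η → η ≤ 1 → FinK (Fop T (aa η))) :
    Cpt T := by
  -- `Co T - 1`
  have h1 : IsCompactOperator (Co T - 1 : E →L[ℝ] E) := by
    refine compact_of_approx fun ε hε => ?_
    obtain ⟨δ, h0, h1, h2⟩ := Co_small T hε
    refine ⟨(Co T - 1) * Fop T (aa δ), compact_of_finK ((h δ h0 h1).mul_left _), ?_⟩
    have e : (Co T - 1) - (Co T - 1) * Fop T (aa δ) = (Co T - 1) * Fop T (pp δ) := by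
      rw [Fop_aa T h0 h1, mul_sub, mul_one, sub_sub_cancel]
    rw [e]
    exact h2
  -- the square
  set D : E →L[ℝ] E := op T - 1 with hD
  have h2 : IsCompactOperator (D * D : E →L[ℝ] E) := by
    have e : D * D = (2 : ℝ) • (op T * (Co T - 1)) := by
      rw [hD, Co, mul_sub (op T), mul_one, mul_smul_comm, mul_add, op_mul_inv, smul_sub, smul_smul]
      norm_num
      rw [sub_mul, mul_sub, mul_one, one_mul, two_smul]
      abel
    rw [e]
    exact (isComp_mul_left h1 (op T)).smul (2 : ℝ)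
  -- the remainders
  have h3 : ∀ n : ℕ, IsCompactOperator (op T ^ n - 1 - (n : ℝ) • D : E →L[ℝ] E) := by
    intro n
    induction n with
    | zero =>
      have e : op T ^ 0 - 1 - ((0 : ℕ) : ℝ) • D = 0 := by simp
      rw [e]
      exact isCompactOperator_zero
    | succ n ih =>
      have hS : op T = 1 + D := by rw [hD]; abel
      have e : op T ^ (n + 1) - 1 - ((n + 1 : ℕ) : ℝ) • D =
          op T * (op T ^ n - 1 - (n : ℝ) • D) + (n : ℝ) • (D * D) := by
        have e1 : op T ^ (n + 1) = op T * op T ^ n := pow_succ' _ _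
        have e2 : op T * (op T ^ n - 1 - (n : ℝ) • D) =
            op T * op T ^ n - op T - (n : ℝ) • (op T * D) := by
          rw [mul_sub, mul_sub, mul_one, mul_smul_comm]
        have e3 : op T * D = D + D * D := by
          rw [hS, add_mul, one_mul]
        rw [e1, e2, e3, smul_add]
        have e4 : ((n + 1 : ℕ) : ℝ) • D = (n : ℝ) • D + D := by
          rw [Nat.cast_add, Nat.cast_one, add_smul, one_smul]
        rw [e4]
        generalize op T * op T ^ n = P
        generalize (n : ℝ) • D = Q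
        generalize (n : ℝ) • (D * D) = R
        rw [hS]
        abel
      rw [e]
      exact (isComp_mul_left ih (op T)).add (h2.smul (n : ℝ))
  have h4 : IsCompactOperator D := by
    refine compact_of_approx fun ε hε => ?_
    obtain ⟨n, hn⟩ := exists_nat_gt (2 / ε)
    have hn0 : (0 : ℝ) < n := lt_trans (by positivity) hn
    refine ⟨-(n : ℝ)⁻¹ • (op T ^ n - 1 - (n : ℝ) • D), (h3 n).smul _, ?_⟩
    have e : D - -(n : ℝ)⁻¹ • (op T ^ n - 1 - (n : ℝ) • D) = (n : ℝ)⁻¹ • (op T ^ n - 1) := by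
      rw [smul_sub, smul_smul, neg_mul, inv_mul_cancel₀ hn0.ne', neg_one_smul, neg_smul]
      abel
    rw [e, norm_smul, norm_inv, Real.norm_eq_abs, abs_of_pos hn0, inv_mul_le_iff₀ hn0]
    have h5 : ‖op T ^ n - 1‖ ≤ 2 := by
      refine (norm_sub_le _ _).trans ?_
      have := op_pow_norm T n
      have := norm_one_le (E := E)
      linarith
    rw [div_lt_iff₀ hε] at hn
    linarith
  exact h4

/-- **Theorem C, general form.** -/
theorem para_riesz {G : Subgroup (E ≃ₗᵢ[ℝ] E)} (hG : AT G) {T : E ≃ₗᵢ[ℝ] E} (hT : Ri T)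
    (hT1 : T ≠ 1) (x y : E) :
    ‖x + y‖ ^ 2 + ‖x - y‖ ^ 2 = 2 * (‖x‖ ^ 2 + ‖y‖ ^ 2) :=
  para_cpt hG (cpt_of_win fun _ h0 h1 => riesz_win hT h0 h1) hT1 x y

end Pool.Agent.J6H26.CP
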