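import Pool.Agent.J6H26.CP.Ultra

/-! # Sequences of isometries tending to the identity -/

set_option autoImplicit false

namespace Pool.Agent.J6H26.CP

open Pool.Agent.J6H26.FR Filter Topology
open scoped BoundedContinuousFunction

variable {E : Type*} [NormedAddCommGroup E] [NormedSpace ℝ E]

lemma op_pow_norm (S : E ≃ₗᵢ[ℝ] E) (k : ℕ) : ‖op S ^ k‖ ≤ 1 := by
  induction k with
  | zero => rw [pow_zero]; exact norm_one_le
  | succ k ih =>
    rw [pow_succ]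
    refine (norm_mul_le _ _).trans ?_
    calc ‖op S ^ k‖ * ‖op S‖ ≤ 1 * 1 := by
          gcongr
          exact op_norm_le S
      _ = 1 := one_mul 1

/-- powers of an isometry -/
lemma pow_est (S : E ≃ₗᵢ[ℝ] E) (k : ℕ) :
    ‖op S ^ k - 1 - (k : ℝ) • (op S - 1)‖ ≤ (k : ℝ) ^ 2 / 2 * ‖(op S - 1) * (op S - 1)‖ := by
  induction k with
  | zero => simp
  | succ k ih =>
    set D : E →L[ℝ] E := op S - 1 with hD
    have hS : op S = 1 + D := by rw [hD]; abel
    have e : op S ^ (k + 1) - 1 - ((k + 1 : ℕ) : ℝ) • D =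
        op S * (op S ^ k - 1 - (k : ℝ) • D) + (k : ℝ) • (D * D) := by
      have e1 : op S ^ (k + 1) = op S * op S ^ k := pow_succ' _ _
      have e2 : op S * (op S ^ k - 1 - (k : ℝ) • D) =
          op S * op S ^ k - op S - (k : ℝ) • (op S * D) := by
        rw [mul_sub, mul_sub, mul_one, mul_smul_comm]
      have e3 : op S * D = D + D * D := by
        rw [hS, add_mul, one_mul]
      rw [e1, e2, e3, smul_add]
      have e4 : ((k + 1 : ℕ) : ℝ) • D = (k : ℝ) • D + D := by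
        rw [Nat.cast_add, Nat.cast_one, add_smul, one_smul]
      rw [e4]
      generalize op S * op S ^ k = P
      generalize (k : ℝ) • D = Q
      generalize (k : ℝ) • (D * D) = R
      rw [hS]
      abel
    rw [e]
    refine (norm_add_le _ _).trans ?_
    have h1 : ‖op S * (op S ^ k - 1 - (k : ℝ) • D)‖ ≤ (k : ℝ) ^ 2 / 2 * ‖D * D‖ := by
      rw [norm_op_mul]; exact ih
    have h2 : ‖(k : ℝ) • (D * D)‖ = (k : ℝ) * ‖D * D‖ := by
      rw [norm_smul, Real.norm_eq_abs, abs_of_nonneg (Nat.cast_nonneg k)]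
    rw [h2]
    have h3 : ((k + 1 : ℕ) : ℝ) = (k : ℝ) + 1 := by push_cast; ring
    rw [h3]
    nlinarith [norm_nonneg (D * D)]

/-- an isometry with small second difference is near the identity -/
lemma near_of_sq (S : E ≃ₗᵢ[ℝ] E) (k : ℕ) :
    (k : ℝ) * ‖op S - 1‖ ≤ 2 + (k : ℝ) ^ 2 / 2 * ‖(op S - 1) * (op S - 1)‖ := by
  have h1 := pow_est S k
  have h2 : ‖(k : ℝ) • (op S - 1)‖ = (k : ℝ) * ‖op S - 1‖ := by
    rw [norm_smul, Real.norm_eq_abs, abs_of_nonneg (Nat.cast_nonneg k)]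
  have h3 : (k : ℝ) • (op S - 1) = op S ^ k - 1 - (op S ^ k - 1 - (k : ℝ) • (op S - 1)) := by abel
  rw [← h2, h3]
  refine (norm_sub_le _ _).trans ?_
  have h4 : ‖op S ^ k - 1‖ ≤ 2 := by
    refine (norm_sub_le _ _).trans ?_
    have := op_pow_norm S k
    have := norm_one_le (E := E)
    linarith
  linarith

lemma norm_sq_le (D : E →L[ℝ] E) : ‖D * D‖ ≤ ‖D‖ ^ 2 := by
  rw [pow_two]; exact norm_mul_le _ _

/-- nonnegative multiples of a normalized difference -/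
lemma pos_est (S : E ≃ₗᵢ[ℝ] E) {ε : ℝ} (hε : 0 < ε) (hS : ‖op S - 1‖ ≤ ε) {s : ℝ} (hs : 0 ≤ s) :
    ‖1 + (s / ε) • (op S - 1)‖ ≤ 1 + s ^ 2 / 2 + ε := by
  set D : E →L[ℝ] E := op S - 1 with hD
  set k : ℕ := ⌊s / ε⌋₊ with hk
  have hk1 : (k : ℝ) ≤ s / ε := Nat.floor_le (by positivity)
  have hk2 : s / ε < k + 1 := Nat.lt_floor_add_one _
  have e : 1 + (s / ε) • D = op S ^ k - (op S ^ k - 1 - (k : ℝ) • D) + (s / ε - k) • D := by
    rw [sub_smul]; abel
  rw [e]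
  refine (norm_add_le _ _).trans ?_
  have h1 : ‖op S ^ k - (op S ^ k - 1 - (k : ℝ) • D)‖ ≤ 1 + s ^ 2 / 2 := by
    refine (norm_sub_le _ _).trans ?_
    have h2 := pow_est S k
    have h3 := op_pow_norm S k
    have h4 : (k : ℝ) ^ 2 / 2 * ‖D * D‖ ≤ s ^ 2 / 2 := by
      have h5 : ‖D * D‖ ≤ ε ^ 2 := (norm_sq_le D).trans (by gcongr)
      have h6 : (k : ℝ) * ε ≤ s := by rwa [le_div_iff₀ hε] at hk1
      have h7 : (k : ℝ) ^ 2 * ε ^ 2 ≤ s ^ 2 := by
        rw [← mul_pow]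
        gcongr
      calc (k : ℝ) ^ 2 / 2 * ‖D * D‖ ≤ (k : ℝ) ^ 2 / 2 * ε ^ 2 := by gcongr
        _ ≤ s ^ 2 / 2 := by linarith
    linarith
  have h2 : ‖(s / ε - k) • D‖ ≤ ε := by
    rw [norm_smul, Real.norm_eq_abs, abs_of_nonneg (by linarith)]
    calc (s / ε - k) * ‖D‖ ≤ 1 * ε := by
          gcongr
          linarith
      _ = ε := one_mul ε
  linarith

/-- multiples of a normalized difference -/
lemma abs_est (S : E ≃ₗᵢ[ℝ] E) {ε : ℝ} (hε : 0 < ε) (hS : ‖op S - 1‖ ≤ ε) {s : ℝ} (hs : |s| ≤ 1) :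
    ‖1 + (s / ε) • (op S - 1)‖ ≤ 1 + s ^ 2 / 2 + 2 * ε := by
  by_cases h0 : 0 ≤ s
  · exact (pos_est S hε hS h0).trans (by linarith)
  push Not at h0
  have hS' : ‖op S⁻¹ - 1‖ ≤ ε := by
    have : op S⁻¹ - 1 = -(op S⁻¹ * (op S - 1)) := by
      rw [mul_sub, op_inv_mul, mul_one]; abel
    rw [this, norm_neg, norm_op_mul]
    exact hS
  have h1 := pos_est S⁻¹ hε hS' (s := -s) (by linarith)
  have e : 1 + (s / ε) • (op S - 1) = (1 + (-s / ε) • (op S⁻¹ - 1)) -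
      (-s / ε) • ((op S - 1) + (op S⁻¹ - 1)) := by
    rw [smul_add, neg_div, neg_smul, neg_smul]
    abel
  have e2 : (op S - 1) + (op S⁻¹ - 1) = -((op S⁻¹ - 1) * (op S - 1)) := by
    rw [sub_mul, mul_sub, op_inv_mul, mul_one, one_mul]
    abel
  rw [e]
  refine (norm_sub_le _ _).trans ?_
  have h2 : ‖(-s / ε) • ((op S - 1) + (op S⁻¹ - 1))‖ ≤ ε := by
    rw [e2, norm_smul, norm_neg, Real.norm_eq_abs, abs_of_nonneg (div_nonneg (by linarith) hε.le)]
    have h3 : ‖(op S⁻¹ - 1) * (op S - 1)‖ ≤ ε * ε := by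
      refine (norm_mul_le _ _).trans ?_
      gcongr
    have h4 : -s ≤ 1 := by linarith [neg_abs_le s]
    calc -s / ε * ‖(op S⁻¹ - 1) * (op S - 1)‖ ≤ -s / ε * (ε * ε) := by
          have : 0 ≤ -s / ε := div_nonneg (by linarith) hε.le
          gcongr
      _ = -s * ε := by field_simp
      _ ≤ 1 * ε := by gcongr
      _ = ε := one_mul ε
  have h5 : (-s) ^ 2 = s ^ 2 := by ring
  rw [h5] at h1
  linarith

/-- a compact operator on an infinite-dimensional space is not bounded below -/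
lemma exists_small (hE : ¬ FiniteDimensional ℝ E) {K : E →L[ℝ] E}
    (hK : IsCompactOperator K) {c : ℝ} (hc : 0 < c) : ∃ x : E, ‖x‖ = 1 ∧ ‖K x‖ < c := by
  by_contra hcon
  push Not at hcon
  apply hE
  have hb : ∀ x : E, ‖x‖ ≤ c⁻¹ * ‖K x‖ := by
    intro x
    by_cases hx : x = 0
    · rw [hx]; simp
    have hn : ‖x‖ ≠ 0 := norm_ne_zero_iff.2 hx
    have h1 := hcon (‖x‖⁻¹ • x) (by rw [norm_smul, norm_inv, norm_norm, inv_mul_cancel₀ hn])
    rw [map_smul, norm_smul, norm_inv, norm_norm, inv_mul_eq_div,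
      le_div_iff₀ (lt_of_le_of_ne (norm_nonneg _) hn.symm)] at h1
    rw [inv_mul_eq_div, le_div_iff₀ hc]
    linarith
  by_contra hE
  obtain ⟨R, f, hR, hf1, hf2⟩ := exists_seq_norm_le_one_le_norm_sub (𝕜 := ℝ) hE
  have hK' : IsCompactOperator (K : E →ₗ[ℝ] E) := hK
  obtain ⟨C, hC, hsub⟩ := hK'.image_closedBall_subset_compact R
  have hmem : ∀ n, K (f n) ∈ C := fun n => hsub ⟨f n, by
    rw [mem_closedBall_zero_iff]; exact hf1 n, rfl⟩
  obtain ⟨a, -, φ, hφ, hlim⟩ := hC.tendsto_subseq hmem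
  have hcs := hlim.cauchySeq
  rw [Metric.cauchySeq_iff'] at hcs
  obtain ⟨N, hN⟩ := hcs c hc
  have h1 := hN (N + 1) (Nat.le_succ N)
  have h2 : 1 ≤ ‖f (φ (N + 1)) - f (φ N)‖ := hf2 (hφ (Nat.lt_succ_self N)).ne'
  have h3 := hb (f (φ (N + 1)) - f (φ N))
  rw [map_sub] at h3
  rw [Function.comp_apply, Function.comp_apply, dist_eq_norm] at h1
  have h4 : c⁻¹ * ‖K (f (φ (N + 1))) - K (f (φ N))‖ < c⁻¹ * c := by
    have := inv_pos.2 hc
    gcongr
  rw [inv_mul_cancel₀ hc.ne'] at h4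
  linarith

/-- **Isometries tending to the identity.** They give a skew operator on the ultrapower, with a
nonzero kernel if the isometries are compact perturbations of the identity. -/
theorem exists_skew (hE : ¬ FiniteDimensional ℝ E)
    (hS : ∀ ε : ℝ, 0 < ε → ∃ S : E ≃ₗᵢ[ℝ] E, Cpt S ∧ S ≠ 1 ∧ ‖op S - 1‖ < ε) :
    ∃ Y : UP E →L[ℝ] UP E, Y ∈ gg (UP E) ∧ Y ≠ 0 ∧ ∃ X, X ≠ 0 ∧ Y X = 0 := by
  have hpos : ∀ n : ℕ, (0 : ℝ) < 1 / ((n : ℝ) + 1) := fun n => by positivity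
  choose S hSc hS1 hSn using fun n : ℕ => hS (1 / ((n : ℝ) + 1)) (hpos n)
  have hε0 : ∀ n, 0 < ‖op (S n) - 1‖ := by
    intro n
    rw [norm_pos_iff, sub_ne_zero]
    intro h
    apply hS1 n
    ext x
    exact congrArg (fun A : E →L[ℝ] E => A x) h
  set ε : ℕ → ℝ := fun n => ‖op (S n) - 1‖ with hε
  have hlim0 : Tendsto ε atTop (𝓝 0) :=
    squeeze_zero (fun n => (hε0 n).le) (fun n => (hSn n).le) tendsto_one_div_add_atTop_nhds_zero_nat
  have hlim : Tendsto ε uu (𝓝 0) := hlim0.mono_left uu_le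
  let A : ℕ → E →L[ℝ] E := fun n => (ε n)⁻¹ • (op (S n) - 1)
  have hA : ∀ n, ‖A n‖ = 1 := by
    intro n
    show ‖(ε n)⁻¹ • (op (S n) - 1)‖ = 1
    rw [norm_smul, norm_inv, Real.norm_eq_abs, abs_of_pos (hε0 n)]
    exact inv_mul_cancel₀ (hε0 n).ne'
  have hA1 : ∀ n, ‖A n‖ ≤ 1 := fun n => (hA n).le
  refine ⟨uop A 1 hA1, ?_, ?_, ?_⟩
  · -- skew
    have hmain : ∀ s : ℝ, |s| ≤ 1 → ‖1 + s • uop A 1 hA1‖ ≤ 1 + s ^ 2 / 2 := by
      intro s hs
      refine ContinuousLinearMap.opNorm_le_bound _ (by positivity) fun X => ?_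
      obtain ⟨x, rfl⟩ := mk_surj X
      have e : (1 + s • uop A 1 hA1) (mk x) = mk (x + s • sq A 1 hA1 x) := by
        show mk x + s • uop A 1 hA1 (mk x) = _
        rw [uop_mk, map_add, map_smul]
      rw [e]
      have hl : Tendsto (fun n => (1 + s ^ 2 / 2 + 2 * ε n) * ‖x n‖) uu
          (𝓝 ((1 + s ^ 2 / 2 + 2 * 0) * ‖mk x‖)) :=
        (tendsto_const_nhds.add (hlim.const_mul 2)).mul (mk_lim x)
      rw [mul_zero, add_zero] at hl
      refine le_of_tendsto_of_tendsto' (mk_lim _) hl fun n => ?_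
      have e2 : (x + s • sq A 1 hA1 x) n = (1 + (s / ε n) • (op (S n) - 1)) (x n) := by
        show x n + s • ((ε n)⁻¹ • ((op (S n) - 1 : E →L[ℝ] E) (x n))) =
          x n + (s / ε n) • ((op (S n) - 1 : E →L[ℝ] E) (x n))
        rw [smul_smul, div_eq_mul_inv]
      rw [e2]
      refine (ContinuousLinearMap.le_opNorm _ _).trans ?_
      have := abs_est (S n) (hε0 n) le_rfl hs
      gcongr
    show Sk _
    intro η hη
    refine ⟨min 1 (2 * η), by positivity, fun s hs => ?_⟩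
    have h1 : |s| ≤ 1 := (hs.trans_le (min_le_left _ _)).le
    have h2 : |s| ≤ 2 * η := (hs.trans_le (min_le_right _ _)).le
    refine (hmain s h1).trans ?_
    have h3 : s ^ 2 = |s| * |s| := by rw [← sq_abs, pow_two]
    have := abs_nonneg s
    nlinarith
  · -- nonzero
    intro h0
    have hex : ∀ n, ∃ x : E, ‖x‖ ≤ 1 ∧ 1 / 2 < ‖A n x‖ := by
      intro n
      obtain ⟨x, hx, hx2⟩ := ContinuousLinearMap.exists_lt_apply_of_lt_opNorm (A n)
        (r := 1 / 2) (by rw [hA n]; norm_num)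
      exact ⟨x, hx.le, hx2⟩
    choose x hx1 hx2 using hex
    let z : ℕ →ᵇ E := BoundedContinuousFunction.ofNormedAddCommGroupDiscrete x 1 hx1
    have h1 : uop A 1 hA1 (mk z) = 0 := by rw [h0]; rfl
    rw [uop_mk] at h1
    have h2 := mk_lim (sq A 1 hA1 z)
    rw [h1, norm_zero] at h2
    have h3 : (1 / 2 : ℝ) ≤ 0 := ge_of_tendsto' h2 fun n => (hx2 n).le
    norm_num at h3
  · -- the kernel
    have hAc : ∀ n, IsCompactOperator (A n) := by
      intro n
      have := (hSc n).isC.smul (ε n)⁻¹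
      exact this
    choose x hx1 hx2 using fun n : ℕ => exists_small hE (hAc n) (hpos n)
    let z : ℕ →ᵇ E := BoundedContinuousFunction.ofNormedAddCommGroupDiscrete x 1
      fun n => (hx1 n).le
    refine ⟨mk z, ?_, ?_⟩
    · intro h
      have h1 : ‖mk z‖ = 1 := mk_norm_eq (tendsto_const_nhds.congr fun n => (hx1 n).symm)
      rw [h, norm_zero] at h1
      exact zero_ne_one h1
    · rw [uop_mk, ← norm_eq_zero]
      refine mk_norm_eq ?_
      have h1 : Tendsto (fun n : ℕ => 1 / ((n : ℝ) + 1)) uu (𝓝 0) :=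
        tendsto_one_div_add_atTop_nhds_zero_nat.mono_left uu_le
      exact squeeze_zero (fun _ => norm_nonneg _) (fun n => (hx2 n).le) h1

end Pool.Agent.J6H26.CP
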