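import Pool.Agent.J6H26.CP.Fc
import Pool.Agent.J6H26.FR.Perturb

/-! # Skew operators (generators of one-parameter groups of isometries) -/

set_option autoImplicit false

namespace Pool.Agent.J6H26.CP

open Pool.Agent.J6H26.FR Filter Topology

variable {E : Type*} [NormedAddCommGroup E] [NormedSpace ℝ E]

/-- first order isometries -/
def Sk (Y : E →L[ℝ] E) : Prop :=
  ∀ ε : ℝ, 0 < ε → ∃ δ : ℝ, 0 < δ ∧ ∀ s : ℝ, |s| < δ → ‖1 + s • Y‖ ≤ 1 + ε * |s|

lemma norm_one_le : ‖(1 : E →L[ℝ] E)‖ ≤ 1 :=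
  ContinuousLinearMap.norm_id_le

lemma Sk.zero : Sk (0 : E →L[ℝ] E) := fun ε hε => ⟨1, one_pos, fun s _ => by
  rw [smul_zero, add_zero]
  have := norm_one_le (E := E)
  have h2 : 0 ≤ ε * |s| := by positivity
  linarith⟩

lemma Sk.add {Y Z : E →L[ℝ] E} (hY : Sk Y) (hZ : Sk Z) : Sk (Y + Z) := by
  intro ε hε
  obtain ⟨δ1, h1, H1⟩ := hY (ε / 6) (by positivity)
  obtain ⟨δ2, h2, H2⟩ := hZ (ε / 6) (by positivity)
  refine ⟨min (min δ1 δ2) (min (1 / (ε / 6)) (ε / (6 * (‖Y * Z‖ + 1)))), by positivity, fun s hs => ?_⟩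
  have hs1 : |s| < δ1 := lt_of_lt_of_le hs ((min_le_left _ _).trans (min_le_left _ _))
  have hs2 : |s| < δ2 := lt_of_lt_of_le hs ((min_le_left _ _).trans (min_le_right _ _))
  have hs3 : |s| < 1 / (ε / 6) := lt_of_lt_of_le hs ((min_le_right _ _).trans (min_le_left _ _))
  have hs4 : |s| < ε / (6 * (‖Y * Z‖ + 1)) :=
    lt_of_lt_of_le hs ((min_le_right _ _).trans (min_le_right _ _))
  have e : 1 + s • (Y + Z) = (1 + s • Y) * (1 + s • Z) - (s * s) • (Y * Z) := by
    rw [add_mul, one_mul, mul_add, mul_one, smul_mul_smul_comm, smul_add]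
    abel
  rw [e]
  have a1 := H1 s hs1
  have a2 := H2 s hs2
  have a3 := norm_sub_le ((1 + s • Y) * (1 + s • Z)) ((s * s) • (Y * Z))
  have a4 := norm_mul_le (1 + s • Y) (1 + s • Z)
  have a5 : ‖(s * s) • (Y * Z)‖ = |s| * |s| * ‖Y * Z‖ := by
    rw [norm_smul, Real.norm_eq_abs, abs_mul]
  have a6 : ‖1 + s • Y‖ * ‖1 + s • Z‖ ≤ (1 + ε / 6 * |s|) * (1 + ε / 6 * |s|) := by
    gcongr
  have hs0 := abs_nonneg s
  have a7 : |s| * (ε / 6) < 1 := by rwa [lt_div_iff₀ (by positivity)] at hs3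
  have a8 : |s| * (6 * (‖Y * Z‖ + 1)) < ε := by rwa [lt_div_iff₀ (by positivity)] at hs4
  have a9 : |s| * |s| * ‖Y * Z‖ ≤ |s| * (ε / 6) := by
    have : |s| * ‖Y * Z‖ ≤ ε / 6 := by nlinarith [norm_nonneg (Y * Z)]
    calc |s| * |s| * ‖Y * Z‖ = |s| * (|s| * ‖Y * Z‖) := by ring
      _ ≤ |s| * (ε / 6) := by gcongr
  have a10 : (ε / 6 * |s|) * (ε / 6 * |s|) ≤ ε / 6 * |s| := by
    have : 0 ≤ ε / 6 * |s| := by positivity
    nlinarith
  rw [a5] at a3
  nlinarith

lemma Sk.smul {Y : E →L[ℝ] E} (hY : Sk Y) (c : ℝ) : Sk (c • Y) := by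
  intro ε hε
  obtain ⟨δ, h1, H1⟩ := hY (ε / (|c| + 1)) (by positivity)
  refine ⟨δ / (|c| + 1), by positivity, fun s hs => ?_⟩
  have hc := abs_nonneg c
  have hs0 := abs_nonneg s
  rw [lt_div_iff₀ (by positivity)] at hs
  rw [smul_smul]
  have h2 : |s * c| < δ := by
    rw [abs_mul]; nlinarith
  refine (H1 _ h2).trans ?_
  rw [abs_mul]
  have : ε / (|c| + 1) * (|s| * |c|) ≤ ε * |s| := by
    rw [div_mul_eq_mul_div, div_le_iff₀ (by positivity)]
    nlinarith [mul_nonneg hε.le hs0]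
  linarith

lemma Sk.conj {Y : E →L[ℝ] E} (hY : Sk Y) (g : E ≃ₗᵢ[ℝ] E) : Sk (cj g Y) := by
  intro ε hε
  obtain ⟨δ, h1, H1⟩ := hY ε hε
  refine ⟨δ, h1, fun s hs => ?_⟩
  refine ContinuousLinearMap.opNorm_le_bound _ (by positivity) fun x => ?_
  have e : (1 + s • cj g Y) x = g ((1 + s • Y) (g.symm x)) := by
    show x + s • cj g Y x = g (g.symm x + s • Y (g.symm x))
    rw [map_add, map_smul, g.apply_symm_apply, cj_apply]
  rw [e, g.norm_map]
  refine ((1 + s • Y).le_opNorm _).trans ?_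
  rw [g.symm.norm_map]
  have := H1 s hs
  gcongr

/-- the closed space of skew operators -/
def gg (E : Type*) [NormedAddCommGroup E] [NormedSpace ℝ E] : Submodule ℝ (E →L[ℝ] E) where
  carrier := {Y | Sk Y}
  add_mem' := fun ha hb => ha.add hb
  zero_mem' := Sk.zero
  smul_mem' := fun c _ ha => ha.smul c

lemma gg_closed : IsClosed ((gg E : Submodule ℝ (E →L[ℝ] E)) : Set (E →L[ℝ] E)) := by
  rw [← closure_subset_iff_isClosed]
  intro Y hY
  show Sk Y
  intro ε hε
  obtain ⟨Z, hZ, hYZ⟩ := Metric.mem_closure_iff.1 hY (ε / 2) (by positivity)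
  obtain ⟨δ, h1, H1⟩ := (show Sk Z from hZ) (ε / 2) (by positivity)
  refine ⟨δ, h1, fun s hs => ?_⟩
  have e : 1 + s • Y = (1 + s • Z) + s • (Y - Z) := by rw [smul_sub]; abel
  rw [e]
  refine (norm_add_le _ _).trans ?_
  rw [norm_smul, Real.norm_eq_abs]
  rw [dist_eq_norm] at hYZ
  have h2 := H1 s hs
  have h3 : |s| * ‖Y - Z‖ ≤ |s| * (ε / 2) := by
    have := abs_nonneg s
    gcongr
  nlinarith

section Exp

variable [CompleteSpace E]

/-- skew operators generate contractions -/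
lemma Sk.exp_le {Y : E →L[ℝ] E} (hY : Sk Y) (t : ℝ) : ‖NormedSpace.exp (t • Y)‖ ≤ 1 := by
  letI : NormedAlgebra ℚ (E →L[ℝ] E) := NormedAlgebra.restrictScalars ℚ ℝ (E →L[ℝ] E)
  -- first order
  have hsm : ∀ ε : ℝ, 0 < ε → ∃ δ : ℝ, 0 < δ ∧ ∀ s : ℝ, |s| < δ →
      ‖NormedSpace.exp (s • Y)‖ ≤ 1 + ε * |s| := by
    intro ε hε
    obtain ⟨δ, h1, H1⟩ := hY (ε / 2) (by positivity)
    have hd := hasDerivAt_exp_smul_const (𝕂 := ℝ) Y (0 : ℝ)
    rw [zero_smul, NormedSpace.exp_zero, one_mul] at hd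
    have hd2 := (hasDerivAt_iff_isLittleO.1 hd).def (c := ε / 2) (by positivity)
    obtain ⟨r, hr, hr2⟩ := Metric.eventually_nhds_iff.1 hd2
    refine ⟨min δ r, by positivity, fun s hs => ?_⟩
    have h3 := hr2 (y := s) (by
      rw [Real.dist_eq, sub_zero]
      exact lt_of_lt_of_le hs (min_le_right _ _))
    simp only [sub_zero, zero_smul, NormedSpace.exp_zero, Real.norm_eq_abs] at h3
    have h4 := H1 s (lt_of_lt_of_le hs (min_le_left _ _))
    have e : NormedSpace.exp (s • Y) = (1 + s • Y) + (NormedSpace.exp (s • Y) - 1 - s • Y) := by abel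
    rw [e]
    refine (norm_add_le _ _).trans ?_
    linarith
  have key : ∀ ε : ℝ, 0 < ε → ‖NormedSpace.exp (t • Y)‖ ≤ Real.exp (ε * |t|) := by
    intro ε hε
    obtain ⟨δ, h1, H1⟩ := hsm ε hε
    obtain ⟨n, hn⟩ := exists_nat_gt (|t| / δ)
    have hn0 : 0 < (n : ℝ) := lt_of_le_of_lt (by positivity) hn
    have hn1 : n ≠ 0 := by
      rintro rfl
      simp at hn0
    have e : t • Y = n • ((t / n) • Y) := by
      rw [← Nat.cast_smul_eq_nsmul ℝ, smul_smul]
      congr 1
      field_simp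
    rw [e, NormedSpace.exp_nsmul]
    have h2 : |t / n| < δ := by
      rw [abs_div, abs_of_pos hn0, div_lt_iff₀ hn0]
      rw [div_lt_iff₀ h1] at hn
      linarith
    have h3 := H1 _ h2
    calc ‖NormedSpace.exp ((t / n) • Y) ^ n‖ ≤ ‖NormedSpace.exp ((t / n) • Y)‖ ^ n :=
          norm_pow_le' _ (Nat.pos_of_ne_zero hn1)
      _ ≤ (1 + ε * |t / n|) ^ n := by gcongr
      _ ≤ (Real.exp (ε * |t / n|)) ^ n := by
          have := Real.add_one_le_exp (ε * |t / n|)
          have h4 : 0 ≤ 1 + ε * |t / n| := by positivity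
          gcongr
          linarith
      _ = Real.exp (ε * |t|) := by
          rw [← Real.exp_nat_mul]
          congr 1
          rw [abs_div, abs_of_pos hn0]
          field_simp
  have hlim : Tendsto (fun ε : ℝ => Real.exp (ε * |t|)) (𝓝[>] 0) (𝓝 (Real.exp (0 * |t|))) := by
    refine Tendsto.mono_left ?_ nhdsWithin_le_nhds
    exact (by fun_prop : Continuous fun ε : ℝ => Real.exp (ε * |t|)).tendsto 0
  rw [zero_mul, Real.exp_zero] at hlim
  refine ge_of_tendsto hlim ?_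
  filter_upwards [self_mem_nhdsWithin] with ε hε
  exact key ε hε

lemma exp_mul_exp_neg (A : E →L[ℝ] E) : NormedSpace.exp A * NormedSpace.exp (-A) = 1 := by
  letI : NormedAlgebra ℚ (E →L[ℝ] E) := NormedAlgebra.restrictScalars ℚ ℝ (E →L[ℝ] E)
  rw [← NormedSpace.exp_add_of_commute (Commute.neg_right (Commute.refl A)), add_neg_cancel,
    NormedSpace.exp_zero]

/-- the isometry `exp (t Y)` -/
noncomputable def expI {Y : E →L[ℝ] E} (hY : Sk Y) (t : ℝ) : E ≃ₗᵢ[ℝ] E where
  toFun := fun x => NormedSpace.exp (t • Y) x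
  invFun := fun x => NormedSpace.exp ((-t) • Y) x
  map_add' := fun x y => map_add _ _ _
  map_smul' := fun c x => map_smul _ _ _
  left_inv := fun x => by
    have := exp_mul_exp_neg ((-t) • Y)
    rw [neg_smul, neg_neg] at this
    have h := congrArg (fun z : E →L[ℝ] E => z x) this
    rw [neg_smul]
    exact h
  right_inv := fun x => by
    have := exp_mul_exp_neg (t • Y)
    have h := congrArg (fun z : E →L[ℝ] E => z x) this
    rw [neg_smul]
    exact h
  norm_map' := fun x => by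
    apply le_antisymm
    · refine ((NormedSpace.exp (t • Y)).le_opNorm x).trans ?_
      have := hY.exp_le t
      exact mul_le_of_le_one_left (norm_nonneg _) this
    · have h1 := exp_mul_exp_neg ((-t) • Y)
      rw [neg_smul, neg_neg] at h1
      have h := congrArg (fun z : E →L[ℝ] E => z x) h1
      have h2 : NormedSpace.exp (-(t • Y)) (NormedSpace.exp (t • Y) x) = x := h
      have h3 := (NormedSpace.exp (-(t • Y))).le_opNorm (NormedSpace.exp (t • Y) x)
      rw [h2] at h3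
      refine h3.trans ?_
      have := hY.exp_le (-t)
      rw [neg_smul] at this
      exact mul_le_of_le_one_left (norm_nonneg _) this

lemma expI_apply {Y : E →L[ℝ] E} (hY : Sk Y) (t : ℝ) (x : E) :
    expI hY t x = NormedSpace.exp (t • Y) x := rfl

/-- a skew operator of finite rank gives an isometry which is a finite rank perturbation of the
identity -/
theorem exists_iso {Y : E →L[ℝ] E} (hY : Sk Y) (h0 : Y ≠ 0)
    (hf : FiniteDimensional ℝ (LinearMap.range (Y : E →ₗ[ℝ] E))) :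
    ∃ T : E ≃ₗᵢ[ℝ] E, FinR T.toContinuousLinearEquiv ∧ ∃ x, T x ≠ x := by
  obtain ⟨t, ht⟩ : ∃ t : ℝ, ∃ x, expI hY t x ≠ x := by
    by_contra hcon
    push Not at hcon
    apply h0
    have hd := hasDerivAt_exp_smul_const (𝕂 := ℝ) Y (0 : ℝ)
    rw [zero_smul, NormedSpace.exp_zero, one_mul] at hd
    have hc : (fun u : ℝ => NormedSpace.exp (u • Y)) = fun _ => (1 : E →L[ℝ] E) := by
      funext u
      ext x
      exact hcon u x
    rw [hc] at hd
    exact hd.unique (hasDerivAt_const (0 : ℝ) (1 : E →L[ℝ] E))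
  refine ⟨expI hY t, ?_, ht⟩
  have hle : LinearMap.range (dl (expI hY t).toContinuousLinearEquiv : E →ₗ[ℝ] E) ≤
      LinearMap.range (Y : E →ₗ[ℝ] E) := by
    rintro _ ⟨x, rfl⟩
    have hcl : IsClosed ((LinearMap.range (Y : E →ₗ[ℝ] E) : Submodule ℝ E) : Set E) :=
      Submodule.closed_of_finiteDimensional _
    have hs := NormedSpace.exp_series_hasSum_exp' (𝕂 := ℝ) (t • Y)
    have hs2 : HasSum (fun n : ℕ => (((n.factorial : ℝ)⁻¹) • (t • Y) ^ n) x)
        (NormedSpace.exp (t • Y) x) := by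
      have := hs.mapL (ContinuousLinearMap.apply ℝ E x)
      exact this
    have hs3 := (hasSum_nat_add_iff' 1).2 hs2
    simp only [Finset.range_one, Finset.sum_singleton, Nat.factorial_zero, Nat.cast_one, inv_one,
      pow_zero, one_smul] at hs3
    show dl (expI hY t).toContinuousLinearEquiv x ∈ _
    have e : dl (expI hY t).toContinuousLinearEquiv x =
        NormedSpace.exp (t • Y) x - (1 : E →L[ℝ] E) x := rfl
    rw [e]
    refine hcl.mem_of_tendsto hs3 (Filter.Eventually.of_forall fun s => ?_)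
    refine Submodule.sum_mem _ fun n _ => ?_
    rw [pow_succ', smul_mul_assoc]
    exact Submodule.smul_mem _ _ (Submodule.smul_mem _ _ ⟨((t • Y) ^ n) x, rfl⟩)
  unfold FinR
  exact Submodule.finiteDimensional_of_le hle

end Exp

end Pool.Agent.J6H26.CP
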