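import Pool.Agent.J6H26.CP.Seq

/-! # Small compact perturbations of the identity -/

set_option autoImplicit false

namespace Pool.Agent.J6H26.CP

open Pool.Agent.J6H26.FR Filter Topology
open scoped BoundedContinuousFunction

variable {E : Type*} [NormedAddCommGroup E] [NormedSpace ℝ E]

lemma op_inj {S R : E ≃ₗᵢ[ℝ] E} (h : op S = op R) : S = R := by
  ext x
  exact congrArg (fun A : E →L[ℝ] E => A x) h

lemma AT.top {G : Subgroup (E ≃ₗᵢ[ℝ] E)} (hG : AT G) : AT (⊤ : Subgroup (E ≃ₗᵢ[ℝ] E)) := by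
  intro x y hx hy ε hε
  obtain ⟨T, -, hT⟩ := hG x y hx hy ε hε
  exact ⟨T, trivial, hT⟩

lemma op_conj (g S : E ≃ₗᵢ[ℝ] E) : op (g * S * g⁻¹) = cj g (op S) := by
  rw [op_mul, op_mul, cj_eq]

lemma cj_mul (g : E ≃ₗᵢ[ℝ] E) (A B : E →L[ℝ] E) : cj g (A * B) = cj g A * cj g B := by
  rw [cj_eq, cj_eq, cj_eq]
  calc op g * (A * B) * op g⁻¹ = op g * A * 1 * B * op g⁻¹ := by
        rw [mul_one, mul_assoc (op g) A B]
    _ = op g * A * (op g⁻¹ * op g) * B * op g⁻¹ := by rw [op_inv_mul]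
    _ = op g * A * op g⁻¹ * (op g * B * op g⁻¹) := by simp only [mul_assoc]

lemma cj_comm_iff (g : E ≃ₗᵢ[ℝ] E) {A B : E →L[ℝ] E} (h : A * cj g B = cj g B * A) :
    cj g⁻¹ A * B = B * cj g⁻¹ A := by
  have h1 := congrArg (cj g⁻¹) h
  rw [cj_mul, cj_mul, cj_cj, inv_mul_cancel, cj_one'] at h1
  exact h1

lemma cj_comm_iff' (g : E ≃ₗᵢ[ℝ] E) {A B : E →L[ℝ] E} (h : cj g⁻¹ A * B = B * cj g⁻¹ A) :
    A * cj g B = cj g B * A := by
  have h1 := congrArg (cj g) h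
  rw [cj_mul, cj_mul, cj_cj, mul_inv_cancel, cj_one'] at h1
  exact h1

lemma norm_cj (g : E ≃ₗᵢ[ℝ] E) (A : E →L[ℝ] E) : ‖cj g A‖ = ‖A‖ := by
  rw [cj_eq, norm_mul_op, norm_op_mul]

/-- commutators of small elements are smaller -/
lemma comm_small (S R : E ≃ₗᵢ[ℝ] E) :
    ‖op (S * R * S⁻¹ * R⁻¹) - 1‖ ≤ 2 * ‖op S - 1‖ * ‖op R - 1‖ := by
  have e : op (S * R * S⁻¹ * R⁻¹) - 1 = ((op S - 1) * (op R - 1) - (op R - 1) * (op S - 1)) *
      op (S⁻¹ * R⁻¹) := by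
    have e1 : (op S - 1) * (op R - 1) - (op R - 1) * (op S - 1) = op (S * R) - op (R * S) := by
      rw [op_mul, op_mul]
      simp only [sub_mul, mul_sub, mul_one, one_mul]
      abel
    rw [e1, sub_mul, ← op_mul, ← op_mul]
    have e2 : R * S * (S⁻¹ * R⁻¹) = 1 := by group
    have e3 : S * R * (S⁻¹ * R⁻¹) = S * R * S⁻¹ * R⁻¹ := by group
    rw [e2, e3, op_one]
  rw [e, norm_mul_op]
  refine (norm_sub_le _ _).trans ?_
  have h1 := norm_mul_le (op S - 1) (op R - 1)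
  have h2 := norm_mul_le (op R - 1) (op S - 1)
  linarith

variable [CompleteSpace E]

/-- the conclusion for a sequence of compact perturbations tending to the identity -/
theorem para_of_seq (hE : ¬ FiniteDimensional ℝ E) {G : Subgroup (E ≃ₗᵢ[ℝ] E)} (hG : AT G)
    (hS : ∀ ε : ℝ, 0 < ε → ∃ S : E ≃ₗᵢ[ℝ] E, Cpt S ∧ S ≠ 1 ∧ ‖op S - 1‖ < ε) (x y : E) :
    ‖x + y‖ ^ 2 + ‖x - y‖ ^ 2 = 2 * (‖x‖ ^ 2 + ‖y‖ ^ 2) := by
  obtain ⟨T, hT, hT1, -⟩ := hS 1 one_pos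
  have hUT := uiso_cpt hT
  have hUT1 := uiso_ne hT1
  have hU := UP_AT hG
  obtain ⟨Y, hY, hY0, X, hX, hYX⟩ := exists_skew hE hS
  by_cases hcomm : ∀ k : UP E ≃ₗᵢ[ℝ] UP E,
      Y * op (k * (uiso fun _ => T) * k⁻¹) = op (k * (uiso fun _ => T) * k⁻¹) * Y
  · exfalso
    obtain ⟨W, h, hW, hh, hWh, hbi⟩ := exists_win hUT hUT1
    refine ker_lemma (UP_infinite hE) hU hW hh hWh (Y := Y) ?_ hY0 hX hYX
    intro k _
    have h1 := hcomm k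
    rw [op_conj] at h1
    exact cj_comm_iff' k (hbi _ (cj_comm_iff k h1))
  · push Not at hcomm
    obtain ⟨k, hk⟩ := hcomm
    obtain ⟨Z, hZ, hZf, hZ0⟩ := exists_fin (hUT.conj k) hY hk
    obtain ⟨R, hR, hR1⟩ := exists_iso (Y := Z) hZ hZ0 hZf
    have h1 := main_isom hU hR hR1 (dia x) (dia y)
    rw [← map_add, ← map_sub, dia.norm_map, dia.norm_map, dia.norm_map, dia.norm_map] at h1
    exact h1

/-- the conclusion when the compact perturbations of the identity are isolated -/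
theorem false_of_isolated (hE : ¬ FiniteDimensional ℝ E) {G : Subgroup (E ≃ₗᵢ[ℝ] E)} (hG : AT G)
    {δ : ℝ} (hδ : 0 < δ) (hiso : ∀ S : E ≃ₗᵢ[ℝ] E, Cpt S → S ≠ 1 → δ ≤ ‖op S - 1‖)
    {T : E ≃ₗᵢ[ℝ] E} (hT : Cpt T) (hT1 : T ≠ 1) (hTn : ‖op T - 1‖ < 1 / 2) : False := by
  -- the infimum
  let A : Set ℝ := {r | ∃ S : E ≃ₗᵢ[ℝ] E, Cpt S ∧ S ≠ 1 ∧ r = ‖op S - 1‖}
  have hAne : A.Nonempty := ⟨_, T, hT, hT1, rfl⟩
  have hAb : BddBelow A := ⟨δ, by rintro _ ⟨S, hS, hS1, rfl⟩; exact hiso S hS hS1⟩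
  set δ₀ := sInf A with hδ₀
  have h1 : δ ≤ δ₀ := le_csInf hAne (by rintro _ ⟨S, hS, hS1, rfl⟩; exact hiso S hS hS1)
  have h2 : δ₀ < 1 / 2 := (csInf_le hAb ⟨T, hT, hT1, rfl⟩).trans_lt hTn
  have h3 : ∀ S : E ≃ₗᵢ[ℝ] E, Cpt S → ‖op S - 1‖ < δ₀ → S = 1 := by
    intro S hS hlt
    by_contra hne
    exact absurd (csInf_le hAb ⟨S, hS, hne, rfl⟩) (not_le.2 hlt)
  have h4 : 0 < δ₀ := hδ.trans_le h1
  have h5 : δ₀ < Real.sqrt (δ₀ / 2) := by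
    apply Real.lt_sqrt_of_sq_lt
    nlinarith
  obtain ⟨_, ⟨S, hS, hS1, rfl⟩, hlt⟩ := exists_lt_of_csInf_lt hAne h5
  have h6 : ‖op S - 1‖ ^ 2 < δ₀ / 2 := by
    have := Real.sq_sqrt (show 0 ≤ δ₀ / 2 by positivity)
    rw [← this]
    gcongr
  -- `S` commutes with its conjugates
  have h7 : ∀ g : E ≃ₗᵢ[ℝ] E, op S * cj g (op S) = cj g (op S) * op S := by
    intro g
    have hR : Cpt (g * S * g⁻¹) := hS.conj g
    have hc : Cpt (S * (g * S * g⁻¹) * S⁻¹ * (g * S * g⁻¹)⁻¹) := ((hS.mul hR).mul hS.inv).mul hR.inv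
    have hn : ‖op (g * S * g⁻¹) - 1‖ = ‖op S - 1‖ := by
      have : op (g * S * g⁻¹) - 1 = cj g (op S - 1) := by
        rw [op_conj, cj_eq, cj_eq, mul_sub, sub_mul, mul_one, op_mul_inv]
      rw [this, norm_cj]
    have h8 := comm_small S (g * S * g⁻¹)
    rw [hn] at h8
    have h9 := h3 _ hc (by nlinarith)
    rw [← op_conj, ← op_mul, ← op_mul]
    congr 1
    have := congrArg (fun z => z * (g * S * g⁻¹) * S) h9
    simpa [mul_assoc] using this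
  obtain ⟨W, h, hW, hh, hWh, hbi⟩ := exists_win hS hS1
  have hne : h ≠ 0 := by rintro rfl; simp at hh
  have hW0 : W ≠ 0 := by
    rintro rfl
    exact hne (by rw [← hWh]; rfl)
  obtain ⟨x, hx, hWx⟩ : ∃ x, x ≠ 0 ∧ W x = 0 := by
    obtain ⟨x, hx, hk⟩ := common_ker hE (n := 1) (fun _ => W) (fun _ => hW)
    exact ⟨x, hx, hk 0⟩
  refine ker_lemma hE (AT.top hG) hW hh hWh (Y := W) ?_ hW0 hx hWx
  intro k _
  -- `op S` commutes with `cj k W`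
  have h8 : ∀ g : E ≃ₗᵢ[ℝ] E, op S * cj g W = cj g W * op S := by
    intro g
    exact cj_comm_iff' g (hbi _ (cj_comm_iff g (h7 g)))
  have h9 := hbi _ (h8 k).symm
  exact h9.symm

/-- **Theorem A.** An almost transitive space with a nontrivial isometry which is a small compact
perturbation of the identity is a Hilbert space. -/
theorem para_small {G : Subgroup (E ≃ₗᵢ[ℝ] E)} (hG : AT G) {T : E ≃ₗᵢ[ℝ] E} (hT : Cpt T)
    (hT1 : T ≠ 1) (hTn : ‖op T - 1‖ < 1 / 2) (x y : E) :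
    ‖x + y‖ ^ 2 + ‖x - y‖ ^ 2 = 2 * (‖x‖ ^ 2 + ‖y‖ ^ 2) := by
  by_cases hE : FiniteDimensional ℝ E
  · exact para_fin hG x y
  by_cases hS : ∀ ε : ℝ, 0 < ε → ∃ S : E ≃ₗᵢ[ℝ] E, Cpt S ∧ S ≠ 1 ∧ ‖op S - 1‖ < ε
  · exact para_of_seq hE hG hS x y
  · push Not at hS
    obtain ⟨δ, hδ, hiso⟩ := hS
    exact (false_of_isolated hE hG hδ hiso hT hT1 hTn).elim

end Pool.Agent.J6H26.CP
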