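import Pool.Agent.J6H26.CP.Ker

/-! # Ultrapowers of normed spaces -/

set_option autoImplicit false

namespace Pool.Agent.J6H26.CP

open Pool.Agent.J6H26.FR Filter Topology
open scoped BoundedContinuousFunction

/-- a nonprincipal ultrafilter -/
noncomputable def uu : Ultrafilter ℕ := hyperfilter ℕ

lemma uu_le : (uu : Filter ℕ) ≤ atTop := by
  have := Nat.hyperfilter_le_atTop
  exact this

variable (E : Type*) [NormedAddCommGroup E] [NormedSpace ℝ E]

/-- null sequences -/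
def nul : Submodule ℝ (ℕ →ᵇ E) where
  carrier := {x | Tendsto (fun n => ‖x n‖) uu (𝓝 0)}
  add_mem' := by
    intro x y hx hy
    have h := Filter.Tendsto.add hx hy
    rw [add_zero] at h
    exact squeeze_zero (fun _ => norm_nonneg _) (fun n => norm_add_le _ _) h
  zero_mem' := by
    show Tendsto (fun n => ‖(0 : ℕ →ᵇ E) n‖) uu (𝓝 0)
    simp
  smul_mem' := by
    intro c x hx
    have h := Filter.Tendsto.const_mul |c| hx
    rw [mul_zero] at h
    refine h.congr fun n => ?_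
    show |c| * ‖x n‖ = ‖c • x n‖
    rw [norm_smul, Real.norm_eq_abs]

variable {E}

lemma mem_nul {x : ℕ →ᵇ E} : x ∈ nul E ↔ Tendsto (fun n => ‖x n‖) uu (𝓝 0) := Iff.rfl

instance nul_closed : IsClosed ((nul E : Submodule ℝ (ℕ →ᵇ E)) : Set (ℕ →ᵇ E)) := by
  rw [← closure_subset_iff_isClosed]
  intro x hx
  show Tendsto (fun n => ‖x n‖) uu (𝓝 0)
  rw [Metric.tendsto_nhds]
  intro ε hε
  obtain ⟨y, hy, hxy⟩ := Metric.mem_closure_iff.1 hx (ε / 2) (by positivity)
  have hy' : Tendsto (fun n => ‖y n‖) uu (𝓝 0) := hy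
  filter_upwards [Metric.tendsto_nhds.1 hy' (ε / 2) (by positivity)] with n hn
  rw [Real.dist_eq, sub_zero, abs_of_nonneg (norm_nonneg _)] at hn ⊢
  rw [dist_eq_norm] at hxy
  have h1 := (x - y).norm_coe_le_norm n
  have h2 : x n = (x - y) n + y n := by
    show x n = x n - y n + y n
    abel
  rw [h2]
  refine lt_of_le_of_lt (norm_add_le _ _) ?_
  linarith

variable (E) in
/-- the ultrapower -/
abbrev UP : Type _ := (ℕ →ᵇ E) ⧸ nul E

/-- the class of a bounded sequence -/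
noncomputable def mk : (ℕ →ᵇ E) →ₗ[ℝ] UP E := (nul E).mkQ

lemma mk_surj (X : UP E) : ∃ x, mk x = X := Submodule.mkQ_surjective _ X

lemma mk_eq {x y : ℕ →ᵇ E} (h : Tendsto (fun n => ‖x n - y n‖) uu (𝓝 0)) : mk x = mk y := by
  rw [← sub_eq_zero, ← map_sub]
  exact (Submodule.Quotient.mk_eq_zero _).2 h

lemma exists_lim {f : ℕ → ℝ} {C : ℝ} (h : ∀ n, |f n| ≤ C) : ∃ L, Tendsto f uu (𝓝 L) := by
  have hc : IsCompact (Set.Icc (-C) C) := isCompact_Icc
  obtain ⟨L, -, hL⟩ := hc.ultrafilter_le_nhds (uu.map f) (by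
    rw [Filter.le_principal_iff]
    show f ⁻¹' (Set.Icc (-C) C) ∈ (uu : Filter ℕ)
    have : f ⁻¹' (Set.Icc (-C) C) = Set.univ := Set.eq_univ_of_forall fun n => abs_le.1 (h n)
    rw [this]
    exact Filter.univ_mem)
  exact ⟨L, hL⟩

lemma mk_lim (x : ℕ →ᵇ E) : Tendsto (fun n => ‖x n‖) uu (𝓝 ‖mk x‖) := by
  obtain ⟨L, hL⟩ := exists_lim (f := fun n => ‖x n‖) (C := ‖x‖) (fun n => by
    rw [abs_of_nonneg (norm_nonneg _)]
    exact x.norm_coe_le_norm n)
  have h1 : ‖mk x‖ ≤ L := by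
    refine le_of_forall_pos_le_add fun ε hε => ?_
    classical
    have hL0 : 0 ≤ L := ge_of_tendsto' hL fun n => norm_nonneg _
    let z : ℕ →ᵇ E := BoundedContinuousFunction.ofNormedAddCommGroupDiscrete
      (fun n => if ‖x n‖ ≤ L + ε then x n else 0) (L + ε) (fun n => by
        split_ifs with h
        · exact h
        · rw [norm_zero]; positivity)
    have hz : mk x = mk z := by
      apply mk_eq
      have hev : ∀ᶠ n in (uu : Filter ℕ), ‖x n‖ < L + ε :=
        hL.eventually (gt_mem_nhds (by linarith))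
      refine Tendsto.congr' (f₁ := fun _ => (0 : ℝ)) ?_ tendsto_const_nhds
      filter_upwards [hev] with n hn
      show (0 : ℝ) = ‖x n - (if ‖x n‖ ≤ L + ε then x n else 0)‖
      rw [if_pos hn.le, sub_self, norm_zero]
    rw [hz]
    refine (Submodule.Quotient.norm_mk_le (S := nul E) z).trans ?_
    rw [BoundedContinuousFunction.norm_le (by positivity)]
    intro n
    show ‖(if ‖x n‖ ≤ L + ε then x n else 0)‖ ≤ L + ε
    split_ifs with h
    · exact h
    · rw [norm_zero]; positivity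
  have h2 : L ≤ ‖mk x‖ := by
    refine le_of_forall_pos_le_add fun ε hε => ?_
    obtain ⟨m, hm, hmn⟩ := Submodule.Quotient.norm_mk_lt (S := nul E) (mk x) hε
    have hmem : Tendsto (fun n => ‖(x - m) n‖) uu (𝓝 0) := by
      have : mk (x - m) = 0 := by
        rw [map_sub, sub_eq_zero]; exact hm.symm
      exact (Submodule.Quotient.mk_eq_zero _).1 this
    have h3 : ∀ n, ‖x n‖ ≤ ‖m‖ + ‖(x - m) n‖ := by
      intro n
      have e : x n = m n + (x - m) n := by
        show x n = m n + (x n - m n)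
        abel
      have := norm_add_le (m n) ((x - m) n)
      rw [← e] at this
      have h4 := m.norm_coe_le_norm n
      linarith
    have h5 : Tendsto (fun n => ‖m‖ + ‖(x - m) n‖) uu (𝓝 (‖m‖ + 0)) :=
      Filter.Tendsto.add tendsto_const_nhds hmem
    rw [add_zero] at h5
    have := le_of_tendsto_of_tendsto' hL h5 h3
    linarith
  rw [le_antisymm h1 h2]
  exact hL

/-- norms in the ultrapower -/
lemma mk_norm_eq {x : ℕ →ᵇ E} {L : ℝ} (h : Tendsto (fun n => ‖x n‖) uu (𝓝 L)) : ‖mk x‖ = L :=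
  tendsto_nhds_unique (mk_lim x) h

/-- a sequence of operators acting on sequences -/
noncomputable def sq (A : ℕ → E →L[ℝ] E) (C : ℝ) (hA : ∀ n, ‖A n‖ ≤ C) (x : ℕ →ᵇ E) : ℕ →ᵇ E :=
  BoundedContinuousFunction.ofNormedAddCommGroupDiscrete (fun n => A n (x n)) (C * ‖x‖) (fun n => by
    refine ((A n).le_opNorm _).trans ?_
    have h1 := hA n
    have h2 := x.norm_coe_le_norm n
    have h3 : 0 ≤ C := (norm_nonneg _).trans h1
    gcongr)

lemma sq_apply (A : ℕ → E →L[ℝ] E) (C : ℝ) (hA : ∀ n, ‖A n‖ ≤ C) (x : ℕ →ᵇ E) (n : ℕ) :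
    sq A C hA x n = A n (x n) := rfl

/-- the operator of a bounded sequence of operators -/
theorem exists_uop (A : ℕ → E →L[ℝ] E) (C : ℝ) (hA : ∀ n, ‖A n‖ ≤ C) :
    ∃ U : UP E →L[ℝ] UP E, ∀ x, U (mk x) = mk (sq A C hA x) := by
  let f : (ℕ →ᵇ E) →ₗ[ℝ] (ℕ →ᵇ E) :=
    { toFun := sq A C hA
      map_add' := fun x y => by
        ext n
        show A n (x n + y n) = A n (x n) + A n (y n)
        rw [map_add]
      map_smul' := fun c x => by
        ext n
        show A n (c • x n) = c • A n (x n)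
        rw [map_smul] }
  have hC : 0 ≤ C := (norm_nonneg _).trans (hA 0)
  have hf : nul E ≤ (nul E).comap f := by
    intro x hx
    have hx' : Tendsto (fun n => ‖x n‖) uu (𝓝 0) := hx
    show Tendsto (fun n => ‖A n (x n)‖) uu (𝓝 0)
    have h := hx'.const_mul C
    rw [mul_zero] at h
    refine squeeze_zero (fun _ => norm_nonneg _) (fun n => ?_) h
    refine ((A n).le_opNorm _).trans ?_
    have := hA n
    gcongr
  let g : UP E →ₗ[ℝ] UP E := (nul E).mapQ (nul E) f hf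
  have hg : ∀ x, g (mk x) = mk (sq A C hA x) := fun x => rfl
  refine ⟨g.mkContinuous C fun X => ?_, fun x => hg x⟩
  obtain ⟨x, rfl⟩ := mk_surj X
  rw [hg]
  refine le_of_tendsto_of_tendsto' (mk_lim (sq A C hA x)) ((mk_lim x).const_mul C) fun n => ?_
  rw [sq_apply]
  refine ((A n).le_opNorm _).trans ?_
  have := hA n
  gcongr

noncomputable def uop (A : ℕ → E →L[ℝ] E) (C : ℝ) (hA : ∀ n, ‖A n‖ ≤ C) : UP E →L[ℝ] UP E :=
  (exists_uop A C hA).choose

lemma uop_mk (A : ℕ → E →L[ℝ] E) (C : ℝ) (hA : ∀ n, ‖A n‖ ≤ C) (x : ℕ →ᵇ E) :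
    uop A C hA (mk x) = mk (sq A C hA x) := (exists_uop A C hA).choose_spec x

/-- the isometry of a sequence of isometries -/
noncomputable def uiso (g : ℕ → E ≃ₗᵢ[ℝ] E) : UP E ≃ₗᵢ[ℝ] UP E where
  toFun := uop (fun n => op (g n)) 1 (fun n => op_norm_le _)
  invFun := uop (fun n => op (g n)⁻¹) 1 (fun n => op_norm_le _)
  map_add' := fun x y => map_add _ _ _
  map_smul' := fun c x => map_smul _ _ _
  left_inv := fun X => by
    obtain ⟨x, rfl⟩ := mk_surj X
    rw [uop_mk, uop_mk]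
    congr 1
    ext n
    exact (g n).symm_apply_apply _
  right_inv := fun X => by
    obtain ⟨x, rfl⟩ := mk_surj X
    rw [uop_mk, uop_mk]
    congr 1
    ext n
    exact (g n).apply_symm_apply _
  norm_map' := fun X => by
    obtain ⟨x, rfl⟩ := mk_surj X
    show ‖uop (fun n => op (g n)) 1 (fun n => op_norm_le _) (mk x)‖ = ‖mk x‖
    rw [uop_mk]
    refine mk_norm_eq ((mk_lim x).congr fun n => ?_)
    exact ((g n).norm_map _).symm

lemma uiso_mk (g : ℕ → E ≃ₗᵢ[ℝ] E) (x : ℕ →ᵇ E) :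
    uiso g (mk x) = mk (sq (fun n => op (g n)) 1 (fun n => op_norm_le _) x) := uop_mk _ _ _ _

/-- the diagonal embedding -/
noncomputable def dia : E →ₗᵢ[ℝ] UP E where
  toFun := fun x => mk (BoundedContinuousFunction.const ℕ x)
  map_add' := fun x y => by rw [← map_add]; rfl
  map_smul' := fun c x => by rw [RingHom.id_apply, ← map_smul]; rfl
  norm_map' := fun x => mk_norm_eq tendsto_const_nhds

lemma dia_eq (x : E) : dia x = mk (BoundedContinuousFunction.const ℕ x) := rfl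

/-- the ultrapower of an almost transitive space is almost transitive -/
theorem UP_AT {G : Subgroup (E ≃ₗᵢ[ℝ] E)} (hG : AT G) : AT (⊤ : Subgroup (UP E ≃ₗᵢ[ℝ] UP E)) := by
  classical
  intro X Y hX hY ε hε
  obtain ⟨x, rfl⟩ := mk_surj X
  obtain ⟨y, rfl⟩ := mk_surj Y
  have hx := mk_lim x
  have hy := mk_lim y
  rw [hX] at hx
  rw [hY] at hy
  -- almost isometries
  have hch : ∀ n : ℕ, ∃ g : E ≃ₗᵢ[ℝ] E, x n ≠ 0 → y n ≠ 0 →
      ‖g (x n) - y n‖ ≤ |1 - ‖x n‖| + |1 - ‖y n‖| + ε / 2 := by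
    intro n
    by_cases hxn : x n = 0
    · exact ⟨1, fun h => absurd hxn h⟩
    by_cases hyn : y n = 0
    · exact ⟨1, fun _ h => absurd hyn h⟩
    have nx : ‖x n‖ ≠ 0 := norm_ne_zero_iff.2 hxn
    have ny : ‖y n‖ ≠ 0 := norm_ne_zero_iff.2 hyn
    obtain ⟨g, -, hg⟩ := hG (‖x n‖⁻¹ • x n) (‖y n‖⁻¹ • y n)
      (by rw [norm_smul, norm_inv, norm_norm, inv_mul_cancel₀ nx])
      (by rw [norm_smul, norm_inv, norm_norm, inv_mul_cancel₀ ny]) (ε / 2) (by positivity)
    refine ⟨g, fun _ _ => ?_⟩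
    have e : g (x n) - y n = (g (x n) - g (‖x n‖⁻¹ • x n)) +
        (g (‖x n‖⁻¹ • x n) - ‖y n‖⁻¹ • y n) + (‖y n‖⁻¹ • y n - y n) := by abel
    rw [e]
    refine (norm_add₃_le).trans ?_
    have h1 : ‖g (x n) - g (‖x n‖⁻¹ • x n)‖ = |1 - ‖x n‖| := by
      rw [← map_sub, g.norm_map]
      have : x n - ‖x n‖⁻¹ • x n = (1 - ‖x n‖⁻¹) • x n := by module
      rw [this, norm_smul, Real.norm_eq_abs, ← abs_of_nonneg (norm_nonneg (x n)), ← abs_mul,
        abs_of_nonneg (norm_nonneg (x n)), sub_mul, inv_mul_cancel₀ nx, one_mul, abs_sub_comm]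
    have h2 : ‖‖y n‖⁻¹ • y n - y n‖ = |1 - ‖y n‖| := by
      have : ‖y n‖⁻¹ • y n - y n = (‖y n‖⁻¹ - 1) • y n := by module
      rw [this, norm_smul, Real.norm_eq_abs, ← abs_of_nonneg (norm_nonneg (y n)), ← abs_mul,
        abs_of_nonneg (norm_nonneg (y n)), sub_mul, inv_mul_cancel₀ ny, one_mul]
    rw [h1, h2]
    linarith
  choose g hg using hch
  refine ⟨uiso g, trivial, ?_⟩
  rw [uiso_mk, ← map_sub]
  have hlim : Tendsto (fun n => |1 - ‖x n‖| + |1 - ‖y n‖| + ε / 2) uu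
      (𝓝 (|1 - 1| + |1 - 1| + ε / 2)) :=
    (((tendsto_const_nhds.sub hx).abs).add ((tendsto_const_nhds.sub hy).abs)).add
      tendsto_const_nhds
  have hle : ‖mk (sq (fun n => op (g n)) 1 (fun n => op_norm_le _) x - y)‖ ≤
      |1 - (1 : ℝ)| + |1 - 1| + ε / 2 := by
    refine le_of_tendsto_of_tendsto (mk_lim _) hlim ?_
    have hx1 : ∀ᶠ n in (uu : Filter ℕ), 0 < ‖x n‖ := hx.eventually (lt_mem_nhds one_pos)
    have hy1 : ∀ᶠ n in (uu : Filter ℕ), 0 < ‖y n‖ := hy.eventually (lt_mem_nhds one_pos)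
    filter_upwards [hx1, hy1] with n h1 h2
    exact hg n (norm_pos_iff.1 h1) (norm_pos_iff.1 h2)
  refine lt_of_le_of_lt hle ?_
  rw [sub_self, abs_zero]
  linarith

/-- the ultrapower of a compact perturbation of the identity is one -/
theorem uiso_cpt {T : E ≃ₗᵢ[ℝ] E} (hT : Cpt T) : Cpt (uiso fun _ => T) := by
  set K : E →L[ℝ] E := op T - 1 with hK
  have hKc : IsCompactOperator K := hT.isC
  have hKc' : IsCompactOperator (K : E →ₗ[ℝ] E) := hKc
  obtain ⟨C, hC, hsub⟩ := hKc'.image_closedBall_subset_compact (2 : ℝ)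
  have h1 : IsCompactOperator ((op (uiso fun _ => T) - 1 : UP E →L[ℝ] UP E) : UP E →ₗ[ℝ] UP E) := by
    rw [isCompactOperator_iff_image_closedBall_subset_compact _ (one_pos)]
    refine ⟨dia '' C, hC.image dia.continuous, ?_⟩
    rintro _ ⟨X, hX, rfl⟩
    rw [mem_closedBall_zero_iff] at hX
    obtain ⟨x, hx, hxn⟩ := Submodule.Quotient.norm_mk_lt (S := nul E) X one_pos
    have hx' : mk x = X := hx
    have hxn' : ‖x‖ ≤ 2 := by linarith
    have hmem : ∀ n, K (x n) ∈ C := fun n => hsub ⟨x n, by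
      rw [mem_closedBall_zero_iff]
      exact (x.norm_coe_le_norm n).trans hxn', rfl⟩
    obtain ⟨c, hc, hlim⟩ := hC.ultrafilter_le_nhds (uu.map fun n => K (x n)) (by
      rw [Filter.le_principal_iff]
      show (fun n => K (x n)) ⁻¹' C ∈ (uu : Filter ℕ)
      have : (fun n => K (x n)) ⁻¹' C = Set.univ := Set.eq_univ_of_forall hmem
      rw [this]
      exact Filter.univ_mem)
    refine ⟨c, hc, ?_⟩
    have hlim' : Tendsto (fun n => K (x n)) uu (𝓝 c) := hlim
    show dia c = (uiso fun _ => T) X - X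
    rw [← hx', uiso_mk, ← map_sub, dia_eq]
    refine (mk_eq ?_).symm
    have h2 := (hlim'.sub (tendsto_const_nhds (x := c))).norm
    rw [sub_self, norm_zero] at h2
    exact h2
  exact h1

lemma uiso_ne {T : E ≃ₗᵢ[ℝ] E} (hT : T ≠ 1) : (uiso fun _ => T) ≠ 1 := by
  intro h
  apply hT
  ext x
  have h1 := congrArg (fun S : UP E ≃ₗᵢ[ℝ] UP E => S (dia x)) h
  have h2 : (uiso fun _ => T) (dia x) = dia (T x) := by
    rw [dia_eq, uiso_mk]; rfl
  have h3 : dia (T x) = dia x := by rw [← h2]; exact h1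
  exact dia.injective h3

lemma UP_infinite (hE : ¬ FiniteDimensional ℝ E) : ¬ FiniteDimensional ℝ (UP E) := by
  intro h
  apply hE
  exact FiniteDimensional.of_injective (dia (E := E)).toLinearMap dia.injective

end Pool.Agent.J6H26.CP
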