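import Pool.Agent.J6H26.CP.Big

/-! # Weak continuity of conjugation on compact perturbations of the identity -/

set_option autoImplicit false

namespace Pool.Agent.J6H26.CP

open Pool.Agent.J6H26.FR Filter Topology

variable {E : Type*} [NormedAddCommGroup E] [NormedSpace ℝ E]

lemma pow_est_mul (S : E ≃ₗᵢ[ℝ] E) (X : E →L[ℝ] E) (k : ℕ) :
    ‖(op S ^ k - 1 - (k : ℝ) • (op S - 1)) * X‖ ≤
      (k : ℝ) ^ 2 / 2 * ‖(op S - 1) * (op S - 1) * X‖ := by
  induction k with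
  | zero => simp
  | succ k ih =>
    set D : E →L[ℝ] E := op S - 1 with hD
    have hS : op S = 1 + D := by rw [hD]; abel
    have e : (op S ^ (k + 1) - 1 - ((k + 1 : ℕ) : ℝ) • D) * X =
        op S * ((op S ^ k - 1 - (k : ℝ) • D) * X) + (k : ℝ) • (D * D * X) := by
      have e0 : op S ^ (k + 1) - 1 - ((k + 1 : ℕ) : ℝ) • D =
        op S * (op S ^ k - 1 - (k : ℝ) • D) + (k : ℝ) • (D * D) := by
        have e1 : op S ^ (k + 1) = op S * op S ^ k := pow_succ' _ _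
        have e2 : op S * (op S ^ k - 1 - (k : ℝ) • D) =
            op S * op S ^ k - op S - (k : ℝ) • (op S * D) := by
          rw [mul_sub, mul_sub, mul_one, mul_smul_comm]
        have e3 : op S * D = D + D * D := by
          rw [hS, add_mul, one_mul]
        rw [e1, e2, e3, smul_add]
        have e4 : ((k + 1 : ℕ) : ℝ) • D = (k : ℝ) • D + D := by
          rw [Nat.cast_add, Nat.cast_one, add_smul, one_smul]
        rw [e4]
        generalize op S * op S ^ k = P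
        generalize (k : ℝ) • D = Q
        generalize (k : ℝ) • (D * D) = R
        rw [hS]
        abel
      rw [e0, add_mul, mul_assoc (op S), smul_mul_assoc]
    rw [e]
    refine (norm_add_le _ _).trans ?_
    have h1 : ‖op S * ((op S ^ k - 1 - (k : ℝ) • D) * X)‖ ≤ (k : ℝ) ^ 2 / 2 * ‖D * D * X‖ := by
      rw [norm_op_mul]; exact ih
    have h2 : ‖(k : ℝ) • (D * D * X)‖ = (k : ℝ) * ‖D * D * X‖ := by
      rw [norm_smul, Real.norm_eq_abs, abs_of_nonneg (Nat.cast_nonneg k)]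
    rw [h2]
    have h3 : ((k + 1 : ℕ) : ℝ) = (k : ℝ) + 1 := by push_cast; ring
    rw [h3]
    nlinarith [norm_nonneg (D * D * X)]

/-- an isometry with small third difference has small second difference -/
lemma sq_of_cube (S : E ≃ₗᵢ[ℝ] E) (k : ℕ) :
    (k : ℝ) * ‖(op S - 1) * (op S - 1)‖ ≤
      4 + (k : ℝ) ^ 2 / 2 * ‖(op S - 1) * (op S - 1) * (op S - 1)‖ := by
  set D : E →L[ℝ] E := op S - 1 with hD
  have h1 := pow_est_mul S D k
  rw [← hD] at h1
  have h2 : ‖(k : ℝ) • (D * D)‖ = (k : ℝ) * ‖D * D‖ := by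
    rw [norm_smul, Real.norm_eq_abs, abs_of_nonneg (Nat.cast_nonneg k)]
  have h3 : (k : ℝ) • (D * D) = (op S ^ k - 1) * D - (op S ^ k - 1 - (k : ℝ) • D) * D := by
    rw [← smul_mul_assoc, ← sub_mul]
    congr 1
    abel
  rw [← h2, h3]
  refine (norm_sub_le _ _).trans ?_
  have h4 : ‖op S ^ k - 1‖ ≤ 2 := by
    refine (norm_sub_le _ _).trans ?_
    have := op_pow_norm S k
    have := norm_one_le (E := E)
    linarith
  have h5 : ‖D‖ ≤ 2 := op_sub_le S
  have h6 : ‖(op S ^ k - 1) * D‖ ≤ 2 * 2 := by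
    refine (norm_mul_le _ _).trans ?_
    gcongr
  linarith

/-- a net for weak closeness to the identity -/
lemma net' {M' : E →L[ℝ] E} (hM' : IsCompactOperator M') {α : ℝ} (hα : 0 < α) :
    ∃ F : Finset E, ∀ M : E →L[ℝ] E, ‖M‖ ≤ 2 → ∀ b : E ≃ₗᵢ[ℝ] E,
      (∀ x ∈ F, ‖M (b x - x)‖ < α) → ‖M * (op b - 1) * M'‖ ≤ 5 * α := by
  have hK' : IsCompactOperator (M' : E →ₗ[ℝ] E) := hM'
  obtain ⟨C, hC, hsub⟩ := hK'.image_closedBall_subset_compact (1 : ℝ)
  obtain ⟨t, -, htf, hcov⟩ := hC.finite_cover_balls hα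
  refine ⟨htf.toFinset, fun M hM b hb => ?_⟩
  refine ContinuousLinearMap.opNorm_le_of_unit_norm (by positivity) fun x hx => ?_
  have hmem : M' x ∈ C := hsub ⟨x, by rw [mem_closedBall_zero_iff, hx], rfl⟩
  obtain ⟨y, hy, hxy⟩ := Set.mem_iUnion₂.1 (hcov hmem)
  rw [Metric.mem_ball, dist_eq_norm] at hxy
  have h1 := hb y (htf.mem_toFinset.2 hy)
  show ‖M (b (M' x) - M' x)‖ ≤ 5 * α
  have e : M (b (M' x) - M' x) = M (b (M' x - y) - (M' x - y)) + M (b y - y) := by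
    rw [← map_add]
    congr 1
    rw [map_sub]; abel
  rw [e]
  refine (norm_add_le _ _).trans ?_
  have h2 : ‖M (b (M' x - y) - (M' x - y))‖ ≤ 2 * (2 * α) := by
    refine (M.le_opNorm _).trans ?_
    have h3 : ‖b (M' x - y) - (M' x - y)‖ ≤ 2 * α := by
      refine (norm_sub_le _ _).trans ?_
      rw [b.norm_map]
      linarith
    gcongr
  linarith

section algebra

variable {K K' : E →L[ℝ] E} {b T : E ≃ₗᵢ[ℝ] E}

lemma cube_bound (hK : K = op T - 1) (hK' : K' = op T⁻¹ - 1) {ε : ℝ}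
    (h1 : ‖K * (op b - 1) * K‖ ≤ ε) (h2 : ‖K * (op b⁻¹ - 1) * K‖ ≤ ε)
    (h3 : ‖K' * (op b - 1) * K‖ ≤ ε) (h4 : ‖K * (op b⁻¹ - 1) * K'‖ ≤ ε) :
    ‖(op (b * T * b⁻¹ * T⁻¹) - 1) * (op (b * T * b⁻¹ * T⁻¹) - 1) *
      (op (b * T * b⁻¹ * T⁻¹) - 1)‖ ≤ 144 * ε := by
  have hε : 0 ≤ ε := (norm_nonneg _).trans h1
  set A : E →L[ℝ] E := (op b - 1) * K * (op b⁻¹ * op T⁻¹) with hA
  set B : E →L[ℝ] E := K * ((op b⁻¹ - 1) * op T⁻¹) with hB
  have hTK : op T = 1 + K := by rw [hK]; abel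
  have hTK' : op T⁻¹ = 1 + K' := by rw [hK']; abel
  have hAB : op (b * T * b⁻¹ * T⁻¹) - 1 = A + B := by
    have e1 : op (b * T * b⁻¹ * T⁻¹) = op b * op T * op b⁻¹ * op T⁻¹ := by
      rw [op_mul, op_mul, op_mul]
    have e2 : (1 : E →L[ℝ] E) = (1 + K) * op T⁻¹ := by rw [← hTK, op_mul_inv]
    have e3 : op b * (1 + K) * op b⁻¹ = 1 + op b * K * op b⁻¹ := by
      rw [mul_add, add_mul, mul_one, op_mul_inv]
    rw [e1, hTK, e3]
    nth_rw 2 [e2]
    rw [hA, hB]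
    simp only [add_mul, sub_mul, mul_sub, one_mul, mul_assoc]
    abel
  have nK : ‖K‖ ≤ 2 := by rw [hK]; exact op_sub_le T
  have nb : ‖op b - 1‖ ≤ 2 := op_sub_le b
  have nb' : ‖op b⁻¹ - 1‖ ≤ 2 := op_sub_le b⁻¹
  have nA : ‖A‖ ≤ 4 := by
    rw [hA, ← op_mul, norm_mul_op]
    refine (norm_mul_le _ _).trans ?_
    calc ‖op b - 1‖ * ‖K‖ ≤ 2 * 2 := by gcongr
      _ = 4 := by norm_num
  have nB : ‖B‖ ≤ 4 := by
    rw [hB]
    refine (norm_mul_le _ _).trans ?_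
    rw [norm_mul_op]
    calc ‖K‖ * ‖op b⁻¹ - 1‖ ≤ 2 * 2 := by gcongr
      _ = 4 := by norm_num
  -- `B A`
  have nBA : ‖B * A‖ ≤ 6 * ε := by
    have e : B * A = (-(K * (op b - 1) * K) - K * (op b⁻¹ - 1) * K +
        (K * (op b⁻¹ - 1)) * (K' * (op b - 1) * K)) * op (b⁻¹ * T⁻¹) := by
      have e1 : (op b⁻¹ - 1) * (op b - 1) = -(op b - 1) - (op b⁻¹ - 1) := by
        rw [sub_mul, mul_sub, op_inv_mul, mul_one, one_mul]; abel
      have e2 : (op b⁻¹ - 1) * op T⁻¹ * (op b - 1) =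
          -(op b - 1) - (op b⁻¹ - 1) + (op b⁻¹ - 1) * (K' * (op b - 1)) := by
        rw [hTK', mul_add, mul_one, add_mul, e1, mul_assoc]
      rw [hA, hB, op_mul]
      calc K * ((op b⁻¹ - 1) * op T⁻¹) * ((op b - 1) * K * (op b⁻¹ * op T⁻¹)) =
          K * ((op b⁻¹ - 1) * op T⁻¹ * (op b - 1)) * K * (op b⁻¹ * op T⁻¹) := by
            simp only [mul_assoc]
        _ = _ := by
            rw [e2]
            congr 1
            rw [mul_add, mul_sub, mul_neg, add_mul, sub_mul, neg_mul]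
            simp only [mul_assoc]
    rw [e, norm_mul_op]
    refine (norm_add_le _ _).trans ?_
    have n1 : ‖-(K * (op b - 1) * K) - K * (op b⁻¹ - 1) * K‖ ≤ 2 * ε := by
      refine (norm_sub_le _ _).trans ?_
      rw [norm_neg]
      linarith
    have n2 : ‖(K * (op b⁻¹ - 1)) * (K' * (op b - 1) * K)‖ ≤ 4 * ε := by
      refine (norm_mul_le _ _).trans ?_
      have n3 : ‖K * (op b⁻¹ - 1)‖ ≤ 2 * 2 := by
        refine (norm_mul_le _ _).trans ?_
        gcongr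
      calc ‖K * (op b⁻¹ - 1)‖ * ‖K' * (op b - 1) * K‖ ≤ (2 * 2) * ε := by gcongr
        _ = 4 * ε := by ring
    linarith
  -- `A A`
  have nAA : ‖A * A‖ ≤ 6 * ε := by
    have e : A * A = (op b - 1) * ((-(K * (op b⁻¹ - 1) * K) +
        (K * op b⁻¹) * (K' * (op b - 1) * K)) * op (b⁻¹ * T⁻¹)) := by
      have e1 : op b⁻¹ * op T⁻¹ * (op b - 1) = -(op b⁻¹ - 1) + op b⁻¹ * (K' * (op b - 1)) := by
        rw [hTK', mul_add, mul_one, add_mul, mul_sub, op_inv_mul, mul_one, mul_assoc]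
        abel
      rw [hA, op_mul]
      calc (op b - 1) * K * (op b⁻¹ * op T⁻¹) * ((op b - 1) * K * (op b⁻¹ * op T⁻¹)) =
          (op b - 1) * ((K * (op b⁻¹ * op T⁻¹ * (op b - 1)) * K) * (op b⁻¹ * op T⁻¹)) := by
            simp only [mul_assoc]
        _ = _ := by
            rw [e1]
            congr 2
            rw [mul_add, mul_neg, add_mul, neg_mul]
            simp only [mul_assoc]
    rw [e]
    refine (norm_mul_le _ _).trans ?_
    rw [norm_mul_op]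
    have n1 : ‖-(K * (op b⁻¹ - 1) * K) + (K * op b⁻¹) * (K' * (op b - 1) * K)‖ ≤ 3 * ε := by
      refine (norm_add_le _ _).trans ?_
      rw [norm_neg]
      have n2 : ‖(K * op b⁻¹) * (K' * (op b - 1) * K)‖ ≤ 2 * ε := by
        refine (norm_mul_le _ _).trans ?_
        rw [norm_mul_op]
        gcongr
      linarith
    calc ‖op b - 1‖ * ‖-(K * (op b⁻¹ - 1) * K) + (K * op b⁻¹) * (K' * (op b - 1) * K)‖ ≤
        2 * (3 * ε) := by gcongr
      _ = 6 * ε := by ring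
  -- `B B`
  have nBB : ‖B * B‖ ≤ 2 * ε := by
    have e : B * B = -((K * (op b⁻¹ - 1) * K') * ((op b⁻¹ - 1) * op T⁻¹)) := by
      have e1 : op T⁻¹ * K = -K' := by
        rw [hK, hK', mul_sub, op_inv_mul, mul_one]; abel
      rw [hB]
      calc K * ((op b⁻¹ - 1) * op T⁻¹) * (K * ((op b⁻¹ - 1) * op T⁻¹)) =
          K * (op b⁻¹ - 1) * (op T⁻¹ * K) * ((op b⁻¹ - 1) * op T⁻¹) := by
            simp only [mul_assoc]
        _ = _ := by rw [e1, mul_neg, neg_mul]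
    rw [e, norm_neg]
    refine (norm_mul_le _ _).trans ?_
    rw [norm_mul_op]
    calc ‖K * (op b⁻¹ - 1) * K'‖ * ‖op b⁻¹ - 1‖ ≤ ε * 2 := by gcongr
      _ = 2 * ε := by ring
  have key : ∀ (P Q : E →L[ℝ] E) (a c : ℝ), ‖P‖ ≤ a → ‖Q‖ ≤ c → 0 ≤ a → ‖P * Q‖ ≤ a * c := by
    intro P Q a c hP hQ ha
    refine (norm_mul_le _ _).trans ?_
    gcongr
  rw [hAB]
  have e : (A + B) * (A + B) * (A + B) = A * A * A + A * A * B + A * (B * A) + A * (B * B) +
      B * (A * A) + B * A * B + B * B * A + B * B * B := by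
    simp only [add_mul, mul_add, mul_assoc]
    abel
  rw [e]
  have t1 := key (A * A) A _ _ nAA nA (by positivity)
  have t2 := key (A * A) B _ _ nAA nB (by positivity)
  have t3 := key A (B * A) _ _ nA nBA (by positivity)
  have t4 := key A (B * B) _ _ nA nBB (by positivity)
  have t5 := key B (A * A) _ _ nB nAA (by positivity)
  have t6 := key (B * A) B _ _ nBA nB (by positivity)
  have t7 := key (B * B) A _ _ nBB nA (by positivity)
  have t8 := key (B * B) B _ _ nBB nB (by positivity)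
  have s1 := norm_add_le (A * A * A + A * A * B + A * (B * A) + A * (B * B) +
      B * (A * A) + B * A * B + B * B * A) (B * B * B)
  have s2 := norm_add_le (A * A * A + A * A * B + A * (B * A) + A * (B * B) +
      B * (A * A) + B * A * B) (B * B * A)
  have s3 := norm_add_le (A * A * A + A * A * B + A * (B * A) + A * (B * B) +
      B * (A * A)) (B * A * B)
  have s4 := norm_add_le (A * A * A + A * A * B + A * (B * A) + A * (B * B)) (B * (A * A))
  have s5 := norm_add_le (A * A * A + A * A * B + A * (B * A)) (A * (B * B))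
  have s6 := norm_add_le (A * A * A + A * A * B) (A * (B * A))
  have s7 := norm_add_le (A * A * A) (A * A * B)
  linarith

end algebra

/-- **Weak continuity.** The commutator of an isometry `b` near the identity in a weak sense with a
compact perturbation of the identity is near the identity in norm. -/
theorem weak_comm {T : E ≃ₗᵢ[ℝ] E} (hT : Cpt T) {ε : ℝ} (hε : 0 < ε) :
    ∃ (F : Finset E) (δ : ℝ), 0 < δ ∧ ∀ b : E ≃ₗᵢ[ℝ] E,
      (∀ x ∈ F, ‖(op T - 1) (b x - x)‖ < δ ∧ ‖(op T - 1) (b⁻¹ x - x)‖ < δ ∧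
        ‖(op T⁻¹ - 1) (b x - x)‖ < δ) →
      ‖op (b * T * b⁻¹ * T⁻¹) - 1‖ < ε := by
  classical
  obtain ⟨m, hm⟩ := exists_nat_gt (4 / ε)
  have hm0 : (0 : ℝ) < m := lt_trans (by positivity) hm
  have hmε : 4 < (m : ℝ) * ε := by rwa [div_lt_iff₀ hε] at hm
  set ε₂ : ℝ := ε / (2 * m) with hε₂
  have hε₂0 : 0 < ε₂ := by positivity
  obtain ⟨n, hn⟩ := exists_nat_gt (8 / ε₂)
  have hn0 : (0 : ℝ) < n := lt_trans (by positivity) hn
  have hnε : 8 < (n : ℝ) * ε₂ := by rwa [div_lt_iff₀ hε₂0] at hn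
  set α : ℝ := ε₂ / (720 * n) with hα
  have hα0 : 0 < α := by positivity
  obtain ⟨F₁, hF₁⟩ := net' hT.isC hα0
  obtain ⟨F₂, hF₂⟩ := net' hT.inv.isC hα0
  refine ⟨F₁ ∪ F₂, α, hα0, fun b hb => ?_⟩
  have nK : ‖op T - 1‖ ≤ 2 := op_sub_le T
  have nK' : ‖op T⁻¹ - 1‖ ≤ 2 := op_sub_le T⁻¹
  have h1 := hF₁ (op T - 1) nK b fun x hx => (hb x (Finset.mem_union_left _ hx)).1
  have h2 := hF₁ (op T - 1) nK b⁻¹ fun x hx => (hb x (Finset.mem_union_left _ hx)).2.1
  have h3 := hF₁ (op T⁻¹ - 1) nK' b fun x hx => (hb x (Finset.mem_union_left _ hx)).2.2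
  have h4 := hF₂ (op T - 1) nK b⁻¹ fun x hx => (hb x (Finset.mem_union_right _ hx)).2.1
  have hc := cube_bound (T := T) (b := b) rfl rfl h1 h2 h3 h4
  set S : E ≃ₗᵢ[ℝ] E := b * T * b⁻¹ * T⁻¹ with hS
  set D : E →L[ℝ] E := op S - 1 with hD
  have h5 := sq_of_cube S n
  rw [← hD] at h5
  have h6 : (n : ℝ) ^ 2 / 2 * ‖D * D * D‖ ≤ n * ε₂ / 2 := by
    calc (n : ℝ) ^ 2 / 2 * ‖D * D * D‖ ≤ (n : ℝ) ^ 2 / 2 * (144 * (5 * α)) := by gcongr
      _ = n * ε₂ / 2 := by rw [hα]; field_simp; norm_num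
  have h7 : ‖D * D‖ ≤ ε₂ := by
    have : (n : ℝ) * ‖D * D‖ ≤ n * ε₂ := by linarith
    exact le_of_mul_le_mul_left this hn0
  have h8 := near_of_sq S m
  rw [← hD] at h8
  have h9 : (m : ℝ) ^ 2 / 2 * ‖D * D‖ ≤ m * ε / 4 := by
    calc (m : ℝ) ^ 2 / 2 * ‖D * D‖ ≤ (m : ℝ) ^ 2 / 2 * ε₂ := by gcongr
      _ = m * ε / 4 := by rw [hε₂]; field_simp; norm_num
  have h10 : (m : ℝ) * ‖D‖ < m * ε := by linarith
  exact lt_of_mul_lt_mul_left h10 hm0.le

end Pool.Agent.J6H26.CP
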