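import Pool.Agent.J6H26.CP.Sk

/-! # Windows: compact perturbations of the identity and skew operators -/

set_option autoImplicit false

namespace Pool.Agent.J6H26.CP

open Pool.Agent.J6H26.FR Filter Topology

variable {E : Type*} [NormedAddCommGroup E] [NormedSpace ℝ E]

/-- finite rank -/
def FinK (A : E →L[ℝ] E) : Prop := FiniteDimensional ℝ (LinearMap.range (A : E →ₗ[ℝ] E))

lemma FinK.of_le {A : E →L[ℝ] E} {V : Submodule ℝ E} (hV : FiniteDimensional ℝ V)
    (h : ∀ x, A x ∈ V) : FinK A := by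
  refine Submodule.finiteDimensional_of_le (S₂ := V) ?_
  rintro _ ⟨x, rfl⟩
  exact h x

lemma FinK.mul_right {A : E →L[ℝ] E} (hA : FinK A) (B : E →L[ℝ] E) : FinK (A * B) :=
  FinK.of_le hA fun x => ⟨B x, rfl⟩

lemma FinK.mul_left {A : E →L[ℝ] E} (hA : FinK A) (B : E →L[ℝ] E) : FinK (B * A) := by
  have h := hA
  unfold FinK at h
  refine FinK.of_le (V := (LinearMap.range (A : E →ₗ[ℝ] E)).map (B : E →ₗ[ℝ] E)) inferInstance
    fun x => ⟨A x, ⟨x, rfl⟩, rfl⟩

lemma FinK.add {A B : E →L[ℝ] E} (hA : FinK A) (hB : FinK B) : FinK (A + B) :=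
  finite_range hA hB

lemma FinK.conj {A : E →L[ℝ] E} (hA : FinK A) (g : E ≃ₗᵢ[ℝ] E) : FinK (cj g A) := by
  rw [cj_eq]
  exact (hA.mul_left _).mul_right _

/-- `T - 1` is compact -/
def Cpt (T : E ≃ₗᵢ[ℝ] E) : Prop := IsCompactOperator (fun x : E => T x - x)

lemma Cpt.isC {T : E ≃ₗᵢ[ℝ] E} (h : Cpt T) : IsCompactOperator (op T - 1 : E →L[ℝ] E) := h

lemma isComp_mul_left {A : E →L[ℝ] E} (hA : IsCompactOperator A) (B : E →L[ℝ] E) :
    IsCompactOperator (B * A : E →L[ℝ] E) := hA.clm_comp B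

lemma isComp_mul_right {A : E →L[ℝ] E} (hA : IsCompactOperator A) (B : E →L[ℝ] E) :
    IsCompactOperator (A * B : E →L[ℝ] E) := hA.comp_clm B

lemma Cpt.mul {S T : E ≃ₗᵢ[ℝ] E} (hS : Cpt S) (hT : Cpt T) : Cpt (S * T) := by
  have h1 : IsCompactOperator ((op S - 1) * op T : E →L[ℝ] E) := isComp_mul_right hS.isC _
  have h2 := IsCompactOperator.add h1 hT.isC
  have e : (fun x : E => (S * T) x - x) =
      (((op S - 1) * op T : E →L[ℝ] E) : E → E) + ((op T - 1 : E →L[ℝ] E) : E → E) := by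
    funext x
    show S (T x) - x = (S (T x) - T x) + (T x - x)
    abel
  unfold Cpt
  rw [e]
  exact h2

lemma Cpt.inv {S : E ≃ₗᵢ[ℝ] E} (hS : Cpt S) : Cpt S⁻¹ := by
  have h1 := (isComp_mul_right hS.isC (op S⁻¹)).neg
  have e : (fun x : E => S⁻¹ x - x) = fun x : E => -(((op S - 1) * op S⁻¹ : E →L[ℝ] E) x) := by
    funext x
    show S⁻¹ x - x = -(S (S⁻¹ x) - S⁻¹ x)
    have : S (S⁻¹ x) = x := S.apply_symm_apply x
    rw [this]; abel
  unfold Cpt
  rw [e]
  exact h1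

lemma Cpt.one : Cpt (1 : E ≃ₗᵢ[ℝ] E) := by
  have e : (fun x : E => (1 : E ≃ₗᵢ[ℝ] E) x - x) = fun _ => (0 : E) := by
    funext x
    show x - x = 0
    rw [sub_self]
  unfold Cpt
  rw [e]
  exact isCompactOperator_zero

lemma Cpt.zpow {S : E ≃ₗᵢ[ℝ] E} (hS : Cpt S) (k : ℤ) : Cpt (S ^ k) := by
  have hn : ∀ (R : E ≃ₗᵢ[ℝ] E), Cpt R → ∀ j : ℕ, Cpt (R ^ j) := by
    intro R hR j
    induction j with
    | zero => rw [pow_zero]; exact Cpt.one
    | succ j ih => rw [pow_succ]; exact ih.mul hR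
  cases k with
  | ofNat j => rw [Int.ofNat_eq_natCast, zpow_natCast]; exact hn S hS j
  | negSucc j => rw [zpow_negSucc, ← inv_pow]; exact hn _ hS.inv _

lemma Cpt.conj {S : E ≃ₗᵢ[ℝ] E} (hS : Cpt S) (g : E ≃ₗᵢ[ℝ] E) : Cpt (g * S * g⁻¹) := by
  have h1 := isComp_mul_right (isComp_mul_left hS.isC (op g)) (op g⁻¹)
  have e : (fun x : E => (g * S * g⁻¹) x - x) = fun x : E =>
      ((op g * (op S - 1) * op g⁻¹ : E →L[ℝ] E) x) := by
    funext x
    show g (S (g⁻¹ x)) - x = g (S (g⁻¹ x) - g⁻¹ x)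
    rw [map_sub]
    have : g (g⁻¹ x) = x := g.apply_symm_apply x
    rw [this]
  unfold Cpt
  rw [e]
  exact h1

variable [CompleteSpace E]

/-- the fixed space of a compact operator is finite-dimensional -/
lemma finite_fix {K : E →L[ℝ] E} (hK : IsCompactOperator K) {V : Submodule ℝ E}
    (hV : ∀ v ∈ V, K v = v) : FiniteDimensional ℝ V := by
  let V₀ : Submodule ℝ E := LinearMap.ker ((K - 1 : E →L[ℝ] E) : E →ₗ[ℝ] E)
  have hV₀ : ∀ v ∈ V₀, K v = v := by
    intro v hv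
    have : (K - 1 : E →L[ℝ] E) v = 0 := hv
    exact sub_eq_zero.1 this
  have hcl : IsClosed (V₀ : Set E) := ContinuousLinearMap.isClosed_ker (K - 1)
  have : CompleteSpace V₀ := hcl.completeSpace_coe
  have hmaps : ∀ v ∈ V₀, (K : E →ₗ[ℝ] E) v ∈ V₀ := by
    intro v hv
    show K v ∈ V₀
    rw [hV₀ v hv]; exact hv
  have h1 : IsCompactOperator ((K : E →ₗ[ℝ] E).restrict hmaps) :=
    IsCompactOperator.restrict' (f := (K : E →ₗ[ℝ] E)) hK hmaps
  have h2 : ((K : E →ₗ[ℝ] E).restrict hmaps : V₀ → V₀) = id := by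
    funext v
    exact Subtype.ext (hV₀ v v.2)
  rw [h2] at h1
  have h3 : FiniteDimensional ℝ V₀ := FiniteDimensional.of_isCompactOperator_id h1
  refine Submodule.finiteDimensional_of_le (S₂ := V₀) fun v hv => ?_
  show (K - 1 : E →L[ℝ] E) v = 0
  exact sub_eq_zero.2 (hV v hv)

/-- functions vanishing at zero give compact operators -/
lemma Fop_compact {T : E ≃ₗᵢ[ℝ] E} (hT : Cpt T) {a : ℤ → ℝ} (ha : Summable fun k => |a k|)
    (h0 : HasSum a 0) : IsCompactOperator (Fop T a) := by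
  have h1 : HasSum (fun k => a k • op (T ^ k)) (Fop T a) := (summable_term T ha).hasSum
  have h2 : HasSum (fun k => a k • (1 : E →L[ℝ] E)) ((0 : ℝ) • (1 : E →L[ℝ] E)) :=
    h0.smul_const _
  have h3 := h1.sub h2
  rw [zero_smul, sub_zero] at h3
  refine isCompactOperator_of_tendsto h3 (Filter.Eventually.of_forall fun s => ?_)
  have h4 : (∑ k ∈ s, (a k • op (T ^ k) - a k • (1 : E →L[ℝ] E))) ∈
      compactOperator (RingHom.id ℝ) E E := by
    refine Submodule.sum_mem _ fun k _ => ?_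
    rw [← smul_sub]
    exact Submodule.smul_mem _ _ (hT.zpow k).isC
  exact h4

/-- the windows off zero have finite rank -/
lemma win_fin {T : E ≃ₗᵢ[ℝ] E} (hT : Cpt T) {η : ℝ} (h0 : 0 < η) (h1 : η ≤ 1) :
    FinK (Fop T (aa η)) := by
  have hc : IsCompactOperator (Fop T (aa (η / 2))) :=
    Fop_compact hT (aa_summable (by linarith) (by linarith)) (aa_sum (by linarith) (by linarith))
  refine finite_fix hc ?_
  rintro _ ⟨x, rfl⟩
  have h2 := Fop_disj T (η := η) (η' := η / 2) (by linarith) (by linarith) h1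
  have h3 : Fop T (aa (η / 2)) * Fop T (aa η) = Fop T (aa η) := by
    rw [Fop_aa T (δ := η / 2) (by linarith) (by linarith), sub_mul, one_mul, h2, sub_zero]
  exact congrArg (fun z : E →L[ℝ] E => z x) h3

/-- a nontrivial compact perturbation of the identity gives a finite rank operator in its
bicommutant with a fixed vector -/
theorem exists_win {T : E ≃ₗᵢ[ℝ] E} (hT : Cpt T) (h1 : T ≠ 1) :
    ∃ (W : E →L[ℝ] E) (h : E), FinK W ∧ ‖h‖ = 1 ∧ W h = h ∧
      ∀ A : E →L[ℝ] E, A * op T = op T * A → A * W = W * A := by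
  obtain ⟨δ, hδ, hδ1, hne⟩ := exists_window T h1
  obtain ⟨x, hx⟩ : ∃ x, Fop T (aa δ) x ≠ 0 := by
    by_contra hcon
    push Not at hcon
    exact hne (by ext x; exact hcon x)
  have hn : ‖Fop T (aa δ) x‖ ≠ 0 := norm_ne_zero_iff.2 hx
  refine ⟨Fop T (aa (δ / 2)), ‖Fop T (aa δ) x‖⁻¹ • Fop T (aa δ) x,
    win_fin hT (by linarith) (by linarith), ?_, ?_, ?_⟩
  · rw [norm_smul, norm_inv, norm_norm, inv_mul_cancel₀ hn]
  · rw [map_smul]
    congr 1
    have h2 := Fop_disj T (η := δ) (η' := δ / 2) (by linarith) (by linarith) hδ1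
    have h3 : Fop T (aa (δ / 2)) * Fop T (aa δ) = Fop T (aa δ) := by
      rw [Fop_aa T (δ := δ / 2) (by linarith) (by linarith), sub_mul, one_mul, h2, sub_zero]
    exact congrArg (fun z : E →L[ℝ] E => z x) h3
  · intro A hA
    exact Fop_comm_of T (aa_summable (by linarith) (by linarith)) A hA

end Pool.Agent.J6H26.CP
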